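import Pool.Agent.H6.RA.Stm

/-!
Irreducible associative bimodules over the algebra of 2 by 2 matrices (not necessarily unital).
-/

namespace Pool.Agent.H6.RA

universe u v w

namespace Bimodule

variable {F : Type u} [Field F]

lemma iso_of_hom {M : Bimodule.{u, v} F} {M' : Bimodule.{u, w} F} (hM : M.IsIrreducible)
    (f : M'.carrier →ₗ[F] M.carrier) (hinj : Function.Injective f) (hne : ∃ x, f x ≠ 0)
    (hl : ∀ a m, f (M'.left a m) = M.left a (f m))
    (hr : ∀ a m, f (M'.right a m) = M.right a (f m)) : M.Iso M' := by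
  have hsub : M.IsSubBimodule (LinearMap.range f) := by
    rintro a _ ⟨m, rfl⟩
    exact ⟨⟨_, hl a m⟩, ⟨_, hr a m⟩⟩
  have htop : LinearMap.range f = ⊤ := by
    rcases hM.2 _ hsub with h | h
    · exfalso
      obtain ⟨x, hx⟩ := hne
      apply hx
      have : f x ∈ LinearMap.range f := ⟨x, rfl⟩
      rw [h] at this
      exact (Submodule.mem_bot F).1 this
    · exact h
  let e := LinearEquiv.ofBijective f ⟨hinj, LinearMap.range_eq_top.1 htop⟩
  have he : ∀ x, e x = f x := fun x => rfl
  refine ⟨e.symm, fun a m => ?_, fun a m => ?_⟩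
  · rw [LinearEquiv.symm_apply_eq, he, hl, ← he, LinearEquiv.apply_symm_apply]
  · rw [LinearEquiv.symm_apply_eq, he, hr, ← he, LinearEquiv.apply_symm_apply]

/-- an idempotent which commutes with all operators is zero or one -/
lemma idem_cases {M : Bimodule.{u, v} F} (hM : M.IsIrreducible) (p : Module.End F M.carrier)
    (hp : p * p = p) (hl : ∀ a, M.left a * p = p * M.left a)
    (hr : ∀ a, M.right a * p = p * M.right a) : p = 0 ∨ p = 1 := by
  have hsub : M.IsSubBimodule (LinearMap.range p) := by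
    rintro a _ ⟨m, rfl⟩
    refine ⟨⟨M.left a m, ?_⟩, ⟨M.right a m, ?_⟩⟩
    · exact (LinearMap.congr_fun (hl a) m).symm
    · exact (LinearMap.congr_fun (hr a) m).symm
  rcases hM.2 _ hsub with h | h
  · left
    exact LinearMap.range_eq_bot.1 h
  · right
    ext m
    obtain ⟨m', rfl⟩ := LinearMap.range_eq_top.1 h m
    exact LinearMap.congr_fun hp m'

/-- matrix units -/
abbrev e (i j : Fin 2) : Mat2 F := Matrix.single i j 1

/-- the matrix with first column `m` -/
def colMat : (Fin 2 → F) →ₗ[F] Mat2 F where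
  toFun m := Matrix.of fun i j => if j = 0 then m i else 0
  map_add' m n := by ext i j; fin_cases j <;> simp
  map_smul' c m := by ext i j; fin_cases j <;> simp

/-- the matrix with first row `m` -/
def rowMat : (Fin 2 → F) →ₗ[F] Mat2 F where
  toFun m := Matrix.of fun i j => if i = 0 then m j else 0
  map_add' m n := by ext i j; fin_cases i <;> simp
  map_smul' c m := by ext i j; fin_cases i <;> simp

lemma mul_colMat (a : Mat2 F) (m : Fin 2 → F) : a * colMat m = colMat (a.mulVec m) := by
  ext i j; fin_cases i <;> fin_cases j <;> simp [colMat, Matrix.mul_apply]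

lemma rowMat_mul (a : Mat2 F) (m : Fin 2 → F) : rowMat m * a = rowMat (Matrix.vecMul m a) := by
  ext i j; fin_cases i <;> fin_cases j <;> simp [rowMat, Matrix.mul_apply, Matrix.vecMul, dotProduct]

lemma e_colMat (i : Fin 2) (m : Fin 2 → F) : e 0 i * colMat m = m i • (e 0 0 : Mat2 F) := by
  ext r s; fin_cases i <;> fin_cases r <;> fin_cases s <;>
    simp [colMat, e, Matrix.mul_apply, Matrix.single]

lemma rowMat_e (i : Fin 2) (m : Fin 2 → F) : rowMat m * e i 0 = m i • (e 0 0 : Mat2 F) := by
  ext r s; fin_cases i <;> fin_cases r <;> fin_cases s <;>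
    simp [rowMat, e, Matrix.mul_apply, Matrix.single]

lemma one_eq : (1 : Mat2 F) = e 0 0 + e 1 1 := by
  ext r s; fin_cases r <;> fin_cases s <;> simp [e, Matrix.single]

lemma e_mul (i j : Fin 2) : (e i j : Mat2 F) * e j 0 = e i 0 := by
  simp [e]

lemma case_left {M : Bimodule.{u, v} F} (hA : M.IsAssoc) (hM : M.IsIrreducible)
    (h1 : M.left 1 = 1) (h2 : ∀ a, M.right a = 0) : M.Iso (leftBim F) := by
  have := hM.1
  obtain ⟨m, hm⟩ := exists_ne (0 : M.carrier)
  have hex : ∃ v, v ≠ 0 ∧ M.left (e 0 0) v = v := by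
    have h3 : m = M.left (e 0 0) m + M.left (e 1 1) m := by
      rw [← LinearMap.add_apply, ← map_add, ← one_eq, h1]; rfl
    by_cases h4 : M.left (e 0 0) m = 0
    · refine ⟨M.left (e 0 1) m, ?_, ?_⟩
      · intro h5
        apply hm
        rw [h3, h4, zero_add]
        have h6 : (e 1 1 : Mat2 F) = e 1 0 * e 0 1 := by simp [e]
        rw [h6, ← hA.ll, Module.End.mul_apply, h5, map_zero]
      · rw [← Module.End.mul_apply, hA.ll]; simp [e]
    · refine ⟨M.left (e 0 0) m, h4, ?_⟩
      rw [← Module.End.mul_apply, hA.ll]; simp [e]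
  obtain ⟨v, hv, hv1⟩ := hex
  let f : (Fin 2 → F) →ₗ[F] M.carrier := (LinearMap.applyₗ v) ∘ₗ M.left ∘ₗ colMat
  have hf : ∀ x, f x = M.left (colMat x) v := fun x => rfl
  have hinj : Function.Injective f := by
    rw [injective_iff_map_eq_zero]
    intro x hx
    ext i
    rw [hf] at hx
    have h3 := congrArg (M.left (e 0 i)) hx
    rw [← Module.End.mul_apply, hA.ll, e_colMat, map_smul, LinearMap.smul_apply, hv1,
      map_zero] at h3
    exact (smul_eq_zero.1 h3).resolve_right hv
  refine iso_of_hom (M' := leftBim F) hM f hinj ⟨(![1, 0] : Fin 2 → F), ?_⟩ ?_ ?_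
  · intro h3
    have := congrFun (hinj (h3.trans (map_zero f).symm)) 0
    simp at this
  · intro a x
    change f (a.mulVec x) = M.left a (f x)
    rw [hf, hf, ← Module.End.mul_apply, hA.ll, mul_colMat]
  · intro a x
    rw [h2]
    change f 0 = 0
    rw [map_zero]

lemma case_right {M : Bimodule.{u, v} F} (hA : M.IsAssoc) (hM : M.IsIrreducible)
    (h1 : M.right 1 = 1) (h2 : ∀ a, M.left a = 0) : M.Iso (rightBim F) := by
  have := hM.1
  obtain ⟨m, hm⟩ := exists_ne (0 : M.carrier)
  have hex : ∃ v, v ≠ 0 ∧ M.right (e 0 0) v = v := by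
    have h3 : m = M.right (e 0 0) m + M.right (e 1 1) m := by
      rw [← LinearMap.add_apply, ← map_add, ← one_eq, h1]; rfl
    by_cases h4 : M.right (e 0 0) m = 0
    · refine ⟨M.right (e 1 0) m, ?_, ?_⟩
      · intro h5
        apply hm
        rw [h3, h4, zero_add]
        have h6 : (e 1 1 : Mat2 F) = e 1 0 * e 0 1 := by simp [e]
        rw [h6, ← hA.rr, Module.End.mul_apply, h5, map_zero]
      · rw [← Module.End.mul_apply, hA.rr]; simp [e]
    · refine ⟨M.right (e 0 0) m, h4, ?_⟩
      rw [← Module.End.mul_apply, hA.rr]; simp [e]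
  obtain ⟨v, hv, hv1⟩ := hex
  let f : (Fin 2 → F) →ₗ[F] M.carrier := (LinearMap.applyₗ v) ∘ₗ M.right ∘ₗ rowMat
  have hf : ∀ x, f x = M.right (rowMat x) v := fun x => rfl
  have hinj : Function.Injective f := by
    rw [injective_iff_map_eq_zero]
    intro x hx
    ext i
    rw [hf] at hx
    have h3 := congrArg (M.right (e i 0)) hx
    rw [← Module.End.mul_apply, hA.rr, rowMat_e, map_smul, LinearMap.smul_apply, hv1,
      map_zero] at h3
    exact (smul_eq_zero.1 h3).resolve_right hv
  refine iso_of_hom (M' := rightBim F) hM f hinj ⟨(![1, 0] : Fin 2 → F), ?_⟩ ?_ ?_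
  · intro h3
    have := congrFun (hinj (h3.trans (map_zero f).symm)) 0
    simp at this
  · intro a x
    rw [h2]
    change f 0 = 0
    rw [map_zero]
  · intro a x
    change f (Matrix.vecMul x a) = M.right a (f x)
    rw [hf, hf, ← Module.End.mul_apply, hA.rr, rowMat_mul]

lemma case_zero {M : Bimodule.{u, v} F} (hM : M.IsIrreducible)
    (h1 : ∀ a, M.left a = 0) (h2 : ∀ a, M.right a = 0) : M.Iso (zeroBim F) := by
  have := hM.1
  obtain ⟨m, hm⟩ := exists_ne (0 : M.carrier)
  let f : F →ₗ[F] M.carrier := LinearMap.toSpanSingleton F M.carrier m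
  have hf : ∀ x, f x = x • m := fun x => LinearMap.toSpanSingleton_apply F M.carrier m x
  have hinj : Function.Injective f := by
    rw [injective_iff_map_eq_zero]
    intro x hx
    rw [hf] at hx
    exact (smul_eq_zero.1 hx).resolve_right hm
  refine iso_of_hom (M' := zeroBim F) hM f hinj ⟨(1 : F), ?_⟩ ?_ ?_
  · intro h3
    exact one_ne_zero (hinj (h3.trans (map_zero f).symm))
  · intro a x
    rw [h1]
    change f 0 = 0
    rw [map_zero]
  · intro a x
    rw [h2]
    change f 0 = 0
    rw [map_zero]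

lemma mul_e_eq (b : Mat2 F) (j : Fin 2) :
    b * e j 0 = b 0 j • (e 0 0 : Mat2 F) + b 1 j • e 1 0 := by
  ext r s; fin_cases j <;> fin_cases r <;> fin_cases s <;>
    simp [e, Matrix.mul_apply, Matrix.single]

lemma e_mul_eq (b : Mat2 F) (j : Fin 2) :
    e 0 j * b = b j 0 • (e 0 0 : Mat2 F) + b j 1 • e 0 1 := by
  ext r s; fin_cases j <;> fin_cases r <;> fin_cases s <;>
    simp [e, Matrix.mul_apply, Matrix.single]

lemma e_mul_mul (a : Mat2 F) (i j : Fin 2) : e 0 i * (a * e j 0) = a i j • (e 0 0 : Mat2 F) := by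
  ext r s; fin_cases i <;> fin_cases j <;> fin_cases r <;> fin_cases s <;>
    simp [e, Matrix.mul_apply, Matrix.single]

lemma case_reg {M : Bimodule.{u, v} F} (hA : M.IsAssoc) (hM : M.IsIrreducible)
    (h1 : M.left 1 = 1) (h2 : M.right 1 = 1) : M.Iso (regBim F) := by
  have := hM.1
  obtain ⟨m, hm⟩ := exists_ne (0 : M.carrier)
  have hll : ∀ a b x, M.left a (M.left b x) = M.left (a * b) x := fun a b x => by
    rw [← hA.ll]; rfl
  have hrr : ∀ a b x, M.right b (M.right a x) = M.right (a * b) x := fun a b x => by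
    rw [← hA.rr]; rfl
  have hlr : ∀ a b x, M.left a (M.right b x) = M.right b (M.left a x) := fun a b x =>
    LinearMap.congr_fun (hA.lr a b) x
  have hex : ∃ v, v ≠ 0 ∧ M.left (e 0 0) v = v ∧ M.right (e 0 0) v = v := by
    by_contra hc
    push Not at hc
    have key : ∀ i j : Fin 2, M.left (e 0 i) (M.right (e j 0) m) = 0 := by
      intro i j
      by_contra hne
      apply hc _ hne
      · rw [hll]; simp [e]
      · rw [← hlr, hrr]; simp [e]
    have key2 : ∀ i j : Fin 2, M.left (e i i) (M.right (e j j) m) = 0 := by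
      intro i j
      have h3 : (e i i : Mat2 F) = e i 0 * e 0 i := by simp [e]
      have h4 : (e j j : Mat2 F) = e j 0 * e 0 j := by simp [e]
      rw [h3, h4, ← hll, ← hrr, hlr (e 0 i), key, map_zero, map_zero]
    apply hm
    have h3 : m = M.left (e 0 0 + e 1 1) (M.right (e 0 0 + e 1 1) m) := by
      rw [← one_eq, h1, h2]; rfl
    rw [h3]
    simp only [map_add, LinearMap.add_apply, key2, add_zero]
  obtain ⟨v, hv, hv1, hv2⟩ := hex
  let f : Mat2 F →ₗ[F] M.carrier :=
    { toFun := fun a => M.left (a * e 0 0) (M.right (e 0 0) v) +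
        M.left (a * e 1 0) (M.right (e 0 1) v)
      map_add' := by
        intro a b
        simp only [add_mul, map_add, LinearMap.add_apply]
        abel
      map_smul' := by
        intro c a
        simp only [smul_mul_assoc, map_smul, LinearMap.smul_apply, RingHom.id_apply, smul_add] }
  have hf : ∀ a, f a = M.left (a * e 0 0) (M.right (e 0 0) v) +
        M.left (a * e 1 0) (M.right (e 0 1) v) := fun a => rfl
  have hinj : Function.Injective f := by
    rw [injective_iff_map_eq_zero]
    intro x hx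
    have key : ∀ i j : Fin 2, M.left (e 0 i) (M.right (e j 0) (f x)) = x i j • v := by
      intro i j
      rw [hf, map_add, map_add, ← hlr, ← hlr, hll, hll, hrr, hrr, e_mul_mul, e_mul_mul,
        map_smul, map_smul, LinearMap.smul_apply, LinearMap.smul_apply]
      fin_cases j <;> simp [e, hv1, hv2]
    ext i j
    have h3 := key i j
    rw [hx, map_zero, map_zero] at h3
    exact (smul_eq_zero.1 h3.symm).resolve_right hv
  refine iso_of_hom (M' := regBim F) hM f hinj ⟨(1 : Mat2 F), ?_⟩ ?_ ?_
  · intro h3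
    exact one_ne_zero (hinj (h3.trans (map_zero f).symm))
  · intro a (x : Mat2 F)
    change f (a * x) = M.left a (f x)
    rw [hf, hf, map_add, hll, hll, mul_assoc, mul_assoc]
  · intro a (x : Mat2 F)
    change f (x * a) = M.right a (f x)
    rw [hf, hf, map_add, ← hlr, ← hlr, hrr, hrr, mul_assoc, mul_assoc, mul_e_eq, mul_e_eq,
      e_mul_eq, e_mul_eq]
    simp only [mul_add, mul_smul_comm, map_add, map_smul, LinearMap.add_apply,
      LinearMap.smul_apply]
    module

end Bimodule

theorem s_assoc : S_assoc.{u, v} := by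
  intro F _ M _ hA hM
  have hl : M.left 1 = 0 ∨ M.left 1 = 1 := by
    refine M.idem_cases hM _ (by rw [hA.ll, one_mul]) (fun a => ?_) fun a => ?_
    · rw [hA.ll, hA.ll, one_mul, mul_one]
    · rw [hA.lr]
  have hr : M.right 1 = 0 ∨ M.right 1 = 1 := by
    refine M.idem_cases hM _ (by rw [hA.rr, one_mul]) (fun a => ?_) fun a => ?_
    · rw [hA.lr]
    · rw [hA.rr, hA.rr, one_mul, mul_one]
  have hl0 : M.left 1 = 0 → ∀ a, M.left a = 0 := by
    intro h a
    rw [← one_mul a, ← hA.ll, h, zero_mul]
  have hr0 : M.right 1 = 0 → ∀ a, M.right a = 0 := by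
    intro h a
    rw [← mul_one a, ← hA.rr, h, zero_mul]
  rcases hl with hl | hl <;> rcases hr with hr | hr
  · exact ⟨0, Bimodule.case_zero hM (hl0 hl) (hr0 hr)⟩
  · exact ⟨2, Bimodule.case_right hA hM hr (hl0 hl)⟩
  · exact ⟨1, Bimodule.case_left hA hM hl (hr0 hr)⟩
  · exact ⟨3, Bimodule.case_reg hA hM hl hr⟩

end Pool.Agent.H6.RA
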