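import Mathlib

/-!
Right alternative bimodules over the algebra of 2 by 2 matrices:
the definitions used in the statement of the classification of the irreducible ones.
-/

namespace Pool.Agent.H6.RA

universe u v w

/-- The associative algebra of 2 by 2 matrices over `F`. -/
abbrev Mat2 (F : Type u) : Type u := Matrix (Fin 2) (Fin 2) F

/-- The map `f : Mat2 F × V → V` is bilinear. -/
structure IsBilin {F : Type u} [Field F] {V : Type v} [AddCommGroup V] [Module F V]
    (f : Mat2 F → V → V) : Prop where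
  add_left : ∀ a b m, f (a + b) m = f a m + f b m
  smul_left : ∀ (c : F) a m, f (c • a) m = c • f a m
  add_right : ∀ a m n, f a (m + n) = f a m + f a n
  smul_right : ∀ (c : F) a m, f a (c • m) = c • f a m

/-- A bimodule over the algebra of 2 by 2 matrices over `F`: a vector space with a bilinear left
action (`left a m` is `a m`) and a bilinear right action (`right a m` is `m a`), no further axiom. -/
structure Bimod (F : Type u) [Field F] where
  carrier : Type v
  [grp : AddCommGroup carrier]
  [mod : Module F carrier]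
  left : Mat2 F → carrier → carrier
  right : Mat2 F → carrier → carrier
  left_bilin : IsBilin left
  right_bilin : IsBilin right

attribute [instance] Bimod.grp Bimod.mod

namespace Bimod

variable {F : Type u} [Field F]

/-- Multiplication of the split null extension, whose underlying space is `Mat2 F × M`:
`(a + m)(b + n) = a b + (a n + m b)`. -/
def nullMul (M : Bimod.{u, v} F) (x y : Mat2 F × M.carrier) : Mat2 F × M.carrier :=
  (x.1 * y.1, M.left x.1 y.2 + M.right y.1 x.2)

/-- The bimodule is right alternative: its split null extension satisfies `(xy)y = x(yy)`. -/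
def IsRightAlternative (M : Bimod.{u, v} F) : Prop :=
  ∀ x y : Mat2 F × M.carrier, M.nullMul (M.nullMul x y) y = M.nullMul x (M.nullMul y y)

/-- A subspace stable under both actions. -/
def IsSub (M : Bimod.{u, v} F) (N : Submodule F M.carrier) : Prop :=
  ∀ (a : Mat2 F), ∀ m ∈ N, M.left a m ∈ N ∧ M.right a m ∈ N

/-- The bimodule is nonzero and its only sub-bimodules are zero and itself. -/
def IsIrreducible (M : Bimod.{u, v} F) : Prop :=
  Nontrivial M.carrier ∧ ∀ N : Submodule F M.carrier, M.IsSub N → N = ⊥ ∨ N = ⊤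

/-- Isomorphism of bimodules: a linear bijection commuting with both actions. -/
def Iso (M : Bimod.{u, v} F) (M' : Bimod.{u, w} F) : Prop :=
  ∃ φ : M.carrier ≃ₗ[F] M'.carrier,
    ∀ a m, φ (M.left a m) = M'.left a (φ m) ∧ φ (M.right a m) = M'.right a (φ m)

/-- The map induced by `f` on a stable subspace. -/
def subAct {V : Type v} [AddCommGroup V] [Module F V] (f : Mat2 F → V → V) (N : Submodule F V)
    (h : ∀ a, ∀ m ∈ N, f a m ∈ N) (a : Mat2 F) (m : N) : N := ⟨f a m, h a m m.2⟩

lemma subAct_bilin {V : Type v} [AddCommGroup V] [Module F V] (f : Mat2 F → V → V)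
    (N : Submodule F V) (h : ∀ a, ∀ m ∈ N, f a m ∈ N) (hf : IsBilin f) :
    IsBilin (subAct f N h) where
  add_left a b m := Subtype.ext (hf.add_left a b m)
  smul_left c a m := Subtype.ext (hf.smul_left c a m)
  add_right a m n := Subtype.ext (hf.add_right a m n)
  smul_right c a m := Subtype.ext (hf.smul_right c a m)

/-- The sub-bimodule of `M` generated by a set `S`, as a subspace. -/
def gen (M : Bimod.{u, v} F) (S : Set M.carrier) : Submodule F M.carrier :=
  sInf {N | M.IsSub N ∧ S ⊆ N}

lemma gen_left (M : Bimod.{u, v} F) (S : Set M.carrier) :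
    ∀ a, ∀ m ∈ M.gen S, M.left a m ∈ M.gen S := by
  intro a m hm
  simp only [gen, Submodule.mem_sInf] at hm ⊢
  exact fun N hN => (hN.1 a m (hm N hN)).1

lemma gen_right (M : Bimod.{u, v} F) (S : Set M.carrier) :
    ∀ a, ∀ m ∈ M.gen S, M.right a m ∈ M.gen S := by
  intro a m hm
  simp only [gen, Submodule.mem_sInf] at hm ⊢
  exact fun N hN => (hN.1 a m (hm N hN)).2

/-- The sub-bimodule of `M` generated by a set `S`, as a bimodule. -/
def sub (M : Bimod.{u, v} F) (S : Set M.carrier) : Bimod.{u, v} F where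
  carrier := M.gen S
  left := subAct M.left (M.gen S) (M.gen_left S)
  right := subAct M.right (M.gen S) (M.gen_right S)
  left_bilin := subAct_bilin _ _ _ M.left_bilin
  right_bilin := subAct_bilin _ _ _ M.right_bilin

end Bimod

/-- A module over the algebra `F⟨x, s, z, q⟩/(q² - q)`: a vector space with three arbitrary
endomorphisms `x`, `s`, `z` and one idempotent endomorphism `q`. -/
structure QMod (F : Type u) [Field F] where
  carrier : Type v
  [grp : AddCommGroup carrier]
  [mod : Module F carrier]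
  x : Module.End F carrier
  s : Module.End F carrier
  z : Module.End F carrier
  q : Module.End F carrier
  idem : ∀ y, q (q y) = q y

attribute [instance] QMod.grp QMod.mod

namespace QMod

variable {F : Type u} [Field F]

/-- A submodule over the algebra `F⟨x, s, z, q⟩/(q² - q)`. -/
def IsSubmodule (Y : QMod.{u, v} F) (N : Submodule F Y.carrier) : Prop :=
  ∀ y ∈ N, Y.x y ∈ N ∧ Y.s y ∈ N ∧ Y.z y ∈ N ∧ Y.q y ∈ N

/-- Irreducibility over the algebra `F⟨x, s, z, q⟩/(q² - q)`. -/
def IsIrreducible (Y : QMod.{u, v} F) : Prop :=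
  Nontrivial Y.carrier ∧ ∀ N : Submodule F Y.carrier, Y.IsSubmodule N → N = ⊥ ∨ N = ⊤

/-- Isomorphism over the algebra `F⟨x, s, z, q⟩/(q² - q)`. -/
def Iso (Y : QMod.{u, v} F) (Y' : QMod.{u, w} F) : Prop :=
  ∃ φ : Y.carrier ≃ₗ[F] Y'.carrier, ∀ y,
    φ (Y.x y) = Y'.x (φ y) ∧ φ (Y.s y) = Y'.s (φ y) ∧ φ (Y.z y) = Y'.z (φ y) ∧
    φ (Y.q y) = Y'.q (φ y)

variable (Y : QMod.{u, v} F)

/-- 2 by 2 matrices with entries in `Y`. -/
abbrev V : Type v := Matrix (Fin 2) (Fin 2) Y.carrier

/-- The product `b m` of a scalar matrix `b` and a matrix `m` with entries in `Y`. -/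
@[simp] def bmFun (b : Mat2 F) (m : Y.V) : Y.V := fun i j => b i 0 • m 0 j + b i 1 • m 1 j

/-- The product `m bᵀ` of a matrix `m` with entries in `Y` and the transpose of `b`. -/
@[simp] def mbtFun (b : Mat2 F) (m : Y.V) : Y.V := fun i j => b j 0 • m i 0 + b j 1 • m i 1

/-- The symmetric matrix `Φ_b(y)` with entries
`(b₀₀ - b₁₁) x y + b₀₁ s y`, `b₁₀ x y + b₀₁ z y`, `b₁₀ s y + (b₁₁ - b₀₀) z y`. -/
@[simp] def phi (b : Mat2 F) (y : Y.carrier) : Y.V :=
  !![(b 0 0 - b 1 1) • Y.x y + b 0 1 • Y.s y, b 1 0 • Y.x y + b 0 1 • Y.z y;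
     b 1 0 • Y.x y + b 0 1 • Y.z y, b 1 0 • Y.s y + (b 1 1 - b 0 0) • Y.z y]

/-- `T_b m = b m + m bᵀ + Φ_b(m₀₁ - m₁₀)`. -/
@[simp] def tmFun (b : Mat2 F) (m : Y.V) : Y.V :=
  Y.bmFun b m + Y.mbtFun b m + Y.phi b (m 0 1 - m 1 0)

/-- The matrix `[y] = (-x y, (y - s y)/2; -(y + s y)/2, -z y)`. -/
@[simp] def invFun (y : Y.carrier) : Y.V :=
  !![- Y.x y, (2 : F)⁻¹ • (y - Y.s y); - ((2 : F)⁻¹ • (y + Y.s y)), - Y.z y]

/-- `Q(m) = m - [(1 - q)(m₀₁ - m₁₀)]`. -/
def qmFun (m : Y.V) : Y.V := m - Y.invFun (m 0 1 - m 1 0 - Y.q (m 0 1 - m 1 0))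

/-- The right action on pairs of matrices: `(u, w) b = (b u, Q(b u))`. -/
def pairR (b : Mat2 F) (p : Y.V × Y.V) : Y.V × Y.V := (Y.bmFun b p.1, Y.qmFun (Y.bmFun b p.1))

/-- The left action on pairs of matrices: `b (u, w) = (T_b w - b w, T_b w - Q(b u))`. -/
def pairL (b : Mat2 F) (p : Y.V × Y.V) : Y.V × Y.V :=
  (Y.tmFun b p.2 - Y.bmFun b p.2, Y.tmFun b p.2 - Y.qmFun (Y.bmFun b p.1))

lemma bmFun_add_left (b c : Mat2 F) (m : Y.V) :
    Y.bmFun (b + c) m = Y.bmFun b m + Y.bmFun c m := by
  ext i j; simp; module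

lemma bmFun_smul_left (r : F) (b : Mat2 F) (m : Y.V) :
    Y.bmFun (r • b) m = r • Y.bmFun b m := by
  ext i j; simp; module

lemma bmFun_add_right (b : Mat2 F) (m n : Y.V) :
    Y.bmFun b (m + n) = Y.bmFun b m + Y.bmFun b n := by
  ext i j; simp; module

lemma bmFun_smul_right (r : F) (b : Mat2 F) (m : Y.V) :
    Y.bmFun b (r • m) = r • Y.bmFun b m := by
  ext i j; simp; module

lemma tmFun_add_left (b c : Mat2 F) (m : Y.V) :
    Y.tmFun (b + c) m = Y.tmFun b m + Y.tmFun c m := by
  ext i j; fin_cases i <;> fin_cases j <;> simp [-map_sub] <;> module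

lemma tmFun_smul_left (r : F) (b : Mat2 F) (m : Y.V) :
    Y.tmFun (r • b) m = r • Y.tmFun b m := by
  ext i j; fin_cases i <;> fin_cases j <;> simp [-map_sub] <;> module

lemma tmFun_add_right (b : Mat2 F) (m n : Y.V) :
    Y.tmFun b (m + n) = Y.tmFun b m + Y.tmFun b n := by
  ext i j; fin_cases i <;> fin_cases j <;> simp [add_sub_add_comm, -map_sub] <;> module

lemma tmFun_smul_right (r : F) (b : Mat2 F) (m : Y.V) :
    Y.tmFun b (r • m) = r • Y.tmFun b m := by
  ext i j; fin_cases i <;> fin_cases j <;> simp [← smul_sub, -map_sub] <;> module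

lemma invFun_add (m n : Y.carrier) : Y.invFun (m + n) = Y.invFun m + Y.invFun n := by
  ext i j; fin_cases i <;> fin_cases j <;> simp <;> module

lemma invFun_smul (c : F) (m : Y.carrier) : Y.invFun (c • m) = c • Y.invFun m := by
  ext i j; fin_cases i <;> fin_cases j <;> simp <;> module

lemma qmFun_add (m n : Y.V) : Y.qmFun (m + n) = Y.qmFun m + Y.qmFun n := by
  have h : (m + n) 0 1 - (m + n) 1 0 - Y.q ((m + n) 0 1 - (m + n) 1 0) =
      (m 0 1 - m 1 0 - Y.q (m 0 1 - m 1 0)) + (n 0 1 - n 1 0 - Y.q (n 0 1 - n 1 0)) := by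
    simp only [Matrix.add_apply, map_sub, map_add]; abel
  unfold qmFun
  rw [h, invFun_add]; abel

lemma qmFun_smul (c : F) (m : Y.V) : Y.qmFun (c • m) = c • Y.qmFun m := by
  have h : (c • m) 0 1 - (c • m) 1 0 - Y.q ((c • m) 0 1 - (c • m) 1 0) =
      c • (m 0 1 - m 1 0 - Y.q (m 0 1 - m 1 0)) := by
    simp only [Matrix.smul_apply, map_sub, map_smul, smul_sub]
  unfold qmFun
  rw [h, invFun_smul, smul_sub]

lemma pairR_bilin : IsBilin Y.pairR where
  add_left a b m := by
    simp only [pairR, bmFun_add_left, qmFun_add, Prod.mk_add_mk]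
  smul_left c a m := by
    simp only [pairR, bmFun_smul_left, qmFun_smul, Prod.smul_mk]
  add_right a m n := by
    simp only [pairR, Prod.fst_add, bmFun_add_right, qmFun_add, Prod.mk_add_mk]
  smul_right c a m := by
    simp only [pairR, Prod.smul_fst, bmFun_smul_right, qmFun_smul, Prod.smul_mk]

lemma pairL_bilin : IsBilin Y.pairL where
  add_left a b m := by
    simp only [pairL, bmFun_add_left, tmFun_add_left, qmFun_add, Prod.mk_add_mk]
    ext1 <;> dsimp only <;> abel
  smul_left c a m := by
    simp only [pairL, bmFun_smul_left, tmFun_smul_left, qmFun_smul, Prod.smul_mk, smul_sub]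
  add_right a m n := by
    simp only [pairL, Prod.fst_add, Prod.snd_add, bmFun_add_right, tmFun_add_right, qmFun_add,
      Prod.mk_add_mk]
    ext1 <;> dsimp only <;> abel
  smul_right c a m := by
    simp only [pairL, Prod.smul_fst, Prod.smul_snd, bmFun_smul_right, tmFun_smul_right,
      qmFun_smul, Prod.smul_mk, smul_sub]

/-- The bimodule of pairs `(u, w)` of 2 by 2 matrices with entries in `Y`:
`(u, w) b = (b u, Q(b u))` and `b (u, w) = (T_b w - b w, T_b w - Q(b u))`. -/
def pairs : Bimod.{u, v} F where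
  carrier := Y.V × Y.V
  left := Y.pairL
  right := Y.pairR
  left_bilin := Y.pairL_bilin
  right_bilin := Y.pairR_bilin

/-- The bimodule `N(Y)`: the sub-bimodule of the bimodule of pairs generated by all `([y], [q y])`. -/
def N : Bimod.{u, v} F :=
  Y.pairs.sub (Set.range fun y => (Y.invFun y, Y.invFun (Y.q y)))

end QMod

section Special

variable {F : Type u} [Field F]

lemma zero_bilin {V : Type v} [AddCommGroup V] [Module F V] :
    IsBilin fun (_ : Mat2 F) (_ : V) => (0 : V) :=
  ⟨fun _ _ _ => (add_zero 0).symm, fun _ _ _ => (smul_zero _).symm,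
    fun _ _ _ => (add_zero 0).symm, fun _ _ _ => (smul_zero _).symm⟩

lemma mulVec_bilin : IsBilin fun (a : Mat2 F) (m : Fin 2 → F) => a.mulVec m :=
  ⟨fun a b m => Matrix.add_mulVec a b m, fun c a m => Matrix.smul_mulVec c a m,
    fun a m n => Matrix.mulVec_add a m n, fun c a m => Matrix.mulVec_smul a c m⟩

lemma vecMul_bilin : IsBilin fun (a : Mat2 F) (m : Fin 2 → F) => Matrix.vecMul m a :=
  ⟨fun a b m => Matrix.vecMul_add a b m, fun c a m => Matrix.vecMul_smul m c a,
    fun a m n => Matrix.add_vecMul a m n, fun c a m => Matrix.smul_vecMul c m a⟩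

lemma mulLeft_bilin {n : Type v} : IsBilin fun (a : Mat2 F) (m : Matrix (Fin 2) n F) => a * m :=
  ⟨fun a b m => Matrix.add_mul a b m, fun c a m => Matrix.smul_mul c a m,
    fun a m n => Matrix.mul_add a m n, fun c a m => Matrix.mul_smul a c m⟩

lemma mulRight_bilin : IsBilin fun (a m : Mat2 F) => m * a :=
  ⟨fun a b m => mul_add m a b, fun c a m => Matrix.mul_smul m c a,
    fun a m n => add_mul m n a, fun c a m => Matrix.smul_mul c m a⟩

/-- The operators `T_b` on the space of 2 by 3 matrices (exceptional bimodule of dimension six). -/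
@[simp] def t6Fun (b : Mat2 F) (m : Matrix (Fin 2) (Fin 3) F) : Matrix (Fin 2) (Fin 3) F :=
  !![b 0 0 * m 0 0 + b 0 1 * m 1 0 + b 1 0 * (m 0 1 - m 1 2) + b 1 1 * m 0 0,
     b 0 0 * (2 * m 0 1 - m 1 2) + b 0 1 * (m 0 0 + m 1 1) + b 1 0 * m 0 2 + b 1 1 * m 1 2,
     b 0 0 * (2 * m 0 2) + b 0 1 * (2 * m 1 2);
     b 1 0 * (2 * m 0 0) + b 1 1 * (2 * m 1 0),
     b 0 0 * m 0 0 + b 0 1 * m 1 0 + b 1 0 * (m 0 1 + m 1 2) + b 1 1 * (2 * m 1 1 - m 0 0),
     b 0 0 * m 1 2 + b 0 1 * (m 1 1 - m 0 0) + b 1 0 * m 0 2 + b 1 1 * m 1 2]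

lemma t6Fun_add_left (b c : Mat2 F) (m : Matrix (Fin 2) (Fin 3) F) :
    t6Fun (b + c) m = t6Fun b m + t6Fun c m := by
  ext i j; fin_cases i <;> fin_cases j <;> simp <;> ring

lemma t6Fun_smul_left (r : F) (b : Mat2 F) (m : Matrix (Fin 2) (Fin 3) F) :
    t6Fun (r • b) m = r • t6Fun b m := by
  ext i j; fin_cases i <;> fin_cases j <;> simp <;> ring

lemma t6Fun_add_right (b : Mat2 F) (m n : Matrix (Fin 2) (Fin 3) F) :
    t6Fun b (m + n) = t6Fun b m + t6Fun b n := by
  ext i j; fin_cases i <;> fin_cases j <;> simp <;> ring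

lemma t6Fun_smul_right (r : F) (b : Mat2 F) (m : Matrix (Fin 2) (Fin 3) F) :
    t6Fun b (r • m) = r • t6Fun b m := by
  ext i j; fin_cases i <;> fin_cases j <;> simp <;> ring

/-- The left action of the exceptional bimodule of dimension six: `T_b m - b m`. -/
def l6Fun (b : Mat2 F) (m : Matrix (Fin 2) (Fin 3) F) : Matrix (Fin 2) (Fin 3) F :=
  t6Fun b m - b * m

lemma l6Fun_bilin : IsBilin (l6Fun (F := F)) where
  add_left a b m := by simp only [l6Fun, t6Fun_add_left, Matrix.add_mul]; abel
  smul_left c a m := by simp only [l6Fun, t6Fun_smul_left, Matrix.smul_mul, smul_sub]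
  add_right a m n := by simp only [l6Fun, t6Fun_add_right, Matrix.mul_add]; abel
  smul_right c a m := by simp only [l6Fun, t6Fun_smul_right, Matrix.mul_smul, smul_sub]

variable (F)

/-- The one-dimensional bimodule with zero actions. -/
def zeroB : Bimod.{u, u} F where
  carrier := F
  left := fun _ _ => 0
  right := fun _ _ => 0
  left_bilin := zero_bilin
  right_bilin := zero_bilin

/-- Column vectors, the usual left action and zero right action. -/
def leftB : Bimod.{u, u} F where
  carrier := Fin 2 → F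
  left := fun a m => a.mulVec m
  right := fun _ _ => 0
  left_bilin := mulVec_bilin
  right_bilin := zero_bilin

/-- Row vectors, zero left action and the usual right action. -/
def rightB : Bimod.{u, u} F where
  carrier := Fin 2 → F
  left := fun _ _ => 0
  right := fun a m => Matrix.vecMul m a
  left_bilin := zero_bilin
  right_bilin := vecMul_bilin

/-- The regular bimodule: the algebra itself with its multiplications. -/
def regB : Bimod.{u, u} F where
  carrier := Mat2 F
  left := fun a m => a * m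
  right := fun a m => m * a
  left_bilin := mulLeft_bilin
  right_bilin := mulRight_bilin

/-- The exceptional bimodule of dimension six: 2 by 3 matrices, the right action of `b` is
multiplication by `b` from the left, the left action is `T_b m - b m`. -/
def sixB : Bimod.{u, u} F where
  carrier := Matrix (Fin 2) (Fin 3) F
  left := l6Fun
  right := fun b m => b * m
  left_bilin := l6Fun_bilin
  right_bilin := mulLeft_bilin

/-- The five special bimodules. -/
def specialB : Fin 5 → Bimod.{u, u} F := ![zeroB F, leftB F, rightB F, regB F, sixB F]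

end Special

end Pool.Agent.H6.RA
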