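import Pool.Agent.H6.RA.Pr

/-!
The bimodules `N(Y)` are right alternative, and irreducible if `Y` is.
-/

set_option linter.unusedSimpArgs false

namespace Pool.Agent.H6.RA

universe u v w

section

variable {F : Type u} [Field F] (Y : QMod.{u, v} F)

lemma bim_bm00 (b : Mat2 F) (m : Y.V) : Y.bm b m 0 0 = b 0 0 • m 0 0 + b 0 1 • m 1 0 := rfl
lemma bim_bm01 (b : Mat2 F) (m : Y.V) : Y.bm b m 0 1 = b 0 0 • m 0 1 + b 0 1 • m 1 1 := rfl
lemma bim_bm10 (b : Mat2 F) (m : Y.V) : Y.bm b m 1 0 = b 1 0 • m 0 0 + b 1 1 • m 1 0 := rfl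
lemma bim_bm11 (b : Mat2 F) (m : Y.V) : Y.bm b m 1 1 = b 1 0 • m 0 1 + b 1 1 • m 1 1 := rfl

lemma bim_tm00 (b : Mat2 F) (m : Y.V) : Y.tm b m 0 0 =
    b 0 0 • m 0 0 + b 0 1 • m 1 0 + (b 0 0 • m 0 0 + b 0 1 • m 0 1) +
      ((b 0 0 - b 1 1) • Y.x (Y.tau m) + b 0 1 • Y.s (Y.tau m)) := rfl
lemma bim_tm01 (b : Mat2 F) (m : Y.V) : Y.tm b m 0 1 =
    b 0 0 • m 0 1 + b 0 1 • m 1 1 + (b 1 0 • m 0 0 + b 1 1 • m 0 1) +
            (b 1 0 • Y.x (Y.tau m) + b 0 1 • Y.z (Y.tau m)) := rfl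
lemma bim_tm10 (b : Mat2 F) (m : Y.V) : Y.tm b m 1 0 =
    b 1 0 • m 0 0 + b 1 1 • m 1 0 + (b 0 0 • m 1 0 + b 0 1 • m 1 1) +
            (b 1 0 • Y.x (Y.tau m) + b 0 1 • Y.z (Y.tau m)) := rfl
lemma bim_tm11 (b : Mat2 F) (m : Y.V) : Y.tm b m 1 1 =
    b 1 0 • m 0 1 + b 1 1 • m 1 1 + (b 1 0 • m 1 0 + b 1 1 • m 1 1) +
            (b 1 0 • Y.s (Y.tau m) + (b 1 1 - b 0 0) • Y.z (Y.tau m)) := rfl

lemma bim_tau_tm (b : Mat2 F) (m : Y.V) : Y.tau (Y.tm b m) = (b 0 0 + b 1 1) • Y.tau m := by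
  rw [pr_tau, pr_tau, bim_tm01, bim_tm10]
  module

lemma bim_bm_mul (a b : Mat2 F) (m : Y.V) : Y.bm a (Y.bm b m) = Y.bm (a * b) m := by
  ext i j
  fin_cases i <;> fin_cases j
  · change Y.bm a (Y.bm b m) 0 0 = Y.bm (a * b) m 0 0
    simp only [bim_bm00, bim_bm01, bim_bm10, bim_bm11, Matrix.mul_apply, Fin.sum_univ_two]
    module
  · change Y.bm a (Y.bm b m) 0 1 = Y.bm (a * b) m 0 1
    simp only [bim_bm00, bim_bm01, bim_bm10, bim_bm11, Matrix.mul_apply, Fin.sum_univ_two]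
    module
  · change Y.bm a (Y.bm b m) 1 0 = Y.bm (a * b) m 1 0
    simp only [bim_bm00, bim_bm01, bim_bm10, bim_bm11, Matrix.mul_apply, Fin.sum_univ_two]
    module
  · change Y.bm a (Y.bm b m) 1 1 = Y.bm (a * b) m 1 1
    simp only [bim_bm00, bim_bm01, bim_bm10, bim_bm11, Matrix.mul_apply, Fin.sum_univ_two]
    module

/-- the identity for matrices -/
lemma bim_key (a b : Mat2 F) (m : Y.V) : Y.tm a (Y.tm b m) - Y.bm a (Y.tm b m) =
    Y.tm (a * b) m - Y.bm (a * b) m + Y.bm b (Y.tm a m - Y.bm a m) := by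
  ext i j
  fin_cases i <;> fin_cases j
  · change Y.tm a (Y.tm b m) 0 0 - Y.bm a (Y.tm b m) 0 0 =
      Y.tm (a * b) m 0 0 - Y.bm (a * b) m 0 0 + Y.bm b (Y.tm a m - Y.bm a m) 0 0
    simp only [bim_bm00, bim_bm01, bim_bm10, bim_bm11, Matrix.mul_apply, Fin.sum_univ_two,
      bim_tm00, bim_tm01, bim_tm10, bim_tm11, bim_tau_tm, Matrix.sub_apply, map_smul]
    module
  · change Y.tm a (Y.tm b m) 0 1 - Y.bm a (Y.tm b m) 0 1 =
      Y.tm (a * b) m 0 1 - Y.bm (a * b) m 0 1 + Y.bm b (Y.tm a m - Y.bm a m) 0 1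
    simp only [bim_bm00, bim_bm01, bim_bm10, bim_bm11, Matrix.mul_apply, Fin.sum_univ_two,
      bim_tm00, bim_tm01, bim_tm10, bim_tm11, bim_tau_tm, Matrix.sub_apply, map_smul]
    module
  · change Y.tm a (Y.tm b m) 1 0 - Y.bm a (Y.tm b m) 1 0 =
      Y.tm (a * b) m 1 0 - Y.bm (a * b) m 1 0 + Y.bm b (Y.tm a m - Y.bm a m) 1 0
    simp only [bim_bm00, bim_bm01, bim_bm10, bim_bm11, Matrix.mul_apply, Fin.sum_univ_two,
      bim_tm00, bim_tm01, bim_tm10, bim_tm11, bim_tau_tm, Matrix.sub_apply, map_smul]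
    module
  · change Y.tm a (Y.tm b m) 1 1 - Y.bm a (Y.tm b m) 1 1 =
      Y.tm (a * b) m 1 1 - Y.bm (a * b) m 1 1 + Y.bm b (Y.tm a m - Y.bm a m) 1 1
    simp only [bim_bm00, bim_bm01, bim_bm10, bim_bm11, Matrix.mul_apply, Fin.sum_univ_two,
      bim_tm00, bim_tm01, bim_tm10, bim_tm11, bim_tau_tm, Matrix.sub_apply, map_smul]
    module

lemma bim_right (b : Mat2 F) (u w : Y.V) :
    Y.big.right b (u, w) = (Y.bm b u, Y.qm (Y.bm b u)) := rfl

lemma bim_left (b : Mat2 F) (u w : Y.V) :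
    Y.big.left b (u, w) = (Y.tm b w - Y.bm b w, Y.tm b w - Y.qm (Y.bm b u)) := rfl

lemma bim_qm (m : Y.V) : Y.qm m = m - Y.inv (Y.tau m - Y.q (Y.tau m)) := rfl

lemma bim_tau_qm (h2 : (2 : F) ≠ 0) (m : Y.V) : Y.tau (Y.qm m) = Y.q (Y.tau m) := by
  rw [bim_qm, map_sub, pr_tau_inv Y h2]
  abel

lemma bim_qm_fix {m : Y.V} (h : Y.q (Y.tau m) = Y.tau m) : Y.qm m = m := by
  rw [bim_qm, h, sub_self, map_zero, sub_zero]

/-- the elements `(u, w)` with `q (τ w) = τ w` -/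
def bim_C : Submodule F Y.big.carrier where
  carrier := {p | Y.q (Y.tau (p : Y.V × Y.V).2) = Y.tau (p : Y.V × Y.V).2}
  zero_mem' := by
    change Y.q (Y.tau 0) = Y.tau 0
    simp
  add_mem' := by
    intro a b ha hb
    change Y.q (Y.tau (a.2 + b.2)) = Y.tau (a.2 + b.2)
    have ha' : Y.q (Y.tau a.2) = Y.tau a.2 := ha
    have hb' : Y.q (Y.tau b.2) = Y.tau b.2 := hb
    rw [map_add, map_add, ha', hb']
  smul_mem' := by
    intro c a ha
    change Y.q (Y.tau (c • a.2)) = Y.tau (c • a.2)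
    have ha' : Y.q (Y.tau a.2) = Y.tau a.2 := ha
    rw [map_smul, map_smul, ha']

lemma bim_mem_C (u w : Y.V) : (id (u, w) : Y.big.carrier) ∈ bim_C Y ↔ Y.q (Y.tau w) = Y.tau w :=
  Iff.rfl

lemma bim_C_isSub (h2 : (2 : F) ≠ 0) : Y.big.IsSubBimodule (bim_C Y) := by
  rintro a ⟨u, w⟩ hm
  have hm' : Y.q (Y.tau w) = Y.tau w := hm
  constructor
  · change Y.q (Y.tau (Y.tm a w - Y.qm (Y.bm a u))) = Y.tau (Y.tm a w - Y.qm (Y.bm a u))
    rw [map_sub, bim_tau_tm, bim_tau_qm Y h2, map_sub, map_smul, hm', Y.idem]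
  · change Y.q (Y.tau (Y.qm (Y.bm a u))) = Y.tau (Y.qm (Y.bm a u))
    rw [bim_tau_qm Y h2, Y.idem]

lemma bim_j (y : Y.carrier) : Y.jmap y = (Y.inv y, Y.inv (Y.q y)) := rfl

lemma bim_gen_le (h2 : (2 : F) ≠ 0) : Y.big.gen (Set.range Y.jmap) ≤ bim_C Y := by
  apply Y.big.gen_le (bim_C_isSub Y h2)
  rintro _ ⟨y, rfl⟩
  change Y.q (Y.tau (Y.inv (Y.q y))) = Y.tau (Y.inv (Y.q y))
  rw [pr_tau_inv Y h2, Y.idem]

lemma bim_rr (a b : Mat2 F) (p : Y.big.carrier) :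
    Y.big.right a (Y.big.right b p) = Y.big.right (a * b) p := by
  obtain ⟨u, w⟩ := p
  change (Y.bm a (Y.bm b u), Y.qm (Y.bm a (Y.bm b u))) = (Y.bm (a * b) u, Y.qm (Y.bm (a * b) u))
  rw [bim_bm_mul]

lemma bim_lt (a b : Mat2 F) {p : Y.big.carrier} (hp : p ∈ bim_C Y) :
    Y.big.left a (Y.big.left b p + Y.big.right b p) =
      Y.big.left (a * b) p + Y.big.right b (Y.big.left a p) := by
  obtain ⟨u, w⟩ := p
  have hw : Y.q (Y.tau w) = Y.tau w := hp
  have hk := bim_key Y a b w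
  have h1 : Y.big.left b (u, w) + Y.big.right b (u, w) =
      (id (Y.tm b w - Y.bm b w + Y.bm b u, Y.tm b w) : Y.big.carrier) := pr_T Y b u w
  refine (congrArg _ h1).trans ?_
  apply Prod.ext
  · change Y.tm a (Y.tm b w) - Y.bm a (Y.tm b w) =
      Y.tm (a * b) w - Y.bm (a * b) w + Y.bm b (Y.tm a w - Y.bm a w)
    exact hk
  · change Y.tm a (Y.tm b w) - Y.qm (Y.bm a (Y.tm b w - Y.bm b w + Y.bm b u)) =
      Y.tm (a * b) w - Y.qm (Y.bm (a * b) u) + Y.qm (Y.bm b (Y.tm a w - Y.bm a w))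
    have h3 : Y.qm (Y.tm a (Y.tm b w) - Y.tm (a * b) w) = Y.tm a (Y.tm b w) - Y.tm (a * b) w := by
      apply bim_qm_fix
      rw [map_sub, bim_tau_tm, bim_tau_tm, bim_tau_tm, map_sub, map_smul, map_smul, map_smul, hw]
    have h4 : Y.bm b (Y.tm a w - Y.bm a w) = Y.tm a (Y.tm b w) - Y.tm (a * b) w -
        Y.bm a (Y.tm b w) + Y.bm (a * b) w := by
      have : Y.bm b (Y.tm a w - Y.bm a w) = (Y.tm (a * b) w - Y.bm (a * b) w +
        Y.bm b (Y.tm a w - Y.bm a w)) - Y.tm (a * b) w + Y.bm (a * b) w := by abel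
      rw [this, ← hk]
      abel
    rw [h4]
    simp only [map_add, map_sub, bim_bm_mul] at h3 ⊢
    rw [sub_eq_iff_eq_add] at h3
    rw [h3]
    abel

theorem bim_ra (h2 : (2 : F) ≠ 0) : Y.bim.IsRightAlternative := by
  rintro ⟨a, ⟨m, hm⟩⟩ ⟨b, ⟨n, hn⟩⟩
  have hn' := bim_gen_le Y h2 hn
  have h1 := bim_rr Y b b m
  have h3 := bim_lt Y a b hn'
  apply Prod.ext
  · exact mul_assoc a b b
  · apply Subtype.ext
    change Y.big.left (a * b) n + Y.big.right b (Y.big.left a n + Y.big.right b m) =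
      Y.big.left a (Y.big.left b n + Y.big.right b n) + Y.big.right (b * b) m
    rw [h3, map_add, h1]
    abel

/-- the generator `j y` as an element of the bimodule -/
def bim_jj : Y.carrier →ₗ[F] Y.bim.carrier :=
  Y.jmap.codRestrict (Y.big.gen (Set.range Y.jmap)) fun y =>
    Y.big.subset_gen (Set.range Y.jmap) ⟨y, rfl⟩

lemma bim_jj_inj (h2 : (2 : F) ≠ 0) : Function.Injective (bim_jj Y) := by
  intro y y' h
  have h1 : Y.jmap y = Y.jmap y' := congrArg Subtype.val h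
  have h3 : Y.inv y = Y.inv y' := congrArg (fun p : Y.V × Y.V => p.1) h1
  rw [← pr_tau_inv Y h2 y, h3, pr_tau_inv Y h2]

/-- the operator `pr` preserves sub-bimodules -/
lemma bim_pr_mem (M : Bimodule.{u, v} F) {N : Submodule F M.carrier} (hN : M.IsSubBimodule N)
    {m : M.carrier} (hm : m ∈ N) : M.pr m ∈ N := by
  have hT : ∀ (b : Mat2 F) (x : M.carrier), x ∈ N → M.T b x ∈ N := fun b x hx =>
    N.add_mem (hN b x hx).1 (hN b x hx).2
  have hE : M.E m ∈ N := N.sub_mem (hT 1 m hm) hm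
  have hX : ∀ x : M.carrier, x ∈ N → (M.T (mh F) - 1) x ∈ N := fun x hx =>
    N.sub_mem (hT _ x hx) hx
  exact N.sub_mem (N.sub_mem hm (N.smul_mem _ (N.add_mem (hT _ _ (hT _ _ hE))
    (hT _ _ (hT _ _ hE))))) (N.smul_mem _ (hX _ (hX _ hE)))

lemma bim_pr_right (h2 : (2 : F) ≠ 0) (b : Mat2 F) (p : Y.big.carrier) :
    Y.big.pr (Y.big.right b p) = Y.jmap (Y.tau (Y.bm b (p : Y.V × Y.V).1)) := by
  obtain ⟨u, w⟩ := p
  rw [bim_right]
  exact s_pr F Y h2 (Y.bm b u)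

theorem bim_irr (h2 : (2 : F) ≠ 0) (hY : Y.IsIrreducible) {K : Submodule F Y.big.carrier}
    (hK : Y.big.IsSubBimodule K) : K = ⊥ ∨ Y.big.gen (Set.range Y.jmap) ≤ K := by
  -- the submodule of `Y`
  have hpr : ∀ (b : Mat2 F) (p : Y.big.carrier) (m : Y.V), p ∈ K → (p : Y.V × Y.V).1 = m →
      Y.jmap (Y.tau (Y.bm b m)) ∈ K := by
    intro b p m h hm
    rw [← hm, ← bim_pr_right Y h2]
    exact bim_pr_mem Y.big hK (hK b _ h).2
  have hsub : Y.IsSubmodule (K.comap Y.jmap) := by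
    intro y hy
    rw [Submodule.mem_comap] at hy
    have ht : ∀ b : Mat2 F, Y.jmap (Y.tau (Y.bm b (Y.inv y))) ∈ K := fun b => hpr b (Y.jmap y) (Y.inv y) hy rfl
    have hx : Y.x y ∈ K.comap Y.jmap := by
      have h1 : Y.tau (Y.bm (mf F) (Y.inv y)) = Y.x y := by
        rw [pr_tau, bim_bm01, bim_bm10, pr_inv]
        simp [mf]
      have h3 := ht (mf F)
      rwa [h1] at h3
    have hz : Y.z y ∈ K.comap Y.jmap := by
      have h1 : Y.tau (Y.bm (me F) (Y.inv y)) = - Y.z y := by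
        rw [pr_tau, bim_bm01, bim_bm10, pr_inv]
        simp [me]
      have h3 := ht (me F)
      rw [h1, map_neg] at h3
      exact K.neg_mem_iff.1 h3
    have hs : Y.s y ∈ K.comap Y.jmap := by
      have h1 : Y.tau (Y.bm (mh F) (Y.inv y)) = (2 : F)⁻¹ • (y - Y.s y) := by
        rw [pr_tau, bim_bm01, bim_bm10, pr_inv]
        simp [mh]
      have h3 := ht (mh F)
      rw [h1] at h3
      have h4 := (K.comap Y.jmap).smul_mem (2 : F) (show _ ∈ K.comap Y.jmap from h3)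
      rw [smul_smul, mul_inv_cancel₀ h2, one_smul] at h4
      have h5 := (K.comap Y.jmap).sub_mem (show y ∈ K.comap Y.jmap from hy) h4
      rwa [sub_sub_cancel] at h5
    have hq : Y.q y ∈ K.comap Y.jmap := by
      have h1 := (hK 1 _ hy).1
      rw [Submodule.mem_comap]
      convert h1 using 1
      change (Y.inv (Y.q y), Y.inv (Y.q (Y.q y))) = (Y.tm 1 (Y.inv (Y.q y)) -
        Y.bm 1 (Y.inv (Y.q y)), Y.tm 1 (Y.inv (Y.q y)) - Y.qm (Y.bm 1 (Y.inv y)))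
      rw [pr_bm_one, pr_bm_one, pr_tm_one, Y.idem, bim_qm, pr_tau_inv Y h2, map_sub]
      apply Prod.ext
      · change Y.inv (Y.q y) = Y.inv (Y.q y) + Y.inv (Y.q y) - Y.inv (Y.q y)
        abel
      · change Y.inv (Y.q y) = Y.inv (Y.q y) + Y.inv (Y.q y) - (Y.inv y - (Y.inv y - Y.inv (Y.q y)))
        abel
    exact ⟨hx, hs, hz, hq⟩
  rcases hY.2 _ hsub with h | h
  · left
    rw [eq_bot_iff]
    rintro ⟨u, w⟩ huw
    have hmem : ∀ y, Y.jmap y ∈ K → y = 0 := by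
      intro y hy
      have : y ∈ K.comap Y.jmap := hy
      rw [h] at this
      exact this
    have hu : ∀ p : Y.big.carrier, p ∈ K → (p : Y.V × Y.V).1 = 0 := by
      intro p hp
      have e1 := hmem _ (hpr (me F) p _ hp rfl)
      have e2 := hmem _ (hpr (mf F) p _ hp rfl)
      have e3 := hmem _ (hpr (mh F) p _ hp rfl)
      have e4 := hmem _ (hpr (1 - mh F) p _ hp rfl)
      rw [pr_tau, bim_bm01, bim_bm10] at e1 e2 e3 e4
      ext i j
      fin_cases i <;> fin_cases j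
      · simpa [mf] using e2
      · simpa [mh] using e3
      · simpa [mh] using e4
      · simpa [me] using e1
    have h3 : u = 0 := hu _ huw
    have h4 : Y.tm 1 w - Y.bm 1 w = 0 := hu _ (hK 1 _ huw).1
    rw [pr_tm_one, pr_bm_one, add_sub_cancel_right] at h4
    rw [Submodule.mem_bot]
    subst h3 h4
    rfl
  · right
    apply Y.big.gen_le hK
    rintro _ ⟨y, rfl⟩
    have : y ∈ K.comap Y.jmap := by rw [h]; trivial
    exact this

theorem s_bim : S_bim.{u, v} := by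
  intro F _ Y h2
  refine ⟨fun hY => ⟨bim_ra Y h2, ?_, ?_⟩, ?_, ?_⟩
  · have := hY.1
    exact (bim_jj_inj Y h2).nontrivial
  · intro N hN
    let g : Submodule F Y.big.carrier := Y.big.gen (Set.range Y.jmap)
    let N' : Submodule F g := N
    let K : Submodule F Y.big.carrier := N'.map g.subtype
    have hK : Y.big.IsSubBimodule K := by
      rintro a _ ⟨m, hm, rfl⟩
      exact ⟨⟨_, (hN a m hm).1, rfl⟩, ⟨_, (hN a m hm).2, rfl⟩⟩
    rcases bim_irr Y h2 hY hK with h | h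
    · left
      have h0 : N' = ⊥ := by
        rw [eq_bot_iff]
        intro m hm
        have h1 : g.subtype m ∈ K := ⟨m, hm, rfl⟩
        rw [h, Submodule.mem_bot] at h1
        rw [Submodule.mem_bot]
        exact Subtype.ext h1
      exact h0
    · right
      have h0 : N' = ⊤ := by
        rw [eq_top_iff]
        intro m _
        obtain ⟨m', hm', h1⟩ := h m.2
        have : m' = m := Subtype.ext h1
        rwa [← this]
      exact h0
  · intro h
    exact Module.Finite.of_injective (bim_jj Y) (bim_jj_inj Y h2)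
  · intro h
    have h1 : Module.Finite F Y.V := inferInstance
    have h3 : Module.Finite F (Y.V × Y.V) := inferInstance
    have h4 : Module.Finite F Y.big.carrier := h3
    exact (inferInstance : Module.Finite F (Y.big.gen (Set.range Y.jmap)))

end

end Pool.Agent.H6.RA
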