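import Pool.Agent.H6.RA.Base

/-!
Right alternative bimodules over the algebra of 2 by 2 matrices (field of characteristic not two):
the same definitions as in `Base`, with the actions bundled as linear maps.
-/

namespace Pool.Agent.H6.RA

universe u v w

/-- A bimodule over the algebra of 2 by 2 matrices over `F`: a vector space with a bilinear left
action (`left a m` is `a m`) and a bilinear right action (`right a m` is `m a`), no further axiom. -/
structure Bimodule (F : Type u) [Field F] where
  carrier : Type v
  [grp : AddCommGroup carrier]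
  [mod : Module F carrier]
  left : Mat2 F →ₗ[F] Module.End F carrier
  right : Mat2 F →ₗ[F] Module.End F carrier

attribute [instance] Bimodule.grp Bimodule.mod

namespace Bimodule

variable {F : Type u} [Field F]

/-- Multiplication of the split null extension, whose underlying space is `Mat2 F × M`:
`(a + m)(b + n) = a b + (a n + m b)`. -/
def nullMul (M : Bimodule.{u, v} F) (x y : Mat2 F × M.carrier) : Mat2 F × M.carrier :=
  (x.1 * y.1, M.left x.1 y.2 + M.right y.1 x.2)

/-- The bimodule is right alternative: its split null extension satisfies `(xy)y = x(yy)`. -/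
def IsRightAlternative (M : Bimodule.{u, v} F) : Prop :=
  ∀ x y : Mat2 F × M.carrier, M.nullMul (M.nullMul x y) y = M.nullMul x (M.nullMul y y)

/-- A subspace stable under both actions. -/
def IsSubBimodule (M : Bimodule.{u, v} F) (N : Submodule F M.carrier) : Prop :=
  ∀ (a : Mat2 F), ∀ m ∈ N, M.left a m ∈ N ∧ M.right a m ∈ N

/-- The bimodule is nonzero and its only sub-bimodules are zero and itself. -/
def IsIrreducible (M : Bimodule.{u, v} F) : Prop :=
  Nontrivial M.carrier ∧ ∀ N : Submodule F M.carrier, M.IsSubBimodule N → N = ⊥ ∨ N = ⊤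

/-- Isomorphism of bimodules: a linear bijection commuting with both actions. -/
def Iso (M : Bimodule.{u, v} F) (M' : Bimodule.{u, w} F) : Prop :=
  ∃ φ : M.carrier ≃ₗ[F] M'.carrier,
    (∀ (a : Mat2 F) (m : M.carrier), φ (M.left a m) = M'.left a (φ m)) ∧
    (∀ (a : Mat2 F) (m : M.carrier), φ (M.right a m) = M'.right a (φ m))

/-- A sub-bimodule as a bimodule. -/
def restrict (M : Bimodule.{u, v} F) (N : Submodule F M.carrier) (hN : M.IsSubBimodule N) :
    Bimodule.{u, v} F where
  carrier := N
  left :=
    { toFun := fun a => (M.left a).restrict fun m hm => (hN a m hm).1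
      map_add' := fun a b => by ext m; simp [LinearMap.restrict_apply]
      map_smul' := fun c a => by ext m; simp [LinearMap.restrict_apply] }
  right :=
    { toFun := fun a => (M.right a).restrict fun m hm => (hN a m hm).2
      map_add' := fun a b => by ext m; simp [LinearMap.restrict_apply]
      map_smul' := fun c a => by ext m; simp [LinearMap.restrict_apply] }

/-- The sub-bimodule generated by a set. -/
def gen (M : Bimodule.{u, v} F) (S : Set M.carrier) : Submodule F M.carrier :=
  sInf {N | M.IsSubBimodule N ∧ S ⊆ N}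

lemma gen_isSub (M : Bimodule.{u, v} F) (S : Set M.carrier) : M.IsSubBimodule (M.gen S) := by
  intro a m hm
  simp only [gen, Submodule.mem_sInf] at hm ⊢
  exact ⟨fun N hN => (hN.1 a m (hm N hN)).1, fun N hN => (hN.1 a m (hm N hN)).2⟩

lemma subset_gen (M : Bimodule.{u, v} F) (S : Set M.carrier) : S ⊆ M.gen S := by
  intro m hm
  simp only [gen, SetLike.mem_coe, Submodule.mem_sInf]
  exact fun N hN => hN.2 hm

lemma gen_le (M : Bimodule.{u, v} F) {S : Set M.carrier} {N : Submodule F M.carrier}
    (hN : M.IsSubBimodule N) (h : S ⊆ N) : M.gen S ≤ N := sInf_le ⟨hN, h⟩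

lemma restrict_left (M : Bimodule.{u, v} F) (N : Submodule F M.carrier)
    (hN : M.IsSubBimodule N) (a : Mat2 F) (m : N) :
    (M.restrict N hN).left a m = (⟨M.left a m, (hN a m m.2).1⟩ : N) := rfl

lemma restrict_right (M : Bimodule.{u, v} F) (N : Submodule F M.carrier)
    (hN : M.IsSubBimodule N) (a : Mat2 F) (m : N) :
    (M.restrict N hN).right a m = (⟨M.right a m, (hN a m m.2).2⟩ : N) := rfl

end Bimodule

namespace QMod

variable {F : Type u} [Field F] (Y : QMod.{u, v} F)

/-- `τ(m) = m₀₁ - m₁₀`. -/
def tau : Y.V →ₗ[F] Y.carrier where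
  toFun m := m 0 1 - m 1 0
  map_add' m n := by simp only [Matrix.add_apply]; abel
  map_smul' c m := by simp only [Matrix.smul_apply, RingHom.id_apply, smul_sub]

/-- The product `b m` as a bilinear map. -/
def bm : Mat2 F →ₗ[F] Module.End F Y.V :=
  LinearMap.mk₂ F Y.bmFun Y.bmFun_add_left Y.bmFun_smul_left Y.bmFun_add_right
    Y.bmFun_smul_right

/-- The operator `T_b m = b m + m bᵀ + Φ_b(τ m)`. -/
def tm : Mat2 F →ₗ[F] Module.End F Y.V :=
  LinearMap.mk₂ F Y.tmFun Y.tmFun_add_left Y.tmFun_smul_left Y.tmFun_add_right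
    Y.tmFun_smul_right

/-- The linear map `y ↦ [y]`; one has `T_b [y] = tr(b) [y]` and `τ [y] = y`. -/
def inv : Y.carrier →ₗ[F] Y.V where
  toFun := Y.invFun
  map_add' := Y.invFun_add
  map_smul' := Y.invFun_smul

/-- The projection `m ↦ m - [(1 - q) τ(m)]`. -/
def qm : Y.V →ₗ[F] Y.V := LinearMap.id - Y.inv ∘ₗ (LinearMap.id - Y.q) ∘ₗ Y.tau

/-- The right action on pairs: `(u, w) b = (b u, Q(b u))`, where `Q = qm`. -/
def bigR : Mat2 F →ₗ[F] Module.End F (Y.V × Y.V) where
  toFun b := LinearMap.prod (Y.bm b ∘ₗ LinearMap.fst F Y.V Y.V)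
    (Y.qm ∘ₗ Y.bm b ∘ₗ LinearMap.fst F Y.V Y.V)
  map_add' b c := by ext <;> simp
  map_smul' r b := by ext <;> simp

/-- The left action on pairs: `b (u, w) = (T_b w - b w, T_b w - Q(b u))`, where `Q = qm`. -/
def bigL : Mat2 F →ₗ[F] Module.End F (Y.V × Y.V) where
  toFun b := LinearMap.prod ((Y.tm b - Y.bm b) ∘ₗ LinearMap.snd F Y.V Y.V)
    (Y.tm b ∘ₗ LinearMap.snd F Y.V Y.V - Y.qm ∘ₗ Y.bm b ∘ₗ LinearMap.fst F Y.V Y.V)
  map_add' b c := by ext <;> simp <;> abel
  map_smul' r b := by ext <;> simp [smul_sub]

/-- The bimodule on pairs `(u, w)` of 2 by 2 matrices with entries in `Y`: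
`(u, w) b = (b u, Q(b u))` and `b (u, w) = (T_b w - b w, T_b w - Q(b u))`, where `Q = qm`. -/
def big : Bimodule.{u, v} F where
  carrier := Y.V × Y.V
  right := Y.bigR
  left := Y.bigL

/-- The generators `([y], [q y])`. -/
def jmap : Y.carrier →ₗ[F] Y.big.carrier := LinearMap.prod Y.inv (Y.inv ∘ₗ Y.q)

/-- The bimodule `N(Y)`: the sub-bimodule of `big Y` generated by the pairs `([y], [q y])`. -/
def bim : Bimodule.{u, v} F :=
  Y.big.restrict (Y.big.gen (Set.range Y.jmap)) (Y.big.gen_isSub _)

end QMod

section Special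

variable (F : Type u) [Field F]

/-- The one-dimensional bimodule with zero actions. -/
def zeroBim : Bimodule.{u, u} F where
  carrier := F
  left := 0
  right := 0

/-- The action `(a, m) ↦ a m` on column vectors. -/
def colMul : Mat2 F →ₗ[F] Module.End F (Fin 2 → F) where
  toFun a := Matrix.mulVecLin a
  map_add' a b := Matrix.mulVecLin_add a b
  map_smul' c a := LinearMap.ext fun m => Matrix.smul_mulVec c a m

/-- The action `(a, m) ↦ m a` on row vectors. -/
def rowMul : Mat2 F →ₗ[F] Module.End F (Fin 2 → F) where
  toFun a := Matrix.vecMulLinear a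
  map_add' a b := LinearMap.ext fun m => Matrix.vecMul_add a b m
  map_smul' c a := LinearMap.ext fun m => Matrix.vecMul_smul m c a

/-- Column vectors, the usual left action and zero right action. -/
def leftBim : Bimodule.{u, u} F where
  carrier := Fin 2 → F
  left := colMul F
  right := 0

/-- Row vectors, zero left action and the usual right action. -/
def rightBim : Bimodule.{u, u} F where
  carrier := Fin 2 → F
  left := 0
  right := rowMul F

/-- The regular bimodule: the algebra itself with its multiplications. -/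
def regBim : Bimodule.{u, u} F where
  carrier := Mat2 F
  left := LinearMap.mul F (Mat2 F)
  right := (LinearMap.mul F (Mat2 F)).flip

/-- The operators `T_b` of `t6Fun` as a bilinear map. -/
def t6 : Mat2 F →ₗ[F] Module.End F (Matrix (Fin 2) (Fin 3) F) :=
  LinearMap.mk₂ F t6Fun t6Fun_add_left t6Fun_smul_left t6Fun_add_right t6Fun_smul_right

/-- The multiplication of 2 by 3 matrices by 2 by 2 matrices from the left. -/
def mul6 : Mat2 F →ₗ[F] Module.End F (Matrix (Fin 2) (Fin 3) F) where
  toFun b := mulLeftLinearMap (Fin 3) F b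
  map_add' b c := LinearMap.ext fun m => Matrix.add_mul b c m
  map_smul' r b := LinearMap.ext fun m => Matrix.smul_mul r b m

/-- The exceptional bimodule of dimension six: 2 by 3 matrices, the right action of `b` is
multiplication by `b` from the left, the left action is `T_b m - b m`. -/
def sixBim : Bimodule.{u, u} F where
  carrier := Matrix (Fin 2) (Fin 3) F
  left := t6 F - mul6 F
  right := mul6 F

/-- The five special bimodules. -/
def special (i : Fin 5) : Bimodule.{u, u} F :=
  match i with
  | 0 => zeroBim F
  | 1 => leftBim F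
  | 2 => rightBim F
  | 3 => regBim F
  | 4 => sixBim F

end Special

end Pool.Agent.H6.RA
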