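import Pool.Agent.H6.RA.Stm

/-!
Homomorphisms of bimodules.
-/

namespace Pool.Agent.H6.RA

universe u v w

namespace Bimodule

variable {F : Type u} [Field F] {M : Bimodule.{u, v} F} {M' : Bimodule.{u, w} F}

lemma pr_apply' (M : Bimodule.{u, v} F) (m : M.carrier) :
    M.pr m = m - (4 : F)⁻¹ • (M.T (me F) (M.T (mf F) (M.E m)) + M.T (mf F) (M.T (me F) (M.E m)))
      - (2 : F)⁻¹ • (M.T (mh F) (M.T (mh F) (M.E m) - M.E m) - (M.T (mh F) (M.E m) - M.E m)) := rfl

/-- homomorphisms of bimodules -/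
structure IsHom (φ : M.carrier →ₗ[F] M'.carrier) : Prop where
  left : ∀ a m, φ (M.left a m) = M'.left a (φ m)
  right : ∀ a m, φ (M.right a m) = M'.right a (φ m)

namespace IsHom

variable {φ : M.carrier →ₗ[F] M'.carrier} (h : IsHom φ)

include h

lemma T (a : Mat2 F) (m : M.carrier) : φ (M.T a m) = M'.T a (φ m) := by
  change φ (M.left a m + M.right a m) = M'.left a (φ m) + M'.right a (φ m)
  rw [map_add, h.left, h.right]

lemma E (m : M.carrier) : φ (M.E m) = M'.E (φ m) := by
  change φ (M.T 1 m - m) = M'.T 1 (φ m) - φ m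
  rw [map_sub, h.T]

lemma P (m : M.carrier) : φ (M.P m) = M'.P (φ m) := h.right 1 m

lemma pr (m : M.carrier) : φ (M.pr m) = M'.pr (φ m) := by
  rw [pr_apply', pr_apply']
  simp only [map_sub, map_add, map_smul, h.T, h.E]

lemma ker_isSub : M.IsSubBimodule (LinearMap.ker φ) := by
  intro a m hm
  rw [LinearMap.mem_ker] at hm
  rw [LinearMap.mem_ker, LinearMap.mem_ker, h.left, h.right, hm, map_zero, map_zero]
  exact ⟨rfl, rfl⟩

lemma range_isSub : M'.IsSubBimodule (LinearMap.range φ) := by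
  rintro a _ ⟨m, rfl⟩
  exact ⟨⟨M.left a m, h.left a m⟩, ⟨M.right a m, h.right a m⟩⟩

lemma comap_isSub {N : Submodule F M'.carrier} (hN : M'.IsSubBimodule N) :
    M.IsSubBimodule (N.comap φ) := by
  intro a m hm
  rw [Submodule.mem_comap] at hm
  rw [Submodule.mem_comap, Submodule.mem_comap, h.left, h.right]
  exact hN a _ hm

/-- a nonzero homomorphism between irreducible bimodules is an isomorphism -/
lemma iso_of_ne_zero (hM : M.IsIrreducible) (hM' : M'.IsIrreducible) (h0 : φ ≠ 0) : M.Iso M' := by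
  have hk : LinearMap.ker φ = ⊥ := by
    rcases hM.2 _ h.ker_isSub with h1 | h1
    · exact h1
    · exact absurd (LinearMap.ker_eq_top.1 h1) h0
  have hr : LinearMap.range φ = ⊤ := by
    rcases hM'.2 _ h.range_isSub with h1 | h1
    · exact absurd (LinearMap.range_eq_bot.1 h1) h0
    · exact h1
  exact ⟨LinearEquiv.ofBijective φ ⟨LinearMap.ker_eq_bot.1 hk, LinearMap.range_eq_top.1 hr⟩,
    h.left, h.right⟩

end IsHom

lemma Iso.symm (h : M.Iso M') : M'.Iso M := by
  obtain ⟨φ, h1, h2⟩ := h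
  refine ⟨φ.symm, fun a m => ?_, fun a m => ?_⟩
  · apply φ.injective; rw [h1, φ.apply_symm_apply, φ.apply_symm_apply]
  · apply φ.injective; rw [h2, φ.apply_symm_apply, φ.apply_symm_apply]

/-- stability of a sub-bimodule under the derived operators -/
lemma IsSubBimodule.T {N : Submodule F M.carrier} (hN : M.IsSubBimodule N) (a : Mat2 F)
    {m : M.carrier} (hm : m ∈ N) : M.T a m ∈ N :=
  N.add_mem (hN a m hm).1 (hN a m hm).2

lemma IsSubBimodule.E {N : Submodule F M.carrier} (hN : M.IsSubBimodule N)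
    {m : M.carrier} (hm : m ∈ N) : M.E m ∈ N :=
  N.sub_mem (hN.T 1 hm) hm

lemma IsSubBimodule.pr {N : Submodule F M.carrier} (hN : M.IsSubBimodule N)
    {m : M.carrier} (hm : m ∈ N) : M.pr m ∈ N := by
  rw [pr_apply']
  have hE := hN.E hm
  apply N.sub_mem (N.sub_mem hm (N.smul_mem _ (N.add_mem (hN.T _ (hN.T _ hE)) (hN.T _ (hN.T _ hE)))))
  exact N.smul_mem _ (N.sub_mem (hN.T _ (N.sub_mem (hN.T _ hE) hE)) (N.sub_mem (hN.T _ hE) hE))

/-- the inclusion of a sub-bimodule -/
lemma isHom_subtype (N : Submodule F M.carrier) (hN : M.IsSubBimodule N) :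
    IsHom (M := M.restrict N hN) (M' := M) N.subtype :=
  ⟨fun _ _ => rfl, fun _ _ => rfl⟩

end Bimodule

end Pool.Agent.H6.RA
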