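import Pool.Agent.H6.RA.Stm

/-!
Project RA, module RED: an irreducible right alternative bimodule over `M₂(F)` is associative or
satisfies `Good`.
-/

namespace Pool.Agent.H6.RA

universe u v

namespace RedAux

variable {A : Type*} [Ring A]

/-- `q p q = p q` -/
lemma qpq {p q : A} (h2 : ∀ x y : A, x + x = y + y → x = y) (hpp : p * p = p)
    (h11 : q * (q + p) = q + p * q) : q * p * q = p * q := by
  have hn : q * q - q = p * q - q * p := by
    linear_combination (norm := noncomm_ring) h11
  have hq : q * (p * q - q * p) = (p * q - q * p) * q := by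
    rw [← hn]; noncomm_ring
  have h3 : q * (p * q - q * p) = p * (p * q - q * p) := by
    apply h2
    have e1 : q * (p * q - q * p) + (p * q - q * p) * q = p * (q * q) - (q * q) * p := by
      noncomm_ring
    have e2 : q * q = q + (p * q - q * p) := by rw [← hn]; noncomm_ring
    have e3 : q * (p * q - q * p) + q * (p * q - q * p) = p * (q * q) - (q * q) * p := by
      rw [← e1, hq]
    rw [e3, e2]
    have e4 : p * (p * q - q * p) = p * q - p * q * p := by
      rw [mul_sub, ← mul_assoc, hpp]; noncomm_ring
    have e5 : (p * q - q * p) * p = p * q * p - q * p := by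
      rw [sub_mul, mul_assoc q p p, hpp]
    rw [mul_add, add_mul, e4, e5]
    noncomm_ring
  have e4 : p * (p * q - q * p) = p * q - p * q * p := by
    rw [mul_sub, ← mul_assoc, hpp]; noncomm_ring
  -- q p q = (p q - N) q = p q q - N q = p q + p N - N q
  have e6 : q * p * q = p * (q * q) - (p * q - q * p) * q := by noncomm_ring
  have e2 : q * q = q + (p * q - q * p) := by rw [← hn]; noncomm_ring
  rw [e6, ← hq, h3, e2]
  noncomm_ring

/-- Clifford identities. -/
structure Cliff (p x y w : A) : Prop where
  pp : p * p = p
  px : p * x = x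
  xp : x * p = x
  py : p * y = y
  yp : y * p = y
  pw : p * w = w
  wp : w * p = w
  xx : x * x = x
  yy : y * y = 0
  ww : w * w = 0
  xy : x * y + y * x = y
  xw : x * w + w * x = w
  yw : y * w + w * y = p

namespace Cliff

variable {p x y w : A}

lemma yx (h : Cliff p x y w) : y * x = y - x * y := by
  rw [eq_sub_iff_add_eq, add_comm]; exact h.xy
lemma wx (h : Cliff p x y w) : w * x = w - x * w := by
  rw [eq_sub_iff_add_eq, add_comm]; exact h.xw
lemma wy (h : Cliff p x y w) : w * y = p - y * w := by
  rw [eq_sub_iff_add_eq, add_comm]; exact h.yw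

lemma yx' (h : Cliff p x y w) (t : A) : y * (x * t) = y * t - x * (y * t) := by
  rw [← mul_assoc, h.yx, sub_mul, mul_assoc]
lemma wx' (h : Cliff p x y w) (t : A) : w * (x * t) = w * t - x * (w * t) := by
  rw [← mul_assoc, h.wx, sub_mul, mul_assoc]
lemma wy' (h : Cliff p x y w) (t : A) : w * (y * t) = p * t - y * (w * t) := by
  rw [← mul_assoc, h.wy, sub_mul, mul_assoc]
lemma xx' (h : Cliff p x y w) (t : A) : x * (x * t) = x * t := by rw [← mul_assoc, h.xx]
lemma yy' (h : Cliff p x y w) (t : A) : y * (y * t) = 0 := by rw [← mul_assoc, h.yy, zero_mul]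
lemma ww' (h : Cliff p x y w) (t : A) : w * (w * t) = 0 := by rw [← mul_assoc, h.ww, zero_mul]
lemma pp' (h : Cliff p x y w) (t : A) : p * (p * t) = p * t := by rw [← mul_assoc, h.pp]
lemma px' (h : Cliff p x y w) (t : A) : p * (x * t) = x * t := by rw [← mul_assoc, h.px]
lemma xp' (h : Cliff p x y w) (t : A) : x * (p * t) = x * t := by rw [← mul_assoc, h.xp]
lemma py' (h : Cliff p x y w) (t : A) : p * (y * t) = y * t := by rw [← mul_assoc, h.py]
lemma yp' (h : Cliff p x y w) (t : A) : y * (p * t) = y * t := by rw [← mul_assoc, h.yp]
lemma pw' (h : Cliff p x y w) (t : A) : p * (w * t) = w * t := by rw [← mul_assoc, h.pw]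
lemma wp' (h : Cliff p x y w) (t : A) : w * (p * t) = w * t := by rw [← mul_assoc, h.wp]

end Cliff

/-- `ω = [y, w] - (2 x - p)` -/
def om (p x y w : A) : A := y * w - w * y - (x + x - p)

/-- `z = p - ω²/2` is central, `z² = p`. -/
lemma om_sq_x {p x y w : A} (h : Cliff p x y w) :
    (om p x y w * om p x y w) * x = x * (om p x y w * om p x y w) := by
  simp only [om, mul_add, add_mul, mul_sub, sub_mul, mul_assoc, h.yx, h.wx, h.wy, h.yx', h.wx', h.wy',
    h.xx, h.yy, h.ww, h.xx', h.yy', h.ww', h.pp, h.pp', h.px, h.px', h.xp, h.xp', h.py, h.py', h.yp,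
    h.yp', h.pw, h.pw', h.wp, h.wp', mul_zero, zero_mul, sub_zero, zero_sub, add_zero, zero_add,
    mul_neg, neg_mul]
  abel

lemma om_sq_y {p x y w : A} (h : Cliff p x y w) :
    (om p x y w * om p x y w) * y = y * (om p x y w * om p x y w) := by
  simp only [om, mul_add, add_mul, mul_sub, sub_mul, mul_assoc, h.yx, h.wx, h.wy, h.yx', h.wx', h.wy',
    h.xx, h.yy, h.ww, h.xx', h.yy', h.ww', h.pp, h.pp', h.px, h.px', h.xp, h.xp', h.py, h.py', h.yp,
    h.yp', h.pw, h.pw', h.wp, h.wp', mul_zero, zero_mul, sub_zero, zero_sub, add_zero, zero_add,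
    mul_neg, neg_mul]
  abel

lemma om_sq_w {p x y w : A} (h : Cliff p x y w) :
    (om p x y w * om p x y w) * w = w * (om p x y w * om p x y w) := by
  simp only [om, mul_add, add_mul, mul_sub, sub_mul, mul_assoc, h.yx, h.wx, h.wy, h.yx', h.wx', h.wy',
    h.xx, h.yy, h.ww, h.xx', h.yy', h.ww', h.pp, h.pp', h.px, h.px', h.xp, h.xp', h.py, h.py', h.yp,
    h.yp', h.pw, h.pw', h.wp, h.wp', mul_zero, zero_mul, sub_zero, zero_sub, add_zero, zero_add,
    mul_neg, neg_mul]
  abel

lemma om_sq_p {p x y w : A} (h : Cliff p x y w) :
    (om p x y w * om p x y w) * p = om p x y w * om p x y w := by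
  simp only [om, mul_add, add_mul, mul_sub, sub_mul, mul_assoc, h.yx, h.wx, h.wy, h.yx', h.wx', h.wy',
    h.xx, h.yy, h.ww, h.xx', h.yy', h.ww', h.pp, h.pp', h.px, h.px', h.xp, h.xp', h.py, h.py', h.yp,
    h.yp', h.pw, h.pw', h.wp, h.wp', mul_zero, zero_mul, sub_zero, zero_sub, add_zero, zero_add,
    mul_neg, neg_mul]

lemma om_p_sq {p x y w : A} (h : Cliff p x y w) :
    p * (om p x y w * om p x y w) = om p x y w * om p x y w := by
  simp only [om, mul_add, add_mul, mul_sub, sub_mul, mul_assoc, h.yx, h.wx, h.wy, h.yx', h.wx', h.wy',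
    h.xx, h.yy, h.ww, h.xx', h.yy', h.ww', h.pp, h.pp', h.px, h.px', h.xp, h.xp', h.py, h.py', h.yp,
    h.yp', h.pw, h.pw', h.wp, h.wp', mul_zero, zero_mul, sub_zero, zero_sub, add_zero, zero_add,
    mul_neg, neg_mul]

lemma om_four {p x y w : A} (h : Cliff p x y w) :
    (om p x y w * om p x y w) * (om p x y w * om p x y w) = 4 • (om p x y w * om p x y w) := by
  simp only [om, mul_add, add_mul, mul_sub, sub_mul, mul_assoc, h.yx, h.wx, h.wy, h.yx', h.wx', h.wy',
    h.xx, h.yy, h.ww, h.xx', h.yy', h.ww', h.pp, h.pp', h.px, h.px', h.xp, h.xp', h.py, h.py', h.yp,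
    h.yp', h.pw, h.pw', h.wp, h.wp', mul_zero, zero_mul, sub_zero, zero_sub, add_zero, zero_add,
    mul_neg, neg_mul]
  abel

lemma om_eq {p x y w : A} (h : Cliff p x y w) :
    2 • om p x y w = - ((x + x - p) * (om p x y w * om p x y w)) := by
  simp only [om, mul_add, add_mul, mul_sub, sub_mul, mul_assoc, h.yx, h.wx, h.wy, h.yx', h.wx', h.wy',
    h.xx, h.yy, h.ww, h.xx', h.yy', h.ww', h.pp, h.pp', h.px, h.px', h.xp, h.xp', h.py, h.py', h.yp,
    h.yp', h.pw, h.pw', h.wp, h.wp', mul_zero, zero_mul, sub_zero, zero_sub, add_zero, zero_add,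
    mul_neg, neg_mul]
  abel

/-- multiplication table of a homomorphic image of `M₂` -/
structure Hom (p x y w : A) : Prop extends Cliff p x y w where
  txy : x * y = y
  txw : x * w = 0
  tyw : y * w = x

lemma hom_of_om {p x y w : A} (h : Cliff p x y w) (h2 : ∀ x y : A, x + x = y + y → x = y)
    (h0 : om p x y w = 0) : Hom p x y w := by
  have e1 : y * w = x := by
    apply h2
    have e : y * w - w * y = x + x - p := by rw [om, sub_eq_zero] at h0; exact h0
    rw [h.wy] at e
    have : y * w + y * w - p = x + x - p := by rw [← e]; abel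
    exact sub_left_injective this
  have e2 : x * y = y := by
    rw [← e1, mul_assoc, h.wy, mul_sub, h.yy', h.yp, sub_zero]
  have e3 : w * x = w := by
    rw [← e1, h.wy', h.ww, h.pw, mul_zero, sub_zero]
  have e4 : x * w = 0 := by
    have := h.xw
    rw [e3] at this
    simpa using this
  exact { h with txy := e2, txw := e4, tyw := e1 }

/-- multiplication table of an antihomomorphic image of `M₂` -/
structure Anti (p x y w : A) : Prop extends Cliff p x y w where
  txy : x * y = 0
  txw : x * w = w
  tyw : y * w = p - x

lemma anti_of_om {p x y w : A} (h : Cliff p x y w) (h2 : ∀ x y : A, x + x = y + y → x = y)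
    (h0 : om p x y w = - ((x + x - p) + (x + x - p))) : Anti p x y w := by
  have e1 : w * y = x := by
    apply h2
    have e : y * w - w * y = - (x + x - p) := by
      have : y * w - w * y = om p x y w + (x + x - p) := by rw [om]; abel
      rw [this, h0]; abel
    have e' : y * w = p - w * y := by rw [h.wy]; abel
    rw [e'] at e
    have e3 : p - (w * y + w * y) = p - (x + x) := by
      calc p - (w * y + w * y) = p - w * y - w * y := by abel
        _ = - (x + x - p) := e
        _ = p - (x + x) := by abel
    exact sub_right_injective e3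
  have e2 : x * w = w := by
    have e' : y * w = p - w * y := by rw [h.wy]; abel
    rw [← e1, mul_assoc, e', mul_sub, h.ww', h.wp, sub_zero]
  have e3 : y * x = y := by
    have e' : y * w = p - w * y := by rw [h.wy]; abel
    rw [← e1, ← mul_assoc, e', sub_mul, h.py, mul_assoc, h.yy, mul_zero, sub_zero]
  have e4 : x * y = 0 := by
    have := h.xy
    rw [e3] at this
    simpa using this
  have e5 : y * w = p - x := by rw [← e1, h.wy]; abel
  exact { h with txy := e4, txw := e2, tyw := e5 }

section alg

variable {F : Type u} [Field F] [Algebra F A]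

/-- the linear map -/
def val (p x y w : A) (b : Mat2 F) : A :=
  b 0 0 • x + b 0 1 • y + b 1 0 • w + b 1 1 • (p - x)

lemma Hom.mul_val {p x y w : A} (h : Hom p x y w) (a b : Mat2 F) :
    val p x y w a * val p x y w b = val p x y w (a * b) := by
  have hc := h.toCliff
  simp only [val, Matrix.mul_apply, Fin.sum_univ_two, mul_add, add_mul, smul_mul_smul_comm,
    mul_sub, sub_mul, hc.yx, hc.wx, hc.wy, h.txy, h.txw, h.tyw, hc.xx, hc.yy, hc.ww, hc.pp, hc.px,
    hc.xp, hc.py, hc.yp, hc.pw, hc.wp]
  module

lemma Anti.mul_val {p x y w : A} (h : Anti p x y w) (a b : Mat2 F) :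
    val p x y w b * val p x y w a = val p x y w (a * b) := by
  have hc := h.toCliff
  simp only [val, Matrix.mul_apply, Fin.sum_univ_two, mul_add, add_mul, smul_mul_smul_comm,
    mul_sub, sub_mul, hc.yx, hc.wx, hc.wy, h.txy, h.txw, h.tyw, hc.xx, hc.yy, hc.ww, hc.pp, hc.px,
    hc.xp, hc.py, hc.yp, hc.pw, hc.wp]
  module

end alg

end RedAux

namespace Bimodule

variable {F : Type u} [Field F] (M : Bimodule.{u, v} F)

lemma red_rr {M : Bimodule.{u, v} F} (h : M.IsRightAlternative) (b : Mat2 F) :
    M.right b * M.right b = M.right (b * b) := by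
  ext m
  have := h (0, m) (b, 0)
  simp only [nullMul, zero_mul, map_zero, zero_add, Prod.mk.injEq] at this
  simpa using this.2

lemma red_lt {M : Bimodule.{u, v} F} (h : M.IsRightAlternative) (a b : Mat2 F) :
    M.left a * M.T b = M.left (a * b) + M.right b * M.left a := by
  ext m
  have := h (a, 0) (b, m)
  simp only [nullMul, map_zero, add_zero, Prod.mk.injEq] at this
  have h2 := this.2
  simp only [T, Module.End.mul_apply, LinearMap.add_apply]
  rw [← h2]

variable {M}

lemma red_sym (hr : ∀ b, M.right b * M.right b = M.right (b * b)) (a b : Mat2 F) :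
    M.right a * M.right b + M.right b * M.right a = M.right (a * b + b * a) := by
  have h := hr (a + b)
  simp only [map_add, add_mul, mul_add, hr] at h ⊢
  linear_combination (norm := noncomm_ring) h

/-- the defect of `R` -/
def W (M : Bimodule.{u, v} F) (a b : Mat2 F) : Module.End F M.carrier :=
  M.right a * M.right b - M.right b * M.right a - M.right (a * b - b * a)

lemma red_tt (hl : ∀ a b, M.left a * M.T b = M.left (a * b) + M.right b * M.left a)
    (a b : Mat2 F) :
    M.T a * M.T b = M.T (a * b) - M.right (a * b) + M.right b * M.T a - M.right b * M.right a +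
      M.right a * M.T b := by
  have h := hl a b
  have e : M.T a * M.T b = M.left a * M.T b + M.right a * M.T b := by
    simp only [T, LinearMap.add_apply, add_mul]
  rw [e, h]
  simp only [T, LinearMap.add_apply, mul_add]
  abel

lemma red_om (hl : ∀ a b, M.left a * M.T b = M.left (a * b) + M.right b * M.left a)
    (a b : Mat2 F) : M.T a * M.T b - M.T b * M.T a - M.T (a * b - b * a) = M.W a b := by
  rw [red_tt hl a b, red_tt hl b a, W]
  simp only [map_sub]
  abel

lemma red_lom (hl : ∀ a b, M.left a * M.T b = M.left (a * b) + M.right b * M.left a)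
    (c a b : Mat2 F) : M.left c * M.W a b = M.W a b * M.left c := by
  have h1 := hl (c * a) b
  have h2 := hl c (a * b)
  have h3 := hl (c * b) a
  have h4 := hl c (b * a)
  have h5 := hl c a
  have h6 := hl c b
  rw [← red_om hl a b, red_om hl a b]
  have e1 : M.left c * M.W a b = M.left c * (M.T a * M.T b - M.T b * M.T a - M.T (a * b - b * a)) := by
    rw [red_om hl a b]
  rw [e1, W]
  simp only [map_sub, mul_sub, sub_mul]
  rw [h2, h4, ← mul_assoc, ← mul_assoc, h5, h6, add_mul, add_mul, h1, h3]
  rw [mul_assoc (M.right a), mul_assoc (M.right b), h5, h6, mul_add, mul_add, mul_assoc c a b,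
    mul_assoc c b a]
  noncomm_ring

/-- a range of an operator commuting with all actions is a sub-bimodule -/
lemma red_range (g : Module.End F M.carrier) (h1 : ∀ a, M.left a * g = g * M.left a)
    (h2 : ∀ a, M.right a * g = g * M.right a) : M.IsSubBimodule (LinearMap.range g) := by
  rintro a _ ⟨n, rfl⟩
  refine ⟨⟨M.left a n, ?_⟩, ⟨M.right a n, ?_⟩⟩
  · exact (congrArg (fun t : Module.End F M.carrier => t n) (h1 a)).symm
  · exact (congrArg (fun t : Module.End F M.carrier => t n) (h2 a)).symm

lemma mat_decomp (b : Mat2 F) :
    b = b 0 0 • mh F + b 0 1 • me F + b 1 0 • mf F + b 1 1 • (1 - mh F) := by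
  ext i j
  fin_cases i <;> fin_cases j <;> simp [mh, me, mf]

lemma right_val (b : Mat2 F) :
    M.right b = RedAux.val (M.right 1) (M.right (mh F)) (M.right (me F)) (M.right (mf F)) b := by
  conv_lhs => rw [mat_decomp b]
  simp only [map_add, map_smul, map_sub, RedAux.val]

lemma half {V : Type*} [AddCommGroup V] [Module F V] (h2 : (2 : F) ≠ 0) (x y : V)
    (h : x + x = y + y) : x = y := by
  have : (2 : F) • x = (2 : F) • y := by rw [two_smul, two_smul, h]
  exact smul_right_injective V h2 this

lemma cliff (h2 : (2 : F) ≠ 0) (hr : ∀ b, M.right b * M.right b = M.right (b * b)) :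
    RedAux.Cliff (M.right 1) (M.right (mh F)) (M.right (me F)) (M.right (mf F)) := by
  have hs := red_sym hr
  have hpp : M.right 1 * M.right 1 = M.right 1 := by rw [hr, mul_one]
  have key : ∀ b, M.right 1 * M.right b = M.right b ∧ M.right b * M.right 1 = M.right b := by
    intro b
    have h1 := hs 1 b
    rw [one_mul, mul_one, map_add] at h1
    have h3 : M.right 1 * M.right b * M.right 1 = M.right 1 * M.right b := by
      have := congrArg (fun t => M.right 1 * t) h1
      simp only [mul_add] at this
      rw [← mul_assoc, hpp, ← mul_assoc] at this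
      exact add_left_cancel this
    have h4 : M.right 1 * M.right b * M.right 1 = M.right b * M.right 1 := by
      have := congrArg (fun t => t * M.right 1) h1
      simp only [add_mul] at this
      rw [mul_assoc (M.right b), hpp] at this
      exact add_right_cancel this
    have h5 : M.right 1 * M.right b = M.right b * M.right 1 := by rw [← h3, h4]
    rw [h5] at h1
    have h6 := half h2 _ _ h1
    exact ⟨h5.trans h6, h6⟩
  exact
    { pp := hpp
      px := (key _).1
      xp := (key _).2
      py := (key _).1
      yp := (key _).2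
      pw := (key _).1
      wp := (key _).2
      xx := by rw [hr]; congr 1; ext i j; fin_cases i <;> fin_cases j <;> simp [mh]
      yy := by
        rw [hr]
        have : me F * me F = 0 := by ext i j; fin_cases i <;> fin_cases j <;> simp [me]
        rw [this, map_zero]
      ww := by
        rw [hr]
        have : mf F * mf F = 0 := by ext i j; fin_cases i <;> fin_cases j <;> simp [mf]
        rw [this, map_zero]
      xy := by
        rw [hs]; congr 1; ext i j; fin_cases i <;> fin_cases j <;> simp [mh, me]
      xw := by
        rw [hs]; congr 1; ext i j; fin_cases i <;> fin_cases j <;> simp [mh, mf]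
      yw := by
        rw [hs]; congr 1; ext i j; fin_cases i <;> fin_cases j <;> simp [me, mf] }

lemma W_ef : M.W (me F) (mf F) =
    RedAux.om (M.right 1) (M.right (mh F)) (M.right (me F)) (M.right (mf F)) := by
  have : me F * mf F - mf F * me F = mh F + mh F - 1 := by
    ext i j; fin_cases i <;> fin_cases j <;> simp [mh, me, mf]
  rw [W, this, RedAux.om]
  simp only [map_add, map_sub]

lemma W_he : M.W (mh F) (me F) =
    M.right (mh F) * M.right (me F) - M.right (me F) * M.right (mh F) - M.right (me F) := by
  have : mh F * me F - me F * mh F = me F := by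
    ext i j; fin_cases i <;> fin_cases j <;> simp [mh, me]
  rw [W, this]

lemma W_hf : M.W (mh F) (mf F) =
    M.right (mh F) * M.right (mf F) - M.right (mf F) * M.right (mh F) + M.right (mf F) := by
  have : mh F * mf F - mf F * mh F = - mf F := by
    ext i j; fin_cases i <;> fin_cases j <;> simp [mh, mf]
  rw [W, this, map_neg, sub_neg_eq_add]

/-- the antihomomorphism case -/
lemma red_anti (h2 : (2 : F) ≠ 0)
    (hl : ∀ a b, M.left a * M.T b = M.left (a * b) + M.right b * M.left a)
    (h : RedAux.Anti (M.right 1) (M.right (mh F)) (M.right (me F)) (M.right (mf F)))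
    (h1 : M.right 1 = 1) : M.IsAssoc := by
  have rr : ∀ a b, M.right b * M.right a = M.right (a * b) := by
    intro a b
    rw [right_val a, right_val b, right_val (a * b)]
    exact h.mul_val a b
  have hh : ∀ a, M.left a * M.right (mh F) = M.right (mh F) * M.left a := by
    intro a
    have e := red_lom hl a (me F) (mf F)
    rw [W_ef, RedAux.om, h.tyw, h.toCliff.wy, h.tyw, h1] at e
    have e2 : (1 - M.right (mh F) - (1 - (1 - M.right (mh F))) -
        (M.right (mh F) + M.right (mh F) - 1)) =
        (2 : F) • (1 : Module.End F M.carrier) - (4 : F) • M.right (mh F) := by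
      have : (4 : F) = 2 + 2 := by norm_num
      rw [this, add_smul, two_smul, two_smul]
      abel
    rw [e2] at e
    simp only [mul_sub, sub_mul, mul_smul_comm, smul_mul_assoc, mul_one, one_mul] at e
    have e3 := sub_right_injective e
    have h4 : (4 : F) ≠ 0 := by
      have : (4 : F) = 2 * 2 := by norm_num
      rw [this]; exact mul_ne_zero h2 h2
    exact smul_right_injective _ h4 e3
  have he : ∀ a, M.left a * M.right (me F) = M.right (me F) * M.left a := by
    intro a
    have e := red_lom hl a (mh F) (me F)
    rw [W_he, h.toCliff.yx, h.txy] at e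
    have e2 : (0 - (M.right (me F) - 0) - M.right (me F)) =
        - ((2 : F) • M.right (me F)) := by
      rw [two_smul]; abel
    rw [e2] at e
    simp only [mul_neg, neg_mul, mul_smul_comm, smul_mul_assoc, neg_inj] at e
    exact smul_right_injective _ h2 e
  have hf : ∀ a, M.left a * M.right (mf F) = M.right (mf F) * M.left a := by
    intro a
    have e := red_lom hl a (mh F) (mf F)
    rw [W_hf, h.toCliff.wx, h.txw] at e
    have e2 : (M.right (mf F) - (M.right (mf F) - M.right (mf F)) + M.right (mf F)) =
        (2 : F) • M.right (mf F) := by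
      rw [two_smul]; abel
    rw [e2] at e
    simp only [mul_smul_comm, smul_mul_assoc] at e
    exact smul_right_injective _ h2 e
  have lr : ∀ a b, M.left a * M.right b = M.right b * M.left a := by
    intro a b
    rw [right_val b, RedAux.val, h1]
    simp only [mul_add, add_mul, mul_sub, sub_mul, mul_smul_comm, smul_mul_assoc, hh, he, hf,
      mul_one, one_mul]
  refine ⟨fun a b => ?_, rr, lr⟩
  have e := hl a b
  simp only [T, LinearMap.add_apply, mul_add, lr] at e
  exact add_right_cancel e

end Bimodule

open Bimodule in
theorem s_red : S_red.{u, v} := by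
  intro F _ M h2 hra hirr
  have hr := red_rr hra
  have hl := red_lt hra
  have hc := cliff h2 hr
  have hT1 : M.T 1 = M.left 1 + M.right 1 := rfl
  have h11 : M.left 1 * (M.left 1 + M.right 1) = M.left 1 + M.right 1 * M.left 1 := by
    have := hl 1 1
    rw [mul_one, hT1] at this
    exact this
  have hqpq := RedAux.qpq (half h2) hc.pp h11
  have hn : M.left 1 * M.left 1 - M.left 1 = M.right 1 * M.left 1 - M.left 1 * M.right 1 := by
    linear_combination (norm := noncomm_ring) h11
  have hpb : ∀ b, M.right b * M.right 1 = M.right b := by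
    intro b
    rw [right_val b, RedAux.val]
    simp only [add_mul, sub_mul, smul_mul_assoc, hc.xp, hc.yp, hc.wp, hc.pp]
  by_cases hZ : (1 - M.right 1) * (1 - M.left 1) = 0
  · -- main case
    have hE : M.E = M.right 1 * M.left 1 := by
      have e : (1 - M.right 1) * (1 - M.left 1) = M.right 1 * M.left 1 - M.E := by
        rw [Bimodule.E, hT1]; noncomm_ring
      rw [e, sub_eq_zero] at hZ
      exact hZ.symm
    by_cases hP : M.P = 0
    · left
      have h0 : ∀ b, M.right b = 0 := by
        intro b
        rw [← hpb b]
        have : M.right 1 = 0 := hP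
        rw [this, mul_zero]
      refine ⟨fun a b => ?_, fun a b => by simp only [h0, mul_zero], fun a b => by
        simp only [h0, mul_zero, zero_mul]⟩
      have e := hl a b
      simpa only [T, LinearMap.add_apply, h0, add_zero, zero_mul] using e
    · -- the operator ε
      let w := RedAux.om (M.right 1) (M.right (mh F)) (M.right (me F)) (M.right (mf F))
      have hw : w = M.W (me F) (mf F) := W_ef.symm
      have hwl : ∀ a, M.left a * w = w * M.left a := fun a => by
        rw [hw]; exact red_lom hl a _ _
      have hg1 : ∀ a, M.left a * (w * w) = (w * w) * M.left a := fun a => by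
        rw [← mul_assoc, hwl, mul_assoc, hwl, mul_assoc]
      have hg2 : ∀ b, M.right b * (w * w) = (w * w) * M.right b := by
        intro b
        rw [right_val b, RedAux.val]
        simp only [mul_add, add_mul, mul_sub, sub_mul, mul_smul_comm, smul_mul_assoc]
        have ex : M.right (mh F) * (w * w) = (w * w) * M.right (mh F) := (RedAux.om_sq_x hc).symm
        have ey : M.right (me F) * (w * w) = (w * w) * M.right (me F) := (RedAux.om_sq_y hc).symm
        have ew : M.right (mf F) * (w * w) = (w * w) * M.right (mf F) := (RedAux.om_sq_w hc).symm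
        have ep : M.right 1 * (w * w) = (w * w) * M.right 1 := by
          have e1 : M.right 1 * (w * w) = w * w := RedAux.om_p_sq hc
          have e2 : (w * w) * M.right 1 = w * w := RedAux.om_sq_p hc
          rw [e1, e2]
        rw [ex, ey, ew, ep]
      have h4 : (4 : F) ≠ 0 := by
        have : (4 : F) = 2 * 2 := by norm_num
        rw [this]; exact mul_ne_zero h2 h2
      have hww : (w * w) * (w * w) = (4 : F) • (w * w) := by
        have e : (w * w) * (w * w) = 4 • (w * w) := RedAux.om_four hc
        rw [e, ← Nat.cast_smul_eq_nsmul F]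
        norm_num
      have hom2 : (2 : F) • w = - ((M.right (mh F) + M.right (mh F) - M.right 1) * (w * w)) := by
        have e : 2 • w = - ((M.right (mh F) + M.right (mh F) - M.right 1) * (w * w)) :=
          RedAux.om_eq hc
        rw [← e, two_smul, two_nsmul]
      rcases hirr.2 _ (red_range (w * w) hg1 hg2) with hbot | htop
      · -- ω² = 0
        right
        have h0 : w * w = 0 := LinearMap.range_eq_bot.1 hbot
        rw [h0, mul_zero, neg_zero] at hom2
        have hw0 : w = 0 := (smul_eq_zero.1 hom2).resolve_left h2
        have hhom := RedAux.hom_of_om hc (half h2) hw0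
        refine ⟨fun a b => ?_, hl, hP, ?_, ?_, ?_, ?_⟩
        · rw [right_val a, right_val b, right_val (a * b)]
          exact hhom.mul_val a b
        · rw [hE]
          have e : M.right 1 * M.left 1 * (M.right 1 * M.left 1) =
              M.right 1 * (M.left 1 * M.right 1 * M.left 1) := by noncomm_ring
          rw [e, hqpq, ← mul_assoc, hc.pp]
        · rw [hE, Bimodule.P, ← mul_assoc, hc.pp]
        · intro a
          have e := hl a 1
          rw [mul_one, hT1] at e
          rw [Bimodule.E, hT1, Bimodule.P, mul_sub, mul_one, e]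
          abel
        · intro b
          have hq := hl 1 b
          rw [one_mul] at hq
          have hL : M.right 1 * M.left b = M.left b * (M.left 1 + M.right 1) - M.left b := by
            have e := hl b 1
            rw [mul_one, hT1] at e
            rw [e]; abel
          have hPb : M.right 1 * M.right b = M.right b := by
            rw [right_val b, RedAux.val]
            simp only [mul_add, mul_sub, mul_smul_comm, hc.px, hc.py, hc.pw, hc.pp]
          have hTb : M.T b = M.left b + M.right b := rfl
          rw [Bimodule.E, hT1, sub_mul, add_mul, hq, one_mul, hTb, mul_add, hL, hPb, mul_sub,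
            add_mul, mul_one, mul_add (M.right b), hpb]
          abel
      · -- ω² is bijective
        left
        have hinv : w * w = (4 : F) • 1 := by
          ext m
          have hm : m ∈ LinearMap.range (w * w) := by rw [htop]; trivial
          obtain ⟨n, rfl⟩ := hm
          exact congrArg (fun t : Module.End F M.carrier => t n) hww
        have hp1 : M.right 1 = 1 := by
          have e : M.right 1 * (w * w) = w * w := RedAux.om_p_sq hc
          rw [hinv, mul_smul_comm, mul_one] at e
          exact smul_right_injective _ h4 e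
        have hwv : w = - ((M.right (mh F) + M.right (mh F) - M.right 1) +
            (M.right (mh F) + M.right (mh F) - M.right 1)) := by
          rw [hinv, mul_smul_comm, mul_one] at hom2
          have e : (2 : F) • w = (2 : F) • (- ((M.right (mh F) + M.right (mh F) - M.right 1) +
            (M.right (mh F) + M.right (mh F) - M.right 1))) := by
            rw [hom2, ← two_smul F (M.right (mh F) + M.right (mh F) - M.right 1), smul_neg,
              smul_smul]
            norm_num
          exact smul_right_injective _ h2 e
        exact red_anti h2 hl (RedAux.anti_of_om hc (half h2) hwv) hp1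
  · -- zero actions
    left
    let Z : Module.End F M.carrier := (1 - M.right 1) * (1 - M.left 1)
    have hPZ : M.right 1 * Z = 0 := by
      have e : M.right 1 * Z = (M.right 1 - M.right 1 * M.right 1) * (1 - M.left 1) := by
        simp only [Z]; noncomm_ring
      rw [e, hc.pp, sub_self, zero_mul]
    have hQZ : M.left 1 * Z = 0 := by
      have e : M.left 1 * Z = M.left 1 - M.left 1 * M.left 1 - M.left 1 * M.right 1 +
          M.left 1 * M.right 1 * M.left 1 := by
        simp only [Z]; noncomm_ring
      rw [e, hqpq]
      linear_combination (norm := noncomm_ring) - hn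
    have hRZ : ∀ a, M.right a * Z = 0 := by
      intro a
      rw [← hpb a, mul_assoc, hPZ, mul_zero]
    have hLZ : ∀ a, M.left a * Z = 0 := by
      intro a
      have e := hl a 1
      rw [mul_one, hT1] at e
      have e2 := congrArg (fun t => t * Z) e
      simp only [add_mul, mul_assoc, hQZ, hPZ, add_zero, mul_zero] at e2
      -- 0 = L Z + P L Z
      have e3 := congrArg (fun t => M.right 1 * t) e2
      simp only [mul_zero, mul_add] at e3
      rw [← mul_assoc (M.right 1) (M.right 1), hc.pp] at e3
      have e4 : M.right 1 * (M.left a * Z) = 0 := by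
        apply half h2
        rw [← e3, add_zero]
      rw [e4, add_zero] at e2
      exact e2.symm
    have hRZ' : ∀ a n, M.right a (Z n) = 0 := fun a n =>
      congrArg (fun t : Module.End F M.carrier => t n) (hRZ a)
    have hLZ' : ∀ a n, M.left a (Z n) = 0 := fun a n =>
      congrArg (fun t : Module.End F M.carrier => t n) (hLZ a)
    have hsub : M.IsSubBimodule (LinearMap.range Z) := by
      rintro a _ ⟨n, rfl⟩
      rw [hRZ', hLZ']
      exact ⟨Submodule.zero_mem _, Submodule.zero_mem _⟩
    rcases hirr.2 _ hsub with hbot | htop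
    · exact absurd (LinearMap.range_eq_bot.1 hbot) hZ
    · have hR0 : ∀ a, M.right a = 0 := by
        intro a
        ext m
        have hm : m ∈ LinearMap.range Z := by rw [htop]; trivial
        obtain ⟨n, rfl⟩ := hm
        rw [hRZ', LinearMap.zero_apply]
      have hL0 : ∀ a, M.left a = 0 := by
        intro a
        ext m
        have hm : m ∈ LinearMap.range Z := by rw [htop]; trivial
        obtain ⟨n, rfl⟩ := hm
        rw [hLZ', LinearMap.zero_apply]
      exact ⟨fun a b => by simp only [hL0, mul_zero], fun a b => by simp only [hR0, mul_zero],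
        fun a b => by simp only [hL0, hR0, mul_zero]⟩

end Pool.Agent.H6.RA
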