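import Pool.Agent.H6.RA.Theta
import Pool.Agent.H6.RA.Hom

/-!
`S_six`: recognition of the exceptional bimodule of dimension six.
-/

namespace Pool.Agent.H6.RA

universe u v w

namespace Bimodule

variable {F : Type u} [Field F] {M : Bimodule.{u, v} F}

lemma mg_me (F : Type u) [Field F] : mg F * me F = 0 := by
  ext i j; fin_cases i <;> fin_cases j <;> simp [me, mg, Matrix.mul_apply, Fin.sum_univ_two]

lemma mh_mg (F : Type u) [Field F] : mh F * mg F = 0 := by
  ext i j; fin_cases i <;> fin_cases j <;> simp [mh, mg, Matrix.mul_apply, Fin.sum_univ_two]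

/-- Step 1: `E P = P`. -/
lemma Good.ep (h : M.Good) (hk : M.ker' = ⊤) (m : M.carrier) : M.E (M.P m) = M.P m := by
  have key : M.ker' ≤ LinearMap.ker (M.E ∘ₗ M.P - M.P) := by
    refine sup_le (sup_le (sup_le ?_ ?_) ?_) ?_
    · intro m hm
      rw [LinearMap.mem_ker] at hm ⊢
      change M.E (M.P m) - M.P m = 0
      rw [hm, map_zero, sub_zero]
    · rintro _ ⟨v, rfl⟩
      change M.E (M.P (M.T (me F) (M.E v))) - M.P (M.T (me F) (M.E v)) = 0
      have := h.et (h.eev v) (me F)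
      rw [h.pv this, this, sub_self]
    · rintro _ ⟨v, rfl⟩
      change M.E (M.P (M.T (mf F) (M.E v))) - M.P (M.T (mf F) (M.E v)) = 0
      have := h.et (h.eev v) (mf F)
      rw [h.pv this, this, sub_self]
    · rintro _ ⟨v, rfl⟩
      change M.E (M.P (M.X (M.E v))) - M.P (M.X (M.E v)) = 0
      have := h.ex (h.eev v)
      rw [h.pv this, this, sub_self]
  have := key (by rw [hk]; trivial : m ∈ M.ker')
  rw [LinearMap.mem_ker] at this
  exact sub_eq_zero.1 this

/-- Step 1: `P = 1`. -/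
lemma Good.p1 (h : M.Good) (hk : M.ker' = ⊤) (hirr : M.IsIrreducible) (m : M.carrier) :
    M.P m = m := by
  have hsub : M.IsSubBimodule (LinearMap.ker (M.P - 1)) := by
    intro a m hm
    rw [LinearMap.mem_ker] at hm
    have hm' : M.P m = m := sub_eq_zero.1 hm
    rw [LinearMap.mem_ker, LinearMap.mem_ker]
    have hE : M.E m = m := by rw [← hm', h.ep hk]
    refine ⟨sub_eq_zero.2 ?_, sub_eq_zero.2 (h.pR a m)⟩
    change M.P (M.left a m) = M.left a m
    rw [h.plv, hE]
  rcases hirr.2 _ hsub with h1 | h1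
  · exfalso
    apply h.pne
    ext v
    have : M.P v ∈ LinearMap.ker (M.P - 1) := by
      rw [LinearMap.mem_ker]
      exact sub_eq_zero.2 (h.pp v)
    rw [h1, Submodule.mem_bot] at this
    rw [this]; rfl
  · have : m ∈ LinearMap.ker (M.P - 1) := by rw [h1]; trivial
    exact sub_eq_zero.1 (LinearMap.mem_ker.1 this)

section weights

set_option linter.unusedSectionVars false

variable (h : M.Good) (h2 : (2 : F) ≠ 0) (hE : ∀ m, M.E m = m)

include h hE

lemma Good.hg1 (v : M.carrier) : M.right (mh F) v + M.right (mg F) v = v := by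
  rw [h.hg, h.pv (hE v)]

lemma Good.xte (v : M.carrier) : M.X (M.T (me F) v) = M.T (me F) (M.T (mh F) v) := by
  rw [h.xe, h.teh]

lemma Good.thtf (v : M.carrier) : M.T (mh F) (M.T (mf F) v) = M.T (mf F) (M.X v) := by
  have := h.tt (mf F) (mh F) v
  rw [mh_mf, mf_mh, map_zero] at this
  rw [h.thf, X_apply, map_sub, map_sub, this]
  simp only [LinearMap.zero_apply]
  abel

lemma Good.comm (v : M.carrier) :
    M.T (me F) (M.T (mf F) v) - M.T (mf F) (M.T (me F) v) = (2 : F) • M.X v := by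
  have h1 := h.tt (me F) (mf F) v
  have h2 := h.tt (mf F) (me F) v
  have h3 : M.T (mg F) v = v - M.X v := by
    have := Texp (hE v) (mg F)
    simpa [mg] using this
  rw [me_mf, mf_me] at h1 h2
  rw [h1, h2, h3, X_apply]
  module

include h2

lemma Good.r2 {v : M.carrier} (hv : M.X v = v) : M.right (mh F) v = v := by
  have h1 := h.thx v
  have h3 : M.T (mh F) v = (2 : F) • v := by
    rw [X_apply] at hv
    rw [eq_add_of_sub_eq hv]; module
  rw [hv, h3] at h1
  exact (smul_right_injective _ h2 h1).symm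

lemma Good.r0 {v : M.carrier} (hv : M.X v = - v) : M.right (mh F) v = 0 := by
  have h1 := h.thx v
  have h3 : M.T (mh F) v = 0 := by
    rw [X_apply] at hv
    rw [eq_add_of_sub_eq hv]; abel
  rw [hv, map_neg, h3, neg_zero, map_neg] at h1
  have := (smul_eq_zero.1 h1.symm).resolve_left h2
  exact neg_eq_zero.1 this

omit h h2 hE in
lemma th2 {v : M.carrier} (hv : M.X v = v) : M.T (mh F) v = (2 : F) • v := by
  rw [X_apply] at hv
  rw [eq_add_of_sub_eq hv]; module

omit h h2 hE in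
lemma th1 {v : M.carrier} (hv : M.X v = 0) : M.T (mh F) v = v := by
  rw [X_apply] at hv
  exact sub_eq_zero.1 hv

omit h h2 hE in
lemma th0 {v : M.carrier} (hv : M.X v = - v) : M.T (mh F) v = 0 := by
  rw [X_apply] at hv
  rw [eq_add_of_sub_eq hv]; abel

/-- `X³ = X` -/
lemma Good.x3 (v : M.carrier) : M.X (M.X (M.X v)) = M.X v := by
  have a1 := h.thx v
  have a2 : M.right (mh F) (M.X (M.X v)) = M.right (mh F) (M.X v) := by
    have h3 := congrArg (M.right (mh F)) a1
    rw [map_smul, h.rrv, mh_mh] at h3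
    have h4 : M.T (mh F) (M.X v) = M.X (M.X v) + M.X v := by rw [X_apply (M.X v)]; abel
    rw [h4, map_add] at h3
    have h5 : M.right (mh F) (M.X (M.X v)) = (2 : F) • M.right (mh F) (M.X v) -
      M.right (mh F) (M.X v) := eq_sub_of_add_eq h3
    rw [h5]; module
  have a3 := h.thx (M.X v)
  rw [a2, ← a1] at a3
  rw [X_apply (M.X (M.X v)), a3, X_apply (M.X v)]
  abel

lemma Good.e2 {v : M.carrier} (hv : M.X v = v) : M.T (me F) v = 0 := by
  have b1 : M.X (M.T (me F) v) = (2 : F) • M.T (me F) v := by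
    rw [h.xte hE, th2 hv, map_smul]
  have b2 := h.teh v
  rw [th2 hv, hv, map_smul] at b2
  have b3 := congrArg (M.right (mh F)) b2
  rw [map_smul, map_add, h.rrv, h.rrv, mh_me, mh_mh] at b3
  have b4 : M.right (mh F) (M.T (me F) v) = M.right (me F) v := by
    have : (2 : F) • M.right (mh F) (M.T (me F) v) - M.right (mh F) (M.T (me F) v) =
      M.right (me F) v := by rw [b3]; abel
    rw [← this]; module
  rw [b4] at b2
  have b5 : M.T (me F) v = M.right (me F) v := by
    apply smul_right_injective _ h2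
    change (2 : F) • _ = (2 : F) • _
    rw [b2]; module
  have b6 := h.thx (M.T (me F) v)
  rw [b1, map_smul, map_smul, b4, ← b5] at b6
  have b7 : M.T (mh F) (M.T (me F) v) = (3 : F) • M.T (me F) v := by
    have : M.T (mh F) (M.T (me F) v) = M.X (M.T (me F) v) + M.T (me F) v := by
      rw [X_apply]; abel
    rw [this, b1]; module
  rw [b7] at b6
  have b8 : (2 : F) • M.T (me F) v = 0 := by
    have : (2 : F) • M.T (me F) v = (2 : F) • (3 : F) • M.T (me F) v -
      (2 : F) • (2 : F) • M.T (me F) v := by module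
    rw [this, b6, sub_self]
  exact (smul_eq_zero.1 b8).resolve_left h2

lemma Good.f0 {v : M.carrier} (hv : M.X v = - v) : M.T (mf F) v = 0 := by
  have b1 : M.T (mh F) (M.T (mf F) v) = - M.T (mf F) v := by
    rw [h.thtf hE, hv, map_neg]
  have b2 := h.thf v
  rw [b1, hv, map_neg] at b2
  have b3 := congrArg (M.right (mh F)) b2
  rw [map_neg, map_add, map_neg, h.rrv, h.rrv, mh_mf, mh_mh, map_zero, LinearMap.zero_apply,
    neg_zero, add_zero] at b3
  have b4 : M.right (mh F) (M.T (mf F) v) = 0 := by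
    have : (2 : F) • M.right (mh F) (M.T (mf F) v) = 0 := by
      have : (2 : F) • M.right (mh F) (M.T (mf F) v) =
        M.right (mh F) (M.T (mf F) v) - (- M.right (mh F) (M.T (mf F) v)) := by module
      rw [this, b3, sub_self]
    exact (smul_eq_zero.1 this).resolve_left h2
  have b5 := h.thx (M.T (mf F) v)
  have b6 : M.X (M.T (mf F) v) = - ((2 : F) • M.T (mf F) v) := by
    rw [X_apply, b1]; module
  rw [b6, map_neg, map_smul, map_neg, map_smul, b4, b1, smul_zero, neg_zero, smul_zero] at b5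
  have b7 : (2 : F) • M.T (mf F) v = 0 := by
    rw [← b5]; module
  exact (smul_eq_zero.1 b7).resolve_left h2

lemma Good.te0 {v : M.carrier} (hv : M.X v = - v) :
    M.X (M.T (me F) v) = 0 ∧ M.right (mh F) (M.T (me F) v) = M.right (me F) v ∧
    M.T (mf F) (M.T (me F) v) = (2 : F) • v ∧
    M.X (M.T (me F) (M.T (me F) v)) = M.T (me F) (M.T (me F) v) ∧
    M.T (mf F) (M.T (me F) (M.T (me F) v)) = (2 : F) • M.T (me F) v := by
  have c1 : M.X (M.T (me F) v) = 0 := by rw [h.xte hE, th0 hv, map_zero]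
  have c2 : M.right (mh F) (M.T (me F) v) = M.right (me F) v := by
    have := h.teh v
    rw [th0 hv, map_zero, hv, map_neg] at this
    have h3 : M.right (mh F) (M.T (me F) v) =
      (- M.right (me F) v + M.right (mh F) (M.T (me F) v)) + M.right (me F) v := by abel
    rw [h3, ← this, zero_add]
  have c3 : M.T (mf F) (M.T (me F) v) = (2 : F) • v := by
    have := h.comm hE v
    rw [h.f0 h2 hE hv, map_zero, hv, zero_sub, smul_neg, neg_inj] at this
    exact this
  have c4 : M.X (M.T (me F) (M.T (me F) v)) = M.T (me F) (M.T (me F) v) := by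
    rw [h.xte hE, th1 c1]
  refine ⟨c1, c2, c3, c4, ?_⟩
  have := h.comm hE (M.T (me F) v)
  rw [c1, c3, smul_zero, sub_eq_zero, map_smul] at this
  exact this.symm

/-- `v ∈ M₂` -/
lemma Good.tf2 {v : M.carrier} (hv : M.X v = v) :
    M.X (M.T (mf F) v) = 0 ∧ M.X (M.T (mf F) (M.T (mf F) v)) = - M.T (mf F) (M.T (mf F) v) ∧
    M.T (me F) (M.T (mf F) (M.T (mf F) v)) = (2 : F) • M.T (mf F) v ∧
    M.T (me F) (M.T (me F) (M.T (mf F) (M.T (mf F) v))) = (4 : F) • v := by
  have c1 : M.X (M.T (mf F) v) = 0 := by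
    rw [X_apply, h.thtf hE, hv, sub_self]
  have c2 : M.X (M.T (mf F) (M.T (mf F) v)) = - M.T (mf F) (M.T (mf F) v) := by
    rw [X_apply, h.thtf hE, c1, map_zero, zero_sub]
  have c3 : M.T (me F) (M.T (mf F) v) = (2 : F) • v := by
    have := h.comm hE v
    rw [h.e2 h2 hE hv, map_zero, hv, sub_zero] at this
    exact this
  have c4 : M.T (me F) (M.T (mf F) (M.T (mf F) v)) = (2 : F) • M.T (mf F) v := by
    have := h.comm hE (M.T (mf F) v)
    rw [c1, c3, smul_zero, sub_eq_zero, map_smul] at this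
    exact this
  refine ⟨c1, c2, c4, ?_⟩
  rw [c4, map_smul, c3, smul_smul]
  norm_num

/-- decomposition into weight spaces -/
lemma Good.decomp (v : M.carrier) : ∃ a b c, v = a + b + c ∧ M.X a = a ∧ M.X b = 0 ∧ M.X c = - c := by
  have x3 := h.x3 h2 hE v
  have e : v = ((2 : F)⁻¹ * 2) • v := by rw [inv_mul_cancel₀ h2, one_smul]
  refine ⟨(2 : F)⁻¹ • (M.X (M.X v) + M.X v), v - M.X (M.X v), (2 : F)⁻¹ • (M.X (M.X v) - M.X v),
    ?_, ?_, ?_, ?_⟩
  · have : (2 : F)⁻¹ • (M.X (M.X v) + M.X v) + (2 : F)⁻¹ • (M.X (M.X v) - M.X v) =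
      M.X (M.X v) := by
      have h5 : (2 : F)⁻¹ • (M.X (M.X v) + M.X v) + (2 : F)⁻¹ • (M.X (M.X v) - M.X v) =
        ((2 : F)⁻¹ * 2) • M.X (M.X v) := by module
      rw [h5, inv_mul_cancel₀ h2, one_smul]
    have h6 : (2 : F)⁻¹ • (M.X (M.X v) + M.X v) + (v - M.X (M.X v)) +
      (2 : F)⁻¹ • (M.X (M.X v) - M.X v) = v - M.X (M.X v) +
      ((2 : F)⁻¹ • (M.X (M.X v) + M.X v) + (2 : F)⁻¹ • (M.X (M.X v) - M.X v)) := by abel
    rw [h6, this]; abel
  · rw [map_smul, map_add, x3, add_comm]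
  · rw [map_sub, x3, sub_self]
  · rw [map_smul, map_sub, x3, ← smul_neg, neg_sub]

/-- `M₁ = T_e M₀`, given `ker' = ⊤`. -/
lemma Good.w1 (hk : M.ker' = ⊤) {v : M.carrier} (hv : M.X v = 0) :
    ∃ a, M.X a = - a ∧ v = M.T (me F) a := by
  -- the set of all `v` whose weight one component is in `T_e M₀`
  let S : Submodule F M.carrier :=
    { carrier := {v | ∃ a, M.X a = - a ∧ v - M.X (M.X v) = M.T (me F) a}
      add_mem' := by
        rintro v w ⟨a, ha, hv⟩ ⟨b, hb, hw⟩
        refine ⟨a + b, by rw [map_add, ha, hb]; abel, ?_⟩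
        rw [map_add (M.T (me F)), ← hv, ← hw, map_add, map_add]; abel
      zero_mem' := ⟨0, by simp, by simp⟩
      smul_mem' := by
        rintro c v ⟨a, ha, hv⟩
        refine ⟨c • a, by rw [map_smul, ha, smul_neg], ?_⟩
        rw [map_smul (M.T (me F)), ← hv, map_smul, map_smul, smul_sub] }
  have x3 := h.x3 h2 hE
  have key : M.ker' ≤ S := by
    refine sup_le (sup_le (sup_le ?_ ?_) ?_) ?_
    · intro m hm
      rw [LinearMap.mem_ker, h.pv (hE m)] at hm
      rw [hm]; exact S.zero_mem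
    · rintro _ ⟨w, rfl⟩
      change M.T (me F) (M.E w) ∈ S
      rw [hE]
      obtain ⟨a, b, c, rfl, ha, hb, hc⟩ := h.decomp h2 hE w
      refine ⟨c, hc, ?_⟩
      have e1 := h.e2 h2 hE ha
      have e2 : M.X (M.T (me F) b) = M.T (me F) b := by rw [h.xte hE, th1 hb]
      have e3 := (h.te0 h2 hE hc).1
      simp only [map_add, e1, e2, e3, map_zero]
      abel
    · rintro _ ⟨w, rfl⟩
      change M.T (mf F) (M.E w) ∈ S
      rw [hE]
      obtain ⟨a, b, c, rfl, ha, hb, hc⟩ := h.decomp h2 hE w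
      have e1 := h.f0 h2 hE hc
      have e2 : M.X (M.T (mf F) b) = - M.T (mf F) b := by
        rw [X_apply, h.thtf hE, hb, map_zero, zero_sub]
      obtain ⟨e3, e4, e5, -⟩ := h.tf2 h2 hE ha
      refine ⟨(2 : F)⁻¹ • M.T (mf F) (M.T (mf F) a), by rw [map_smul, e4, smul_neg], ?_⟩
      rw [map_smul, e5, smul_smul, inv_mul_cancel₀ h2, one_smul]
      simp only [map_add, e1, e2, e3, map_zero, map_neg]
      abel
    · rintro _ ⟨w, rfl⟩
      change M.X (M.E w) ∈ S
      rw [hE]
      exact ⟨0, by simp, by rw [x3, sub_self, map_zero]⟩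
  obtain ⟨a, ha, h4⟩ := key (by rw [hk]; trivial : v ∈ M.ker')
  refine ⟨a, ha, ?_⟩
  rw [← h4, hv, map_zero, sub_zero]

/-- Step 4 -/
lemma Good.pair (hk : M.ker' = ⊤) (hnt : Nontrivial M.carrier) :
    ∃ v0 v1 : M.carrier, M.X v0 = - v0 ∧ M.X v1 = - v1 ∧
      M.right (mg F) (M.T (me F) v0) = v1 ∧ (v0 ≠ 0 ∨ v1 ≠ 0) := by
  -- nonzero vector of weight 0
  have hw0 : ∃ v : M.carrier, M.X v = - v ∧ v ≠ 0 := by
    by_contra hno
    push Not at hno
    obtain ⟨v, hv⟩ := exists_ne (0 : M.carrier)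
    obtain ⟨a, b, c, rfl, ha, hb, hc⟩ := h.decomp h2 hE v
    apply hv
    have h4 : (4 : F) ≠ 0 := by
      have : (4 : F) = 2 * 2 := by norm_num
      rw [this]; exact mul_ne_zero h2 h2
    obtain ⟨-, e4, -, e6⟩ := h.tf2 h2 hE ha
    rw [hno _ e4, map_zero, map_zero] at e6
    have ha0 : a = 0 := (smul_eq_zero.1 e6.symm).resolve_left h4
    obtain ⟨d, hd, rfl⟩ := h.w1 h2 hE hk hb
    rw [ha0, hno _ hc, hno _ hd, map_zero, add_zero, add_zero]
  obtain ⟨v, hv, hv0⟩ := hw0
  obtain ⟨u2, u1, u0, hdec, hu2, hu1, hu0⟩ := h.decomp h2 hE (M.right (me F) v)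
  obtain ⟨a, ha, rfl⟩ := h.w1 h2 hE hk hu1
  have hg2 : M.right (mg F) u2 = 0 := by
    have := h.hg1 hE u2
    rw [h.r2 h2 hE hu2] at this
    exact add_eq_left.1 this
  have hg0 : ∀ w : M.carrier, M.X w = - w → M.right (mg F) w = w := by
    intro w hw
    have := h.hg1 hE w
    rwa [h.r0 h2 hE hw, zero_add] at this
  have h5 := congrArg (M.right (mg F)) hdec
  rw [h.rrv, mg_me, map_zero, LinearMap.zero_apply, map_add, map_add, hg2, zero_add,
    hg0 _ hu0] at h5
  by_cases hz : a = 0 ∧ u0 = 0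
  · obtain ⟨rfl, rfl⟩ := hz
    rw [map_zero, add_zero, add_zero] at hdec
    obtain ⟨-, e4, -, e6⟩ := h.tf2 h2 hE hu2
    refine ⟨(2 : F)⁻¹ • M.T (mf F) (M.T (mf F) u2), v, by rw [map_smul, e4, smul_neg], hv, ?_,
      Or.inr hv0⟩
    have h6 : M.right (me F) (M.T (me F) ((2 : F)⁻¹ • M.T (mf F) (M.T (mf F) u2))) = u2 := by
      have h7 := h.tee ((2 : F)⁻¹ • M.T (mf F) (M.T (mf F) u2))
      rw [map_smul, map_smul, e6] at h7
      rw [map_smul]
      apply smul_right_injective _ h2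
      change (2 : F) • _ = (2 : F) • _
      rw [← h7]
      have h8 : (4 : F) = 2 * 2 := by norm_num
      rw [h8, smul_smul, ← mul_assoc, inv_mul_cancel₀ h2, one_mul]
    have h9 := congrArg (M.right (mf F)) (h6.trans hdec.symm)
    rw [h.rrv, h.rrv, mf_me, hg0 _ hv] at h9
    exact h9
  · refine ⟨a, - u0, ha, by rw [map_neg, hu0], ?_, ?_⟩
    · rw [eq_neg_iff_add_eq_zero]; exact h5.symm
    · by_contra hno
      push Not at hno
      exact hz ⟨hno.1, neg_eq_zero.1 hno.2⟩

end weights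

end Bimodule

open Bimodule

/-- the homomorphism from `sixBim` -/
def sixHom {F : Type u} [Field F] (M : Bimodule.{u, v} F) (w0 w1 w2 : M.carrier) :
    Matrix (Fin 2) (Fin 3) F →ₗ[F] M.carrier where
  toFun m := m 1 0 • w0 + m 1 1 • w1 + m 1 2 • w2
    + m 0 0 • M.right (me F) w0 + m 0 1 • M.right (me F) w1 + m 0 2 • M.right (me F) w2
  map_add' m n := by
    simp only [Matrix.add_apply]
    module
  map_smul' c m := by
    simp only [Matrix.smul_apply, RingHom.id_apply, smul_eq_mul]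
    module

lemma sixHom_apply {F : Type u} [Field F] (M : Bimodule.{u, v} F) (w0 w1 w2 : M.carrier)
    (m : Matrix (Fin 2) (Fin 3) F) : sixHom M w0 w1 w2 m = m 1 0 • w0 + m 1 1 • w1 + m 1 2 • w2
    + m 0 0 • M.right (me F) w0 + m 0 1 • M.right (me F) w1 + m 0 2 • M.right (me F) w2 := rfl

theorem s_six : S_six.{u, v} := by
  intro F _ M h2 h hirr hk h6irr
  have hE : ∀ m, M.E m = m := fun m => by rw [← h.p1 hk hirr m, h.ep hk]
  obtain ⟨w0, w1, hw0, hw1, hpair, hne⟩ := h.pair h2 hE hk hirr.1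
  set w2 := M.right (mg F) (M.T (me F) w1) with hw2
  obtain ⟨a1, a2, a3, a4, a5⟩ := h.te0 h2 hE hw0
  obtain ⟨b1, b2, b3, b4, b5⟩ := h.te0 h2 hE hw1
  have f0 := h.f0 h2 hE hw0
  have f1 := h.f0 h2 hE hw1
  have r0 := h.r0 h2 hE hw0
  have r1 := h.r0 h2 hE hw1
  have r2 : M.right (mh F) w2 = 0 := by rw [hw2, h.rrv, mh_mg, map_zero, LinearMap.zero_apply]
  have g0 : M.right (mg F) w0 = w0 := by have := h.hg1 hE w0; rwa [r0, zero_add] at this
  have g1 : M.right (mg F) w1 = w1 := by have := h.hg1 hE w1; rwa [r1, zero_add] at this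
  have g2 : M.right (mg F) w2 = w2 := by have := h.hg1 hE w2; rwa [r2, zero_add] at this
  have rf : ∀ w, M.right (mg F) w = w → M.right (mf F) w = 0 := by
    intro w hw
    rw [← hw, h.rrv, mf_mg, map_zero, LinearMap.zero_apply]
  -- T_e
  have te0 : M.T (me F) w0 = M.right (me F) w0 + w1 := by
    have := h.hg1 hE (M.T (me F) w0)
    rw [a2, hpair] at this; exact this.symm
  have te1 : M.T (me F) w1 = M.right (me F) w1 + w2 := by
    have := h.hg1 hE (M.T (me F) w1)
    rw [b2] at this; exact this.symm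
  have ee : ∀ w, M.right (me F) (M.right (me F) w) = 0 := by
    intro w; rw [h.rrv, me_me, map_zero, LinearMap.zero_apply]
  have t20 : M.T (me F) (M.T (me F) w0) = (2 : F) • M.right (me F) w1 := by
    rw [h.tee, te0, map_add, ee, zero_add]
  have t21 : M.T (me F) (M.T (me F) w1) = (2 : F) • M.right (me F) w2 := by
    rw [h.tee, te1, map_add, ee, zero_add]
  have cancel : ∀ x y : M.carrier, (2 : F) • x = (2 : F) • y → x = y := fun x y hxy =>
    smul_right_injective _ h2 hxy
  have xe1 : M.X (M.right (me F) w1) = M.right (me F) w1 := by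
    apply cancel; rw [← map_smul, ← t20, a4]
  have xe2 : M.X (M.right (me F) w2) = M.right (me F) w2 := by
    apply cancel; rw [← map_smul, ← t21, b4]
  have he1 := th2 xe1
  have he2 := th2 xe2
  have ee1 := h.e2 h2 hE xe1
  have ee2 := h.e2 h2 hE xe2
  have fe1 : M.T (mf F) (M.right (me F) w1) = M.right (me F) w0 + w1 := by
    apply cancel; rw [← map_smul, ← t20, a5, te0]
  have fe2 : M.T (mf F) (M.right (me F) w2) = M.right (me F) w1 + w2 := by
    apply cancel; rw [← map_smul, ← t21, b5, te1]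
  have hh0 := th0 hw0
  have hh1 := th0 hw1
  have e0 : M.right (me F) w0 = M.T (me F) w0 - w1 := by rw [te0]; abel
  have e2 : w2 = M.T (me F) w1 - M.right (me F) w1 := by rw [te1]; abel
  have he0 : M.T (mh F) (M.right (me F) w0) = M.right (me F) w0 + w1 := by
    rw [e0, map_sub, th1 a1, hh1]; abel
  have ee0 : M.T (me F) (M.right (me F) w0) = M.right (me F) w1 - w2 := by
    rw [e0, map_sub, t20, te1]; module
  have fe0 : M.T (mf F) (M.right (me F) w0) = (2 : F) • w0 := by
    rw [e0, map_sub, a3, f1, sub_zero]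
  have hh2 : M.T (mh F) w2 = w2 - M.right (me F) w1 := by
    conv_lhs => rw [e2]
    rw [map_sub, th1 b1, he1, te1]; module
  have te2 : M.T (me F) w2 = (2 : F) • M.right (me F) w2 := by
    conv_lhs => rw [e2]
    rw [map_sub, t21, ee1, sub_zero]
  have f2 : M.T (mf F) w2 = w1 - M.right (me F) w0 := by
    conv_lhs => rw [e2]
    rw [map_sub, b3, fe1]; module
  have texp : ∀ (b : Mat2 F) (x : M.carrier), M.T b x = b 0 0 • M.T (mh F) x + b 0 1 • M.T (me F) x
      + b 1 0 • M.T (mf F) x + b 1 1 • ((2 : F) • x - M.T (mh F) x) := by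
    intro b x
    rw [Texp (hE x) b, X_apply]; module
  have hR : ∀ (b : Mat2 F) (m : Matrix (Fin 2) (Fin 3) F),
      sixHom M w0 w1 w2 (b * m : Matrix (Fin 2) (Fin 3) F) = M.right b (sixHom M w0 w1 w2 m) := by
    intro b m
    have k1 : ∀ w, M.right (mg F) w = w → M.right (mh F) w = 0 → M.right b w =
        b 0 1 • M.right (me F) w + b 1 1 • w := by
      intro w hw hw'
      rw [Rexp b w, hw, hw', rf w hw]; module
    have k2 : ∀ w, M.right (mg F) w = w → M.right b (M.right (me F) w) =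
        b 0 0 • M.right (me F) w + b 1 0 • w := by
      intro w hw
      rw [Rexp b, ee, h.rrv, h.rrv, h.rrv, mh_me, mf_me, mg_me, map_zero, LinearMap.zero_apply, hw]
      module
    rw [sixHom_apply, sixHom_apply]
    simp only [map_add, map_smul]
    rw [k1 w0 g0 r0, k1 w1 g1 r1, k1 w2 g2 r2, k2 w0 g0, k2 w1 g1, k2 w2 g2]
    simp only [Matrix.mul_apply, Fin.sum_univ_two]
    module
  have hT : ∀ (b : Mat2 F) (m : Matrix (Fin 2) (Fin 3) F),
      sixHom M w0 w1 w2 (t6 F b m) = M.T b (sixHom M w0 w1 w2 m) := by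
    intro b m
    have q00 : (t6 F b m) 0 0 =
      b 0 0 * m 0 0 + b 0 1 * m 1 0 + b 1 0 * (m 0 1 - m 1 2) + b 1 1 * m 0 0 := rfl
    have q01 : (t6 F b m) 0 1 =
      b 0 0 * (2 * m 0 1 - m 1 2) + b 0 1 * (m 0 0 + m 1 1) + b 1 0 * m 0 2 + b 1 1 * m 1 2 := rfl
    have q02 : (t6 F b m) 0 2 = b 0 0 * (2 * m 0 2) + b 0 1 * (2 * m 1 2) := rfl
    have q10 : (t6 F b m) 1 0 = b 1 0 * (2 * m 0 0) + b 1 1 * (2 * m 1 0) := rfl
    have q11 : (t6 F b m) 1 1 =
      b 0 0 * m 0 0 + b 0 1 * m 1 0 + b 1 0 * (m 0 1 + m 1 2) + b 1 1 * (2 * m 1 1 - m 0 0) := rfl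
    have q12 : (t6 F b m) 1 2 =
      b 0 0 * m 1 2 + b 0 1 * (m 1 1 - m 0 0) + b 1 0 * m 0 2 + b 1 1 * m 1 2 := rfl
    rw [sixHom_apply, sixHom_apply, q00, q01, q02, q10, q11, q12]
    simp only [map_add, map_smul]
    rw [texp b w0, texp b w1, texp b w2, texp b (M.right (me F) w0), texp b (M.right (me F) w1),
      texp b (M.right (me F) w2), hh0, hh1, hh2, te0, te1, te2, f0, f1, f2, he0, he1, he2, ee0, ee1,
      ee2, fe0, fe1, fe2]
    module
  have hhom : IsHom (M := sixBim F) (M' := M) (sixHom M w0 w1 w2) := by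
    refine ⟨?_, ?_⟩
    · intro b m
      have e : ∀ m : Matrix (Fin 2) (Fin 3) F,
          sixHom M w0 w1 w2 (t6 F b m - (b * m : Matrix (Fin 2) (Fin 3) F)) =
            M.left b (sixHom M w0 w1 w2 m) := by
        intro m
        rw [map_sub, hT, hR]
        change (M.left b _ + M.right b _) - M.right b _ = _
        abel
      exact e m
    · intro b m
      exact hR b m
  refine (hhom.iso_of_ne_zero h6irr hirr ?_).symm
  intro h0
  have z0 : sixHom M w0 w1 w2 (!![0, 0, 0; 1, 0, 0] : Matrix (Fin 2) (Fin 3) F) = 0 := by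
    rw [h0]; rfl
  have z1 : sixHom M w0 w1 w2 (!![0, 0, 0; 0, 1, 0] : Matrix (Fin 2) (Fin 3) F) = 0 := by
    rw [h0]; rfl
  rw [sixHom_apply] at z0 z1
  simp at z0 z1
  rcases hne with h3 | h3
  · exact h3 z0
  · exact h3 z1

end Pool.Agent.H6.RA
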