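import Pool.Agent.H6.RA.Stm

/-!
`S_basic` and `S_spec1`: the relations of right alternative bimodules; the five special bimodules are
right alternative and irreducible.
-/

namespace Pool.Agent.H6.RA

universe u v w

theorem s_basic : S_basic.{u, v} := by
  intro F _ M
  constructor
  · intro h
    refine ⟨fun b => ?_, fun a b => ?_⟩
    · ext m
      have := congrArg Prod.snd (h (0, m) (b, 0))
      simpa [Bimodule.nullMul] using this
    · ext n
      have := congrArg Prod.snd (h (a, 0) (b, n))
      simp only [Bimodule.nullMul, map_zero, add_zero] at this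
      exact this.symm
  · rintro ⟨h1, h2⟩ ⟨a, m⟩ ⟨b, n⟩
    have e1 : M.right b (M.right b m) = M.right (b * b) m :=
      congrArg (fun g : Module.End F M.carrier => g m) (h1 b)
    have e2 : M.left a (M.left b n + M.right b n) = M.left (a * b) n + M.right b (M.left a n) :=
      congrArg (fun g : Module.End F M.carrier => g n) (h2 a b)
    refine Prod.ext (mul_assoc a b b) ?_
    change M.left (a * b) n + M.right b (M.left a n + M.right b m) =
      M.left a (M.left b n + M.right b n) + M.right (b * b) m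
    rw [e2, map_add, e1, add_assoc]

section irr

variable (F : Type u) [Field F]

lemma zeroBim_irr : (zeroBim F).IsIrreducible := by
  refine ⟨inferInstanceAs (Nontrivial F), fun N _ => ?_⟩
  have : ∀ N : Submodule F F, N = ⊥ ∨ N = ⊤ := fun N => eq_bot_or_eq_top N
  exact this N

lemma leftBim_irr : (leftBim F).IsIrreducible := by
  refine ⟨inferInstanceAs (Nontrivial (Fin 2 → F)), ?_⟩
  have key : ∀ N : Submodule F (Fin 2 → F), (∀ (a : Mat2 F), ∀ m ∈ N, a.mulVec m ∈ N) →
      N = ⊥ ∨ N = ⊤ := by
    intro N hN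
    by_cases hb : N = ⊥
    · exact Or.inl hb
    right
    obtain ⟨v, hv, hv0⟩ := (Submodule.ne_bot_iff N).1 hb
    obtain ⟨i, hi⟩ := Function.ne_iff.1 hv0
    have he : ∀ j, (Pi.single j 1 : Fin 2 → F) ∈ N := by
      intro j
      have h1 := N.smul_mem (v i)⁻¹ (hN (Matrix.single j i 1) v hv)
      convert h1 using 1
      ext k
      rw [Pi.smul_apply, Matrix.single_mulVec, smul_eq_mul]
      by_cases hk : k = j
      · subst hk
        rw [Function.update_self, one_mul, Pi.single_eq_same]
        exact (inv_mul_cancel₀ hi).symm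
      · rw [Function.update_of_ne hk, Pi.single_eq_of_ne hk]
        simp
    rw [eq_top_iff]
    intro w _
    rw [pi_eq_sum_univ' w]
    refine N.sum_mem fun i _ => N.smul_mem _ ?_
    convert he i using 1
  exact fun N hN => key N fun a m hm => (hN a m hm).1

lemma rightBim_irr : (rightBim F).IsIrreducible := by
  refine ⟨inferInstanceAs (Nontrivial (Fin 2 → F)), ?_⟩
  have key : ∀ N : Submodule F (Fin 2 → F), (∀ (a : Mat2 F), ∀ m ∈ N, Matrix.vecMul m a ∈ N) →
      N = ⊥ ∨ N = ⊤ := by
    intro N hN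
    by_cases hb : N = ⊥
    · exact Or.inl hb
    right
    obtain ⟨v, hv, hv0⟩ := (Submodule.ne_bot_iff N).1 hb
    obtain ⟨i, hi⟩ := Function.ne_iff.1 hv0
    have he : ∀ j, (Pi.single j 1 : Fin 2 → F) ∈ N := by
      intro j
      have h1 := N.smul_mem (v i)⁻¹ (hN (Matrix.single i j 1) v hv)
      convert h1 using 1
      ext k
      rw [Pi.smul_apply, smul_eq_mul, Matrix.vecMul, dotProduct]
      have : ∀ l, v l * Matrix.single i j (1 : F) l k = if l = i then (if j = k then v i else 0) else 0 := by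
        intro l
        rw [Matrix.single_apply]
        by_cases hl : l = i
        · subst hl
          by_cases hk : j = k <;> simp [hk]
        · have : ¬ (i = l ∧ j = k) := fun h => hl h.1.symm
          simp [hl, this]
      rw [Finset.sum_congr rfl fun l _ => this l]
      simp only [Finset.sum_ite_eq', Finset.mem_univ, if_true]
      by_cases hk : j = k
      · subst hk
        rw [if_pos rfl, Pi.single_eq_same]
        exact (inv_mul_cancel₀ hi).symm
      · rw [if_neg hk, Pi.single_eq_of_ne (Ne.symm hk), mul_zero]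
    rw [eq_top_iff]
    intro w _
    rw [pi_eq_sum_univ' w]
    refine N.sum_mem fun i _ => N.smul_mem _ ?_
    convert he i using 1
  exact fun N hN => key N fun a m hm => (hN a m hm).2

lemma regBim_irr : (regBim F).IsIrreducible := by
  refine ⟨inferInstanceAs (Nontrivial (Mat2 F)), ?_⟩
  have key : ∀ N : Submodule F (Mat2 F), (∀ (a : Mat2 F), ∀ m ∈ N, a * m ∈ N ∧ m * a ∈ N) →
      N = ⊥ ∨ N = ⊤ := by
    intro N hN
    by_cases hb : N = ⊥
    · exact Or.inl hb
    right
    obtain ⟨v, hv, hv0⟩ := (Submodule.ne_bot_iff N).1 hb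
    have : ∃ i j, v i j ≠ 0 := by
      by_contra hno
      push Not at hno
      exact hv0 (by ext i j; exact hno i j)
    obtain ⟨i, j, hij⟩ := this
    have he : ∀ k l, (Matrix.single k l 1 : Mat2 F) ∈ N := by
      intro k l
      have h1 := N.smul_mem (v i j)⁻¹
        (hN (Matrix.single j l 1) _ (hN (Matrix.single k i 1) v hv).1).2
      convert h1 using 1
      rw [Matrix.single_mul_mul_single, Matrix.smul_single, smul_eq_mul, one_mul, mul_one,
        inv_mul_cancel₀ hij]
    rw [eq_top_iff]
    intro w _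
    rw [Matrix.matrix_eq_sum_single w]
    refine N.sum_mem fun i _ => N.sum_mem fun j _ => ?_
    have : Matrix.single i j (w i j) = w i j • (Matrix.single i j 1 : Mat2 F) := by
      rw [Matrix.smul_single, smul_eq_mul, mul_one]
    rw [this]
    exact N.smul_mem _ (he i j)
  exact fun N hN => key N fun a m hm => hN a m hm

lemma sixBim_irr (h2 : (2 : F) ≠ 0) : (sixBim F).IsIrreducible := by
  refine ⟨inferInstanceAs (Nontrivial (Matrix (Fin 2) (Fin 3) F)), ?_⟩
  have key : ∀ N : Submodule F (Matrix (Fin 2) (Fin 3) F),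
      (∀ (a : Mat2 F), ∀ m ∈ N, t6 F a m ∈ N ∧ a * m ∈ N) → N = ⊥ ∨ N = ⊤ := by
    intro N hN
    by_cases hb : N = ⊥
    · exact Or.inl hb
    right
    obtain ⟨v, hv, hv0⟩ := (Submodule.ne_bot_iff N).1 hb
    -- rows
    have r0 : ∀ m ∈ N, (!![m 0 0, m 0 1, m 0 2; 0, 0, 0] : Matrix (Fin 2) (Fin 3) F) ∈ N := by
      intro m hm
      convert (hN (mh F) m hm).2 using 1
      ext i j
      fin_cases i <;> fin_cases j <;> simp [mh, Matrix.mul_apply, Fin.sum_univ_two]
    have r1 : ∀ m ∈ N, (!![m 1 0, m 1 1, m 1 2; 0, 0, 0] : Matrix (Fin 2) (Fin 3) F) ∈ N := by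
      intro m hm
      convert (hN (me F) m hm).2 using 1
      ext i j
      fin_cases i <;> fin_cases j <;> simp [me, Matrix.mul_apply, Fin.sum_univ_two]
    have low : ∀ a b c : F, (!![a, b, c; 0, 0, 0] : Matrix (Fin 2) (Fin 3) F) ∈ N →
        (!![0, 0, 0; a, b, c] : Matrix (Fin 2) (Fin 3) F) ∈ N := by
      intro a b c hm
      convert (hN (mf F) _ hm).2 using 1
      ext i j
      fin_cases i <;> fin_cases j <;> simp [mf, Matrix.mul_apply, Fin.sum_univ_two]
    -- row 0 under T_e, T_f
    have k1 : ∀ a b c : F, (!![a, b, c; 0, 0, 0] : Matrix (Fin 2) (Fin 3) F) ∈ N →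
        (!![0, a, 0; 0, 0, 0] : Matrix (Fin 2) (Fin 3) F) ∈ N ∧
        (!![0, 0, a; 0, 0, 0] : Matrix (Fin 2) (Fin 3) F) ∈ N ∧
        (!![b, c, 0; 0, 0, 0] : Matrix (Fin 2) (Fin 3) F) ∈ N := by
      intro a b c hm
      have h1 := (hN (me F) _ hm).1
      have h3 := (hN (mf F) _ hm).1
      refine ⟨?_, ?_, ?_⟩
      · convert r0 _ h1 using 1
        ext i j
        fin_cases i <;> fin_cases j <;> simp [t6, me]
      · convert N.neg_mem (r1 _ h1) using 1
        ext i j
        fin_cases i <;> fin_cases j <;> simp [t6, me]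
      · convert r0 _ h3 using 1
        ext i j
        fin_cases i <;> fin_cases j <;> simp [t6, mf]
    have k2 : ∀ a b c : F, (!![a, b, c; 0, 0, 0] : Matrix (Fin 2) (Fin 3) F) ∈ N →
        (!![c, 0, 0; 0, 0, 0] : Matrix (Fin 2) (Fin 3) F) ∈ N := by
      intro a b c hm
      have h3 := (hN (mf F) _ (low a b c hm)).1
      convert N.neg_mem (r0 _ h3) using 1
      ext i j
      fin_cases i <;> fin_cases j <;> simp [t6, mf]
    -- unit vectors
    have scale : ∀ a : F, a ≠ 0 → ∀ m : Matrix (Fin 2) (Fin 3) F, a • m ∈ N → m ∈ N := by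
      intro a ha m hm
      have := N.smul_mem a⁻¹ hm
      rwa [smul_smul, inv_mul_cancel₀ ha, one_smul] at this
    have e0 : (!![1, 0, 0; 0, 0, 0] : Matrix (Fin 2) (Fin 3) F) ∈ N := by
      have main : ∀ a b c : F, (!![a, b, c; 0, 0, 0] : Matrix (Fin 2) (Fin 3) F) ∈ N →
          (a ≠ 0 ∨ b ≠ 0 ∨ c ≠ 0) → (!![1, 0, 0; 0, 0, 0] : Matrix (Fin 2) (Fin 3) F) ∈ N := by
        intro a b c hm hne
        have hx : ∀ x : F, x ≠ 0 → (!![x, 0, 0; 0, 0, 0] : Matrix (Fin 2) (Fin 3) F) ∈ N →
            (!![1, 0, 0; 0, 0, 0] : Matrix (Fin 2) (Fin 3) F) ∈ N := by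
          intro x hx hxm
          apply scale x hx
          convert hxm using 1
          ext i j
          fin_cases i <;> fin_cases j <;> simp
        by_cases ha : a = 0
        · by_cases hc : c = 0
          · have hb : b ≠ 0 := by
              rcases hne with h | h | h
              · exact absurd ha h
              · exact h
              · exact absurd hc h
            subst hc
            exact hx b hb (k1 _ _ _ hm).2.2
          · exact hx c hc (k2 _ _ _ hm)
        · exact hx a ha (k1 _ _ _ (k1 _ _ _ hm).1).2.2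
      by_cases h0 : v 0 0 ≠ 0 ∨ v 0 1 ≠ 0 ∨ v 0 2 ≠ 0
      · exact main _ _ _ (r0 v hv) h0
      · apply main _ _ _ (r1 v hv)
        by_contra h1
        push Not at h0 h1
        apply hv0
        ext i j
        fin_cases i <;> fin_cases j
        · exact h0.1
        · exact h0.2.1
        · exact h0.2.2
        · exact h1.1
        · exact h1.2.1
        · exact h1.2.2
    have e1 := (k1 _ _ _ e0).1
    have e2 := (k1 _ _ _ e0).2.1
    rw [eq_top_iff]
    intro w _
    have f0 := low _ _ _ e0
    have f1 := low _ _ _ e1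
    have f2 := low _ _ _ e2
    have : w = w 0 0 • !![1, 0, 0; 0, 0, 0] + w 0 1 • !![0, 1, 0; 0, 0, 0] +
        w 0 2 • !![0, 0, 1; 0, 0, 0] + w 1 0 • !![0, 0, 0; 1, 0, 0] + w 1 1 • !![0, 0, 0; 0, 1, 0] +
        w 1 2 • !![0, 0, 0; 0, 0, 1] := by
      ext i j
      fin_cases i <;> fin_cases j <;> simp
    rw [this]
    exact N.add_mem (N.add_mem (N.add_mem (N.add_mem (N.add_mem (N.smul_mem _ e0) (N.smul_mem _ e1))
      (N.smul_mem _ e2)) (N.smul_mem _ f0)) (N.smul_mem _ f1)) (N.smul_mem _ f2)
  intro N hN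
  apply key N
  intro a m hm
  refine ⟨?_, (hN a m hm).2⟩
  have h1 : t6 F a m - (a * m : Matrix (Fin 2) (Fin 3) F) ∈ N := (hN a m hm).1
  have h3 : (a * m : Matrix (Fin 2) (Fin 3) F) ∈ N := (hN a m hm).2
  have h4 := N.add_mem h1 h3
  have h5 : t6 F a m - (a * m : Matrix (Fin 2) (Fin 3) F) + (a * m : Matrix (Fin 2) (Fin 3) F) =
    t6 F a m := sub_add_cancel _ _
  exact h5 ▸ h4

lemma sixBim_ra : (sixBim F).IsRightAlternative := by
  rw [s_basic]
  refine ⟨fun b => ?_, fun a b => ?_⟩
  · have : ∀ m : Matrix (Fin 2) (Fin 3) F, b * (b * m) = (b * b) * m := fun m => by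
      rw [Matrix.mul_assoc]
    ext m : 1
    exact this m
  · have : ∀ m : Matrix (Fin 2) (Fin 3) F,
        t6 F a ((t6 F b m - b * m) + b * m) - a * ((t6 F b m - b * m) + b * m) =
          (t6 F (a * b) m - (a * b) * m) + b * (t6 F a m - a * m) := by
      intro m
      rw [sub_add_cancel]
      ext i j
      fin_cases i <;> fin_cases j <;>
        simp [t6, Matrix.mul_apply, Fin.sum_univ_two] <;> ring
    ext m : 1
    exact this m

end irr

theorem s_spec1 : S_spec1.{u} := by
  intro F _ h2 i
  fin_cases i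
  · refine ⟨?_, zeroBim_irr F⟩
    change (zeroBim F).IsRightAlternative
    rw [s_basic]
    refine ⟨fun b => ?_, fun a b => ?_⟩
    · refine LinearMap.ext fun m => rfl
    · exact LinearMap.ext fun m => (add_zero (0 : F)).symm
  · refine ⟨?_, leftBim_irr F⟩
    change (leftBim F).IsRightAlternative
    rw [s_basic]
    refine ⟨fun b => ?_, fun a b => ?_⟩
    · exact LinearMap.ext fun m => rfl
    · have : ∀ m : Fin 2 → F, a.mulVec (b.mulVec m + 0) = (a * b).mulVec m + 0 := fun m => by
        rw [add_zero, add_zero, Matrix.mulVec_mulVec]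
      ext m : 1
      exact this m
  · refine ⟨?_, rightBim_irr F⟩
    change (rightBim F).IsRightAlternative
    rw [s_basic]
    refine ⟨fun b => ?_, fun a b => ?_⟩
    · have : ∀ m : Fin 2 → F, Matrix.vecMul (Matrix.vecMul m b) b = Matrix.vecMul m (b * b) :=
        fun m => Matrix.vecMul_vecMul _ _ _
      ext m : 1
      exact this m
    · have : ∀ m : Fin 2 → F, (0 : Fin 2 → F) = 0 + Matrix.vecMul (0 : Fin 2 → F) b := fun m => by
        rw [Matrix.zero_vecMul, add_zero]
      exact LinearMap.ext this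
  · refine ⟨?_, regBim_irr F⟩
    change (regBim F).IsRightAlternative
    rw [s_basic]
    refine ⟨fun b => ?_, fun a b => ?_⟩
    · have : ∀ m : Mat2 F, (m * b) * b = m * (b * b) := fun m => mul_assoc _ _ _
      ext m : 1
      exact this m
    · have : ∀ m : Mat2 F, a * (b * m + m * b) = (a * b) * m + (a * m) * b := fun m => by
        rw [mul_add, mul_assoc, mul_assoc]
      ext m : 1
      exact this m
  · exact ⟨sixBim_ra F, sixBim_irr F h2⟩

end Pool.Agent.H6.RA
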