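import Pool.Agent.H6.RA.Uniq

/-!
The special bimodules are pairwise not isomorphic and not isomorphic to `Y.bim`.
-/

namespace Pool.Agent.H6.RA

universe u v w

open Bimodule

section

variable (F : Type u) [Field F]

lemma sp_finrank (i : Fin 5) :
    Module.finrank F (special F i).carrier = ![1, 2, 2, 4, 6] i := by
  fin_cases i
  · exact Module.finrank_self F
  · exact Module.finrank_fin_fun F
  · exact Module.finrank_fin_fun F
  · change Module.finrank F (Matrix (Fin 2) (Fin 2) F) = 4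
    rw [Module.finrank_matrix]; simp
  · change Module.finrank F (Matrix (Fin 2) (Fin 3) F) = 6
    rw [Module.finrank_matrix]; simp

variable {F}

lemma sp_lr : ¬ (leftBim F).Iso (rightBim F) := by
  rintro ⟨φ, -, hr⟩
  have h1 : ∀ m : Fin 2 → F, φ m = (0 : Fin 2 → F) := by
    intro m
    have h2 := hr 1 m
    have h3 : (leftBim F).right 1 m = (0 : Fin 2 → F) := rfl
    rw [h3] at h2
    have h4 : (rightBim F).right 1 (φ m) = φ m := Matrix.vecMul_one (φ m : Fin 2 → F)
    rw [h4] at h2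
    rw [← h2]
    exact map_zero φ
  have h2 : (fun _ => 1 : Fin 2 → F) = 0 := φ.injective ((h1 _).trans (h1 _).symm)
  exact one_ne_zero (congrFun h2 0)

lemma six_T (b : Mat2 F) : (sixBim F).T b = (t6 F b : Module.End F (Matrix (Fin 2) (Fin 3) F)) :=
  LinearMap.ext fun m : Matrix (Fin 2) (Fin 3) F => sub_add_cancel (t6 F b m) (b * m)

lemma six_one : (t6 F 1 : Module.End F (Matrix (Fin 2) (Fin 3) F)) = 1 + 1 := by
  refine LinearMap.ext fun m => ?_
  ext i j
  fin_cases i <;> fin_cases j <;> simp [t6] <;> ring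

lemma six_E : (sixBim F).E = (1 : Module.End F (Matrix (Fin 2) (Fin 3) F)) := by
  have h : (sixBim F).E = (t6 F 1 - 1 : Module.End F (Matrix (Fin 2) (Fin 3) F)) :=
    congrArg (fun A : Module.End F (Matrix (Fin 2) (Fin 3) F) => A - 1) (six_T (F := F) 1)
  rw [h, six_one, add_sub_cancel_right]

lemma six_calc (h2 : (2 : F) ≠ 0) : (1 - (4 : F)⁻¹ • (t6 F (me F) * t6 F (mf F) * 1 +
    t6 F (mf F) * t6 F (me F) * 1) - (2 : F)⁻¹ • ((t6 F (mh F) - 1) * (t6 F (mh F) - 1) * 1) :
    Module.End F (Matrix (Fin 2) (Fin 3) F)) = 0 := by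
  have h4 : (4 : F) = 2 * 2 := by norm_num
  refine LinearMap.ext fun m => ?_
  ext i j
  fin_cases i <;> fin_cases j <;>
    simp [t6, me, mf, mh, h4, -map_sub, -map_add] <;> field_simp <;> ring

lemma six_pr (h2 : (2 : F) ≠ 0) :
    (sixBim F).pr = (0 : Module.End F (Matrix (Fin 2) (Fin 3) F)) := by
  rw [← six_calc h2]
  have e1 := six_T (F := F) (me F)
  have e2 := six_T (F := F) (mf F)
  have e3 := six_T (F := F) (mh F)
  have e4 := six_E (F := F)
  unfold pr
  rw [e1, e2, e3, e4]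
  rfl

lemma sp_row (z : Fin 2 → F)
    (hef : Matrix.vecMul (Matrix.vecMul z (mf F)) (me F) = Matrix.vecMul z (mh F)) : z = 0 := by
  have e0 := congrFun hef 0
  have e1 := congrFun hef 1
  simp [me, mf, mh, Matrix.vecMul, dotProduct, Fin.sum_univ_two] at e0 e1
  ext j
  fin_cases j
  · exact e0.symm
  · exact e1

lemma sp_mat (z : Mat2 F) (hef : (z * mf F) * me F = z * mh F) : z = 0 := by
  ext i j
  have e0 := congrFun (congrFun hef i) 0
  have e1 := congrFun (congrFun hef i) 1
  simp [me, mf, mh, Matrix.mul_apply, Fin.sum_univ_two] at e0 e1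
  fin_cases j
  · exact e0.symm
  · exact e1

/-- a vector of the target with the properties of the generators of `Y.bim` is zero -/
lemma sp_none (h2 : (2 : F) ≠ 0) (i : Fin 5) (z : (special F i).carrier)
    (h1 : (special F i).right 1 z = z)
    (hef : (special F i).right (me F) ((special F i).right (mf F) z) = (special F i).right (mh F) z)
    (hpr : (special F i).pr z = z) : z = 0 := by
  fin_cases i
  · exact h1.symm
  · exact h1.symm
  · exact sp_row z hef
  · exact sp_mat z hef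
  · have := congrArg (fun A : Module.End F (Matrix (Fin 2) (Fin 3) F) => A z) (six_pr h2)
    exact hpr.symm.trans this

variable (Y : QMod.{u, v} F)

lemma ub_P (h2 : (2 : F) ≠ 0) (y : Y.carrier) : Y.bim.right 1 (ujb Y y) = ujb Y y := by
  apply uin_inj Y
  have e2 := (uin_hom Y).right 1 (ujb Y y)
  refine e2.trans ?_
  have hQ : Y.qm (Y.inv y) = Y.inv (Y.q y) := by
    change Y.inv y - Y.inv (Y.tau (Y.inv y) - Y.q (Y.tau (Y.inv y))) = _
    rw [pr_tau_inv Y h2, map_sub]
    abel
  change (Y.bm 1 (Y.inv y), Y.qm (Y.bm 1 (Y.inv y))) = (Y.inv y, Y.inv (Y.q y))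
  rw [pr_bm_one, hQ]

lemma ub_ef (y : Y.carrier) : Y.bim.right (me F) (Y.bim.right (mf F) (ujb Y y)) =
    Y.bim.right (mh F) (ujb Y y) := by
  apply uin_inj Y
  have e1 := (uin_hom Y).right (me F) (Y.bim.right (mf F) (ujb Y y))
  have e2 := (uin_hom Y).right (mf F) (ujb Y y)
  have e3 := (uin_hom Y).right (mh F) (ujb Y y)
  refine e1.trans (Eq.trans ?_ e3.symm)
  rw [e2]
  have h : ∀ m : Y.V, Y.bm (me F) (Y.bm (mf F) m) = Y.bm (mh F) m := by
    intro m
    ext i j
    fin_cases i <;> fin_cases j <;> simp [QMod.bm, me, mf, mh]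
  change (Y.bm (me F) (Y.bm (mf F) (Y.inv y)), Y.qm (Y.bm (me F) (Y.bm (mf F) (Y.inv y)))) =
    (Y.bm (mh F) (Y.inv y), Y.qm (Y.bm (mh F) (Y.inv y)))
  rw [h]

lemma ub_pr (h2 : (2 : F) ≠ 0) (y : Y.carrier) : Y.bim.pr (ujb Y y) = ujb Y y := by
  have h1 := ubim_pr Y h2 (ujb Y y)
  have h3 : Y.bim.P (ujb Y y) = ujb Y y := ub_P Y h2 y
  rw [h3] at h1
  refine h1.trans ?_
  congr 1
  exact pr_tau_inv Y h2 y

end

theorem s_spec2 : S_spec2.{u, v} := by
  intro F _ h2
  refine ⟨?_, sp_finrank F, ?_⟩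
  · intro i j h
    have hd : Module.finrank F (special F i).carrier = Module.finrank F (special F j).carrier := by
      obtain ⟨φ, -, -⟩ := h
      exact φ.finrank_eq
    rw [sp_finrank, sp_finrank] at hd
    by_contra hij
    have h3 : (i = 1 ∧ j = 2) ∨ (i = 2 ∧ j = 1) := by
      revert hd hij
      fin_cases i <;> fin_cases j <;> simp
    rcases h3 with ⟨rfl, rfl⟩ | ⟨rfl, rfl⟩
    · exact sp_lr h
    · exact sp_lr (Iso.symm h)
  · intro Y hY i h
    obtain ⟨y, hy⟩ := exists_ne (0 : Y.carrier)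
    obtain ⟨Φ, hl, hr⟩ := h
    have hΦ : IsHom (Φ : Y.bim.carrier →ₗ[F] (special F i).carrier) := ⟨hl, hr⟩
    have hz : Φ (ujb Y y) = 0 := by
      refine sp_none h2 i _ ?_ ?_ ?_
      · rw [← hr, ub_P Y h2]
      · rw [← hr, ← hr, ← hr, ub_ef]
      · have := hΦ.pr (ujb Y y)
        simp only [LinearEquiv.coe_coe] at this
        rw [← this, ub_pr Y h2]
    have h3 : ujb Y y = 0 := by
      apply Φ.injective
      rw [hz, map_zero]
    exact hy (ujb_inj Y h2 (by rw [h3, map_zero]))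

end Pool.Agent.H6.RA
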