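import Pool.Agent.H6.RA.Stm

/-!
The projection `pr` in the bimodule `big Y`.
-/

namespace Pool.Agent.H6.RA

universe u v w

section

variable {F : Type u} [Field F] (Y : QMod.{u, v} F)

lemma pr_tau (m : Y.V) : Y.tau m = m 0 1 - m 1 0 := rfl

lemma pr_inv (y : Y.carrier) : Y.inv y =
    !![- Y.x y, (2 : F)⁻¹ • (y - Y.s y); - ((2 : F)⁻¹ • (y + Y.s y)), - Y.z y] := rfl

lemma pr_tau_inv (h2 : (2 : F) ≠ 0) (y : Y.carrier) : Y.tau (Y.inv y) = y := by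
  rw [pr_tau, pr_inv]
  have h : y = ((2 : F)⁻¹ * 2) • y := by rw [inv_mul_cancel₀ h2, one_smul]
  conv_rhs => rw [h]
  simp only [Matrix.of_apply, Matrix.cons_val', Matrix.cons_val_zero, Matrix.cons_val_one,
    Matrix.cons_val_fin_one]
  module

lemma pr_tm_e (m : Y.V) : Y.tm (me F) m =
    !![m 1 0 + m 0 1 + Y.s (Y.tau m), m 1 1 + Y.z (Y.tau m); m 1 1 + Y.z (Y.tau m), 0] := by
  ext i j
  fin_cases i <;> fin_cases j <;> simp [QMod.tm, me, pr_tau, -map_sub]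

lemma pr_tm_f (m : Y.V) : Y.tm (mf F) m =
    !![0, m 0 0 + Y.x (Y.tau m); m 0 0 + Y.x (Y.tau m), m 0 1 + m 1 0 + Y.s (Y.tau m)] := by
  ext i j
  fin_cases i <;> fin_cases j <;> simp [QMod.tm, mf, pr_tau, -map_sub]

lemma pr_tm_h (m : Y.V) : Y.tm (mh F) m - m =
    !![m 0 0 + Y.x (Y.tau m), 0; 0, - Y.z (Y.tau m) - m 1 1] := by
  ext i j
  fin_cases i <;> fin_cases j <;> (simp [QMod.tm, mh, pr_tau, -map_sub]; try abel)

lemma pr_tm_one (m : Y.V) : Y.tm 1 m = m + m := by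
  ext i j
  fin_cases i <;> fin_cases j <;> simp [QMod.tm, -map_sub]

/-- the formula for matrices -/
lemma pr_key (h2 : (2 : F) ≠ 0) (m : Y.V) :
    m - (4 : F)⁻¹ • (Y.tm (me F) (Y.tm (mf F) m) + Y.tm (mf F) (Y.tm (me F) m)) -
      (2 : F)⁻¹ • (Y.tm (mh F) (Y.tm (mh F) m - m) - (Y.tm (mh F) m - m)) = Y.inv (Y.tau m) := by
  have h4 : (4 : F) = 2 * 2 := by norm_num
  rw [pr_tm_h, pr_tm_h, pr_tm_e, pr_tm_f, pr_tm_f, pr_tm_e, pr_inv]
  ext i j
  fin_cases i <;> fin_cases j <;> simp [pr_tau, h4, -map_sub] <;> match_scalars <;> field_simp <;>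
    ring

/-- the operators `T_b` in `big` -/
lemma pr_T (b : Mat2 F) (u w : Y.V) :
    Y.big.T b (u, w) = (Y.tm b w - Y.bm b w + Y.bm b u, Y.tm b w) := by
  change (Y.tm b w - Y.bm b w, Y.tm b w - Y.qm (Y.bm b u)) + (Y.bm b u, Y.qm (Y.bm b u)) = _
  rw [Prod.mk_add_mk, sub_add_cancel]

lemma pr_T_diag (b : Mat2 F) (w : Y.V) : Y.big.T b (w, w) = (Y.tm b w, Y.tm b w) := by
  rw [pr_T, sub_add_cancel]

lemma pr_bm_one (m : Y.V) : Y.bm 1 m = m := by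
  ext i j
  fin_cases i <;> fin_cases j <;> simp [QMod.bm]

lemma pr_E (u w : Y.V) : Y.big.E (u, w) = (w, w) := by
  have h : Y.big.E (u, w) = Y.big.T 1 (u, w) - (id (u, w) : Y.big.carrier) := rfl
  rw [h, pr_T, pr_tm_one, pr_bm_one, pr_bm_one]
  apply Prod.ext
  · change w + w - w + u - u = w
    abel
  · change w + w - w = w
    abel

lemma pr_big (h2 : (2 : F) ≠ 0) (u w : Y.V) :
    Y.big.pr (u, w) = (u - w + Y.inv (Y.tau w), Y.inv (Y.tau w)) := by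
  have h := pr_key Y h2 w
  set W := Y.tm (mh F) (Y.tm (mh F) w - w) - (Y.tm (mh F) w - w) with hW
  set A := Y.tm (me F) (Y.tm (mf F) w) with hA
  set B := Y.tm (mf F) (Y.tm (me F) w) with hB
  have hA' : Y.big.T (me F) (Y.big.T (mf F) (Y.big.E (u, w))) = (A, A) := by
    rw [pr_E, pr_T_diag, pr_T_diag]
  have hB' : Y.big.T (mf F) (Y.big.T (me F) (Y.big.E (u, w))) = (B, B) := by
    rw [pr_E, pr_T_diag, pr_T_diag]
  have hC' : (Y.big.T (mh F) - 1) ((Y.big.T (mh F) - 1) (Y.big.E (u, w))) = (W, W) := by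
    have h1 : ∀ w : Y.V, (Y.big.T (mh F) - 1) (id (w, w) : Y.big.carrier) =
        (Y.tm (mh F) w - w, Y.tm (mh F) w - w) := by
      intro w
      change Y.big.T (mh F) (w, w) - (id (w, w) : Y.big.carrier) = _
      rw [pr_T_diag]
      rfl
    rw [pr_E]
    exact (congrArg _ (h1 w)).trans (h1 _)
  have h1 : Y.big.pr (u, w) = (id (u, w) : Y.big.carrier) -
      (4 : F)⁻¹ • (Y.big.T (me F) (Y.big.T (mf F) (Y.big.E (u, w))) +
        Y.big.T (mf F) (Y.big.T (me F) (Y.big.E (u, w)))) -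
      (2 : F)⁻¹ • ((Y.big.T (mh F) - 1) ((Y.big.T (mh F) - 1) (Y.big.E (u, w)))) := rfl
  rw [h1, hA', hB', hC']
  apply Prod.ext
  · change u - (4 : F)⁻¹ • (A + B) - (2 : F)⁻¹ • W = u - w + Y.inv (Y.tau w)
    rw [← h]
    abel
  · exact h

theorem s_pr : S_pr.{u, v} := by
  intro F _ Y h2 m
  have h1 : Y.qm m = m - Y.inv (Y.tau m - Y.q (Y.tau m)) := rfl
  have h3 : Y.tau (Y.qm m) = Y.q (Y.tau m) := by
    rw [h1, map_sub, pr_tau_inv Y h2]
    abel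
  rw [pr_big Y h2, h3]
  apply Prod.ext
  · change m - Y.qm m + Y.inv (Y.q (Y.tau m)) = Y.inv (Y.tau m)
    rw [h1, map_sub]
    abel
  · rfl

end

end Pool.Agent.H6.RA
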