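import Pool.Agent.H6.RA.Theta
import Pool.Agent.H6.RA.Hom
import Pool.Agent.H6.RA.Pr

/-!
`S_theta`: an irreducible bimodule of the main kind is `N(Y)` for an irreducible `Y`.
-/

namespace Pool.Agent.H6.RA

universe u v w

namespace Bimodule

variable {F : Type u} [Field F] {M : Bimodule.{u, v} F}

lemma Good.theta_hom (h : M.Good) (h2 : (2 : F) ≠ 0) : IsHom (h.theta h2) :=
  ⟨h.theta_left h2, h.theta_right h2⟩

lemma Good.pi_eq (h : M.Good) (h2 : (2 : F) ≠ 0) (m : M.carrier) :
    (h.ymod h2).tau (h.theta h2 m).1 = M.pi m := h.tau_th h2 m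

/-- the generators are in the range -/
lemma Good.jmap_mem (h : M.Good) (h2 : (2 : F) ≠ 0) (y : (h.ymod h2).carrier) :
    ∃ m, h.theta h2 m = (h.ymod h2).jmap y := by
  obtain ⟨m, rfl⟩ := M.ker'.mkQ_surjective y
  refine ⟨M.pr (M.P m), ?_⟩
  rw [(h.theta_hom h2).pr, h.theta_apply, h.th_E h2 (h.pp m), s_pr F _ h2, h.th_P, h.tau_th]

end Bimodule

open Bimodule

theorem s_theta : S_theta.{u, v} := by
  intro F _ M h2 h hirr hk
  have hh := h.theta_hom h2
  -- injectivity
  have hinj : LinearMap.ker (h.theta h2) = ⊥ := by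
    rcases hirr.2 _ hh.ker_isSub with h1 | h1
    · exact h1
    · exfalso
      apply hk
      rw [eq_top_iff]
      intro m _
      have h3 : h.theta h2 m = 0 := by
        rw [← LinearMap.mem_ker, h1]; trivial
      have h4 := h.pi_eq h2 m
      rw [h3] at h4
      have h5 : M.pi m = 0 := by
        rw [← h4]; exact map_zero _
      rwa [Submodule.mkQ_apply, Submodule.Quotient.mk_eq_zero] at h5
  have hinj' : Function.Injective (h.theta h2) := LinearMap.ker_eq_bot.1 hinj
  -- nontriviality of Y
  have hnt : Nontrivial (h.ymod h2).carrier := Submodule.Quotient.nontrivial_iff.2 hk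
  refine ⟨h.ymod h2, ⟨hnt, ?_⟩, ?_⟩
  · -- irreducibility
    intro N hN
    let K : Submodule F M.carrier :=
      { carrier := {m | (∀ i j, (h.theta h2 m).1 i j ∈ N) ∧ ∀ i j, (h.theta h2 m).2 i j ∈ N}
        add_mem' := by
          rintro a b ⟨h3, h4⟩ ⟨h5, h6⟩
          constructor
          · intro i j
            have := N.add_mem (h3 i j) (h5 i j)
            rw [map_add]; exact this
          · intro i j
            have := N.add_mem (h4 i j) (h6 i j)
            rw [map_add]; exact this
        zero_mem' := by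
          constructor
          · intro i j; rw [map_zero]; exact N.zero_mem
          · intro i j; rw [map_zero]; exact N.zero_mem
        smul_mem' := by
          rintro c a ⟨h3, h4⟩
          constructor
          · intro i j
            have := N.smul_mem c (h3 i j)
            rw [map_smul]; exact this
          · intro i j
            have := N.smul_mem c (h4 i j)
            rw [map_smul]; exact this }
    have hbm : ∀ (b : Mat2 F) (m : (h.ymod h2).V), (∀ i j, m i j ∈ N) →
        ∀ i j, (h.ymod h2).bm b m i j ∈ N := by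
      intro b m hm i j
      fin_cases i <;> fin_cases j
      · exact N.add_mem (N.smul_mem _ (hm 0 0)) (N.smul_mem _ (hm 1 0))
      · exact N.add_mem (N.smul_mem _ (hm 0 1)) (N.smul_mem _ (hm 1 1))
      · exact N.add_mem (N.smul_mem _ (hm 0 0)) (N.smul_mem _ (hm 1 0))
      · exact N.add_mem (N.smul_mem _ (hm 0 1)) (N.smul_mem _ (hm 1 1))
    have htau : ∀ m : (h.ymod h2).V, (∀ i j, m i j ∈ N) → m 0 1 - m 1 0 ∈ N :=
      fun m hm => N.sub_mem (hm 0 1) (hm 1 0)
    have htm : ∀ (b : Mat2 F) (m : (h.ymod h2).V), (∀ i j, m i j ∈ N) →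
        ∀ i j, (h.ymod h2).tm b m i j ∈ N := by
      intro b m hm i j
      have ht := hN _ (htau m hm)
      fin_cases i <;> fin_cases j
      · exact N.add_mem (N.add_mem (N.add_mem (N.smul_mem _ (hm 0 0)) (N.smul_mem _ (hm 1 0)))
          (N.add_mem (N.smul_mem _ (hm 0 0)) (N.smul_mem _ (hm 0 1))))
          (N.add_mem (N.smul_mem _ ht.1) (N.smul_mem _ ht.2.1))
      · exact N.add_mem (N.add_mem (N.add_mem (N.smul_mem _ (hm 0 1)) (N.smul_mem _ (hm 1 1)))
          (N.add_mem (N.smul_mem _ (hm 0 0)) (N.smul_mem _ (hm 0 1))))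
          (N.add_mem (N.smul_mem _ ht.1) (N.smul_mem _ ht.2.2.1))
      · exact N.add_mem (N.add_mem (N.add_mem (N.smul_mem _ (hm 0 0)) (N.smul_mem _ (hm 1 0)))
          (N.add_mem (N.smul_mem _ (hm 1 0)) (N.smul_mem _ (hm 1 1))))
          (N.add_mem (N.smul_mem _ ht.1) (N.smul_mem _ ht.2.2.1))
      · exact N.add_mem (N.add_mem (N.add_mem (N.smul_mem _ (hm 0 1)) (N.smul_mem _ (hm 1 1)))
          (N.add_mem (N.smul_mem _ (hm 1 0)) (N.smul_mem _ (hm 1 1))))
          (N.add_mem (N.smul_mem _ ht.2.1) (N.smul_mem _ ht.2.2.1))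
    have hinv : ∀ y ∈ N, ∀ i j, (h.ymod h2).inv y i j ∈ N := by
      intro y hy i j
      have ht := hN _ hy
      fin_cases i <;> fin_cases j
      · exact N.neg_mem ht.1
      · exact N.smul_mem _ (N.sub_mem hy ht.2.1)
      · exact N.neg_mem (N.smul_mem _ (N.add_mem hy ht.2.1))
      · exact N.neg_mem ht.2.2.1
    have hqm : ∀ m : (h.ymod h2).V, (∀ i j, m i j ∈ N) → ∀ i j, (h.ymod h2).qm m i j ∈ N := by
      intro m hm i j
      have h3 := htau m hm
      exact N.sub_mem (hm i j) (hinv _ (N.sub_mem h3 (hN _ h3).2.2.2) i j)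
    have hK : M.IsSubBimodule K := by
      rintro a m ⟨h3, h4⟩
      constructor
      · refine ⟨?_, ?_⟩
        · intro i j
          rw [hh.left]
          exact N.sub_mem (htm a _ h4 i j) (hbm a _ h4 i j)
        · intro i j
          rw [hh.left]
          exact N.sub_mem (htm a _ h4 i j) (hqm _ (hbm a _ h3) i j)
      · refine ⟨?_, ?_⟩
        · intro i j
          rw [hh.right]
          exact hbm a _ h3 i j
        · intro i j
          rw [hh.right]
          exact hqm _ (hbm a _ h3) i j
    rcases hirr.2 K hK with h3 | h3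
    · left
      rw [eq_bot_iff]
      intro y hy
      obtain ⟨m, hm⟩ := h.jmap_mem h2 y
      have hmK : m ∈ K := by
        refine ⟨?_, ?_⟩
        · intro i j
          rw [hm]
          exact hinv y hy i j
        · intro i j
          rw [hm]
          exact hinv _ (hN y hy).2.2.2 i j
      rw [h3, Submodule.mem_bot] at hmK
      rw [hmK, map_zero] at hm
      have h4 : (h.ymod h2).tau ((h.ymod h2).jmap y).1 = y := pr_tau_inv _ h2 y
      rw [← hm] at h4
      rw [Submodule.mem_bot, ← h4]
      exact map_zero _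
    · right
      rw [eq_top_iff]
      intro y _
      obtain ⟨m, rfl⟩ := M.ker'.mkQ_surjective y
      have hmK : m ∈ K := by rw [h3]; trivial
      have := htau _ hmK.1
      have h4 : (h.theta h2 m).1 0 1 - (h.theta h2 m).1 1 0 = M.pi m := h.pi_eq h2 m
      rwa [h4] at this
  · -- the isomorphism
    have hle : (h.ymod h2).big.gen (Set.range (h.ymod h2).jmap) ≤ LinearMap.range (h.theta h2) := by
      apply gen_le _ hh.range_isSub
      rintro _ ⟨y, rfl⟩
      exact h.jmap_mem h2 y
    have hge : LinearMap.range (h.theta h2) ≤ (h.ymod h2).big.gen (Set.range (h.ymod h2).jmap) := by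
      have hsub := hh.comap_isSub ((h.ymod h2).big.gen_isSub (Set.range (h.ymod h2).jmap))
      rcases hirr.2 _ hsub with h3 | h3
      · exfalso
        obtain ⟨y, hy⟩ := exists_ne (0 : (h.ymod h2).carrier)
        obtain ⟨m, hm⟩ := h.jmap_mem h2 y
        have h4 : m ∈ ((h.ymod h2).big.gen (Set.range (h.ymod h2).jmap)).comap (h.theta h2) := by
          rw [Submodule.mem_comap, hm]
          exact subset_gen _ _ ⟨y, rfl⟩
        rw [h3, Submodule.mem_bot] at h4
        rw [h4, map_zero] at hm
        apply hy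
        have h5 : (h.ymod h2).tau ((h.ymod h2).jmap y).1 = y := pr_tau_inv _ h2 y
        rw [← hm] at h5
        rw [← h5]
        exact map_zero _
      · rintro _ ⟨m, rfl⟩
        have : m ∈ ((h.ymod h2).big.gen (Set.range (h.ymod h2).jmap)).comap (h.theta h2) := by
          rw [h3]; trivial
        exact this
    have hmem : ∀ m, h.theta h2 m ∈ (h.ymod h2).big.gen (Set.range (h.ymod h2).jmap) :=
      fun m => hge ⟨m, rfl⟩
    refine ⟨LinearEquiv.ofBijective ((h.theta h2).codRestrict _ hmem) ⟨?_, ?_⟩, ?_, ?_⟩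
    · intro a b hab
      exact hinj' (congrArg Subtype.val hab)
    · rintro ⟨p, hp⟩
      obtain ⟨m, hm⟩ := hle hp
      exact ⟨m, Subtype.ext hm⟩
    · intro a m
      exact Subtype.ext (hh.left a m)
    · intro a m
      exact Subtype.ext (hh.right a m)

end Pool.Agent.H6.RA
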