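import Pool.Agent.H6.RA.Hom
import Pool.Agent.H6.RA.Pr

/-!
The bimodule `Y.bim` determines `Y`.
-/

namespace Pool.Agent.H6.RA

universe u v w

open Bimodule

section

variable {F : Type u} [Field F] (Y : QMod.{u, v} F)

/-- the generators in `bim` -/
def ujb : Y.carrier →ₗ[F] Y.bim.carrier :=
  LinearMap.codRestrict _ Y.jmap fun y => Y.big.subset_gen _ ⟨y, rfl⟩

/-- the inclusion of `bim` in `big` -/
def uin : Y.bim.carrier →ₗ[F] Y.big.carrier := (Y.big.gen (Set.range Y.jmap)).subtype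

lemma uin_hom : IsHom (uin Y) := isHom_subtype _ _

lemma uin_inj : Function.Injective (uin Y) := Subtype.val_injective

lemma uin_ujb (y : Y.carrier) : uin Y (ujb Y y) = Y.jmap y := rfl

lemma ujb_inj (h2 : (2 : F) ≠ 0) : Function.Injective (ujb Y) := by
  intro y y' h
  have h1 := congrArg (fun v => Y.tau (uin Y v).1) h
  simp only [uin_ujb] at h1
  change Y.tau (Y.inv y) = Y.tau (Y.inv y') at h1
  rwa [pr_tau_inv Y h2, pr_tau_inv Y h2] at h1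

lemma upr (h2 : (2 : F) ≠ 0) (m : Y.V) : Y.big.pr (m, Y.qm m) = Y.jmap (Y.tau m) :=
  s_pr F Y h2 m

/-- `pr (P v) = j (τ v.1)` in `bim` -/
lemma ubim_pr (h2 : (2 : F) ≠ 0) (v : Y.bim.carrier) :
    Y.bim.pr (Y.bim.P v) = ujb Y (Y.tau (uin Y v).1) := by
  apply uin_inj Y
  have e1 := (uin_hom Y).pr (Y.bim.P v)
  have e2 := (uin_hom Y).P v
  have e3 : Y.big.P (uin Y v) = ((uin Y v).1, Y.qm (uin Y v).1) := by
    change (Y.bm 1 (uin Y v).1, Y.qm (Y.bm 1 (uin Y v).1)) = _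
    rw [pr_bm_one]
  refine e1.trans ?_
  rw [e2, e3]
  exact upr Y h2 _

lemma ubim_R (h2 : (2 : F) ≠ 0) (b : Mat2 F) (y : Y.carrier) :
    Y.bim.pr (Y.bim.right b (ujb Y y)) = ujb Y (Y.tau (Y.bm b (Y.inv y))) := by
  apply uin_inj Y
  have e1 := (uin_hom Y).pr (Y.bim.right b (ujb Y y))
  have e2 := (uin_hom Y).right b (ujb Y y)
  have e3 : Y.big.right b (uin Y (ujb Y y)) =
    (Y.bm b (Y.inv y), Y.qm (Y.bm b (Y.inv y))) := rfl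
  refine e1.trans ?_
  rw [e2, e3]
  exact upr Y h2 _

lemma utau_f (y : Y.carrier) : Y.tau (Y.bm (mf F) (Y.inv y)) = Y.x y := by
  simp [QMod.tau, QMod.bm, mf, QMod.inv]

lemma utau_e (y : Y.carrier) : Y.tau (Y.bm (me F) (Y.inv y)) = - Y.z y := by
  simp [QMod.tau, QMod.bm, me, QMod.inv]

lemma utau_h (y : Y.carrier) : Y.tau (Y.bm (mh F) (Y.inv y)) = (2 : F)⁻¹ • (y - Y.s y) := by
  simp [QMod.tau, QMod.bm, mh, QMod.inv]

lemma ubim_L (h2 : (2 : F) ≠ 0) (y : Y.carrier) :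
    Y.bim.left 1 (ujb Y y) = ujb Y (Y.q y) := by
  apply uin_inj Y
  rw [(uin_hom Y).left, uin_ujb, uin_ujb]
  have hQ : Y.qm (Y.inv y) = Y.inv (Y.q y) := by
    change Y.inv y - Y.inv (Y.tau (Y.inv y) - Y.q (Y.tau (Y.inv y))) = _
    rw [pr_tau_inv Y h2, map_sub]
    abel
  change (Y.tm 1 (Y.inv (Y.q y)) - Y.bm 1 (Y.inv (Y.q y)),
    Y.tm 1 (Y.inv (Y.q y)) - Y.qm (Y.bm 1 (Y.inv y))) = (Y.inv (Y.q y), Y.inv (Y.q (Y.q y)))
  rw [pr_tm_one, pr_bm_one, pr_bm_one, hQ, Y.idem, add_sub_cancel_right]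

end

section

variable {F : Type u} [Field F] {Y : QMod.{u, v} F} {Y' : QMod.{u, w} F}

/-- the map on generators -/
def upsi (Φ : Y.bim.carrier ≃ₗ[F] Y'.bim.carrier) : Y.carrier →ₗ[F] Y'.carrier :=
  Y'.tau ∘ₗ LinearMap.fst F Y'.V Y'.V ∘ₗ uin Y' ∘ₗ (Φ : Y.bim.carrier →ₗ[F] Y'.bim.carrier) ∘ₗ ujb Y

lemma upsi_spec (h2 : (2 : F) ≠ 0) (Φ : Y.bim.carrier ≃ₗ[F] Y'.bim.carrier)
    (hΦ : IsHom (Φ : Y.bim.carrier →ₗ[F] Y'.bim.carrier)) (y : Y.carrier) :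
    Φ (ujb Y y) = ujb Y' (upsi Φ y) := by
  have h1 : Y.bim.pr (Y.bim.P (ujb Y y)) = ujb Y y := by
    rw [ubim_pr Y h2]
    congr 1
    exact pr_tau_inv Y h2 y
  calc Φ (ujb Y y) = Φ (Y.bim.pr (Y.bim.P (ujb Y y))) := by rw [h1]
    _ = Y'.bim.pr (Y'.bim.P (Φ (ujb Y y))) := by
        have := hΦ.pr (Y.bim.P (ujb Y y))
        have h3 := hΦ.P (ujb Y y)
        simp only [LinearEquiv.coe_coe] at this h3
        rw [this, h3]
    _ = ujb Y' (upsi Φ y) := ubim_pr Y' h2 _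

lemma uiso_of (h2 : (2 : F) ≠ 0) (h : Y.bim.Iso Y'.bim) : Y.Iso Y' := by
  obtain ⟨Φ, hl, hr⟩ := h
  have hΦ : IsHom (Φ : Y.bim.carrier →ₗ[F] Y'.bim.carrier) := ⟨hl, hr⟩
  have hΦ' : IsHom (Φ.symm : Y'.bim.carrier →ₗ[F] Y.bim.carrier) := by
    refine ⟨fun a m => ?_, fun a m => ?_⟩
    · change Φ.symm _ = Y.bim.left a (Φ.symm m)
      apply Φ.injective; rw [hl, Φ.apply_symm_apply, Φ.apply_symm_apply]
    · change Φ.symm _ = Y.bim.right a (Φ.symm m)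
      apply Φ.injective; rw [hr, Φ.apply_symm_apply, Φ.apply_symm_apply]
  have s1 := upsi_spec h2 Φ hΦ
  have s2 := upsi_spec h2 Φ.symm hΦ'
  have c1 : ∀ y, upsi Φ.symm (upsi Φ y) = y := by
    intro y
    apply ujb_inj Y h2
    rw [← s2, ← s1, Φ.symm_apply_apply]
  have c2 : ∀ y, upsi Φ (upsi Φ.symm y) = y := by
    intro y
    apply ujb_inj Y' h2
    rw [← s1, ← s2, Φ.apply_symm_apply]
  have hR : ∀ (b : Mat2 F) (y : Y.carrier),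
      upsi Φ (Y.tau (Y.bm b (Y.inv y))) = Y'.tau (Y'.bm b (Y'.inv (upsi Φ y))) := by
    intro b y
    apply ujb_inj Y' h2
    rw [← s1, ← ubim_R Y h2, ← ubim_R Y' h2, ← s1]
    have e1 := hΦ.pr (Y.bim.right b (ujb Y y))
    have e2 := hΦ.right b (ujb Y y)
    simp only [LinearEquiv.coe_coe] at e1 e2
    rw [e1, e2]
  refine ⟨LinearEquiv.ofLinearMap (upsi Φ) (upsi Φ.symm) (LinearMap.ext c2) (LinearMap.ext c1),
    fun y => ⟨?_, ?_, ?_, ?_⟩⟩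
  · change upsi Φ (Y.x y) = Y'.x (upsi Φ y)
    have := hR (mf F) y
    rwa [utau_f, utau_f] at this
  · change upsi Φ (Y.s y) = Y'.s (upsi Φ y)
    have := hR (mh F) y
    rw [utau_h, utau_h, map_smul, map_sub] at this
    have h3 := smul_right_injective Y'.carrier (inv_ne_zero h2) this
    exact sub_right_injective h3
  · change upsi Φ (Y.z y) = Y'.z (upsi Φ y)
    have := hR (me F) y
    rw [utau_e, utau_e, map_neg] at this
    exact neg_injective this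
  · change upsi Φ (Y.q y) = Y'.q (upsi Φ y)
    apply ujb_inj Y' h2
    rw [← s1, ← ubim_L Y h2, ← ubim_L Y' h2, ← s1]
    exact hl 1 (ujb Y y)

/-- the map of the `big`s -/
def ubig (φ : Y.carrier ≃ₗ[F] Y'.carrier) : Y.big.carrier ≃ₗ[F] Y'.big.carrier :=
  LinearEquiv.prodCongr (φ.mapMatrix (m := Fin 2) (n := Fin 2))
    (φ.mapMatrix (m := Fin 2) (n := Fin 2))

lemma uinv_map (φ : Y.carrier ≃ₗ[F] Y'.carrier)
    (h : ∀ y, φ (Y.x y) = Y'.x (φ y) ∧ φ (Y.s y) = Y'.s (φ y) ∧ φ (Y.z y) = Y'.z (φ y) ∧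
      φ (Y.q y) = Y'.q (φ y)) (y : Y.carrier) : (Y.inv y).map φ = Y'.inv (φ y) := by
  ext i j
  fin_cases i <;> fin_cases j <;>
    simp [QMod.inv, (h y).1, (h y).2.1, (h y).2.2.1]

lemma ubm_map (φ : Y.carrier ≃ₗ[F] Y'.carrier) (b : Mat2 F) (m : Y.V) :
    (Y.bm b m).map φ = Y'.bm b (m.map φ) := by
  ext i j
  fin_cases i <;> fin_cases j <;> simp [QMod.bm]

lemma utm_map (φ : Y.carrier ≃ₗ[F] Y'.carrier)
    (h : ∀ y, φ (Y.x y) = Y'.x (φ y) ∧ φ (Y.s y) = Y'.s (φ y) ∧ φ (Y.z y) = Y'.z (φ y) ∧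
      φ (Y.q y) = Y'.q (φ y)) (b : Mat2 F) (m : Y.V) :
    (Y.tm b m).map φ = Y'.tm b (m.map φ) := by
  ext i j
  fin_cases i <;> fin_cases j <;>
    simp [QMod.tm, (h _).1, (h _).2.1, (h _).2.2.1]

lemma utau_map (φ : Y.carrier ≃ₗ[F] Y'.carrier) (m : Y.V) :
    Y'.tau (m.map φ) = φ (Y.tau m) := by
  simp [QMod.tau]

lemma uqm_map (φ : Y.carrier ≃ₗ[F] Y'.carrier)
    (h : ∀ y, φ (Y.x y) = Y'.x (φ y) ∧ φ (Y.s y) = Y'.s (φ y) ∧ φ (Y.z y) = Y'.z (φ y) ∧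
      φ (Y.q y) = Y'.q (φ y)) (m : Y.V) : (Y.qm m).map φ = Y'.qm (m.map φ) := by
  have e1 : Y.qm m = m - Y.inv (Y.tau m - Y.q (Y.tau m)) := rfl
  have e2 : Y'.qm (m.map φ) = m.map φ - Y'.inv (Y'.tau (m.map φ) - Y'.q (Y'.tau (m.map φ))) := rfl
  rw [e1, e2, utau_map, ← (h _).2.2.2, ← map_sub φ, ← uinv_map φ h]
  ext i j
  simp

lemma ubig_hom (φ : Y.carrier ≃ₗ[F] Y'.carrier)
    (h : ∀ y, φ (Y.x y) = Y'.x (φ y) ∧ φ (Y.s y) = Y'.s (φ y) ∧ φ (Y.z y) = Y'.z (φ y) ∧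
      φ (Y.q y) = Y'.q (φ y)) : IsHom (ubig φ : Y.big.carrier →ₗ[F] Y'.big.carrier) := by
  refine ⟨?_, ?_⟩
  · rintro b ⟨p, r⟩
    change ((Y.tm b r - Y.bm b r).map φ, (Y.tm b r - Y.qm (Y.bm b p)).map φ) =
      (Y'.tm b (r.map φ) - Y'.bm b (r.map φ), Y'.tm b (r.map φ) - Y'.qm (Y'.bm b (p.map φ)))
    rw [← utm_map φ h, ← ubm_map φ, ← ubm_map φ, ← uqm_map φ h]
    apply Prod.ext
    · ext i j; simp
    · ext i j; simp
  · rintro b ⟨p, r⟩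
    change ((Y.bm b p).map φ, (Y.qm (Y.bm b p)).map φ) =
      (Y'.bm b (p.map φ), Y'.qm (Y'.bm b (p.map φ)))
    rw [← ubm_map φ, ← uqm_map φ h]

lemma ubig_j (φ : Y.carrier ≃ₗ[F] Y'.carrier)
    (h : ∀ y, φ (Y.x y) = Y'.x (φ y) ∧ φ (Y.s y) = Y'.s (φ y) ∧ φ (Y.z y) = Y'.z (φ y) ∧
      φ (Y.q y) = Y'.q (φ y)) (y : Y.carrier) : ubig φ (Y.jmap y) = Y'.jmap (φ y) := by
  change ((Y.inv y).map φ, (Y.inv (Y.q y)).map φ) = (Y'.inv (φ y), Y'.inv (Y'.q (φ y)))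
  rw [uinv_map φ h, uinv_map φ h, (h y).2.2.2]

lemma ugen_le (φ : Y.carrier ≃ₗ[F] Y'.carrier)
    (h : ∀ y, φ (Y.x y) = Y'.x (φ y) ∧ φ (Y.s y) = Y'.s (φ y) ∧ φ (Y.z y) = Y'.z (φ y) ∧
      φ (Y.q y) = Y'.q (φ y)) : Y.big.gen (Set.range Y.jmap) ≤
      (Y'.big.gen (Set.range Y'.jmap)).comap (ubig φ : Y.big.carrier →ₗ[F] Y'.big.carrier) := by
  refine gen_le _ ((ubig_hom φ h).comap_isSub (gen_isSub _ _)) ?_
  rintro _ ⟨y, rfl⟩
  change ubig φ (Y.jmap y) ∈ Y'.big.gen (Set.range Y'.jmap)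
  rw [ubig_j φ h]
  exact subset_gen _ _ ⟨_, rfl⟩

lemma ubim_of (h : Y.Iso Y') : Y.bim.Iso Y'.bim := by
  obtain ⟨φ, h⟩ := h
  have h' : ∀ y, φ.symm (Y'.x y) = Y.x (φ.symm y) ∧ φ.symm (Y'.s y) = Y.s (φ.symm y) ∧
      φ.symm (Y'.z y) = Y.z (φ.symm y) ∧ φ.symm (Y'.q y) = Y.q (φ.symm y) := by
    intro y
    obtain ⟨a1, a2, a3, a4⟩ := h (φ.symm y)
    refine ⟨?_, ?_, ?_, ?_⟩
    · rw [φ.symm_apply_eq, a1, φ.apply_symm_apply]
    · rw [φ.symm_apply_eq, a2, φ.apply_symm_apply]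
    · rw [φ.symm_apply_eq, a3, φ.apply_symm_apply]
    · rw [φ.symm_apply_eq, a4, φ.apply_symm_apply]
  have hmap : (Y.big.gen (Set.range Y.jmap)).map (ubig φ : Y.big.carrier →ₗ[F] Y'.big.carrier) =
      Y'.big.gen (Set.range Y'.jmap) := by
    apply le_antisymm
    · rw [Submodule.map_le_iff_le_comap]
      exact ugen_le φ h
    · intro p hp
      have h1 := ugen_le φ.symm h' hp
      refine ⟨ubig φ.symm p, h1, ?_⟩
      obtain ⟨p, r⟩ := p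
      change (((p.map φ.symm).map φ : Y'.V), ((r.map φ.symm).map φ : Y'.V)) = (p, r)
      apply Prod.ext
      · ext i j; simp
      · ext i j; simp
  refine ⟨LinearEquiv.ofSubmodules (ubig φ) _ _ hmap, fun a m => ?_, fun a m => ?_⟩
  · apply Subtype.ext
    exact (ubig_hom φ h).left a m.1
  · apply Subtype.ext
    exact (ubig_hom φ h).right a m.1

end

theorem s_uniq : S_uniq.{u, v, w} := fun _ _ _ _ h2 => ⟨uiso_of h2, ubim_of⟩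

end Pool.Agent.H6.RA
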