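import Pool.Agent.H6.RA.Assoc
import Pool.Agent.H6.RA.Red
import Pool.Agent.H6.RA.Uniq
import Pool.Agent.H6.RA.Spec1
import Pool.Agent.H6.RA.Spec2
import Pool.Agent.H6.RA.Bim
import Pool.Agent.H6.RA.Theta2
import Pool.Agent.H6.RA.Six

/-!
Transfer of the classification from the bundled bimodules (`Bimodule`) to `Bimod`.
-/

namespace Pool.Agent.H6.RA

universe u v w v'

lemma Bimodule.Iso.trans' {F : Type u} [Field F] {M : Bimodule.{u, v} F} {M' : Bimodule.{u, w} F}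
    {M'' : Bimodule.{u, v'} F} (h : M.Iso M') (h' : M'.Iso M'') : M.Iso M'' := by
  obtain ⟨φ, h1, h2⟩ := h
  obtain ⟨ψ, h3, h4⟩ := h'
  refine ⟨φ.trans ψ, fun a m => ?_, fun a m => ?_⟩
  · rw [LinearEquiv.trans_apply, LinearEquiv.trans_apply, h1, h3]
  · rw [LinearEquiv.trans_apply, LinearEquiv.trans_apply, h2, h4]

namespace Bimod

variable {F : Type u} [Field F]

/-- The bimodule with bundled actions. -/
def hv (M : Bimod.{u, v} F) : Bimodule.{u, v} F where
  carrier := M.carrier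
  left := LinearMap.mk₂ F M.left M.left_bilin.add_left M.left_bilin.smul_left
    M.left_bilin.add_right M.left_bilin.smul_right
  right := LinearMap.mk₂ F M.right M.right_bilin.add_left M.right_bilin.smul_left
    M.right_bilin.add_right M.right_bilin.smul_right

lemma hv_ra (M : Bimod.{u, v} F) : M.hv.IsRightAlternative ↔ M.IsRightAlternative := Iff.rfl

lemma hv_irr (M : Bimod.{u, v} F) : M.hv.IsIrreducible ↔ M.IsIrreducible := Iff.rfl

lemma hv_iso (M : Bimod.{u, v} F) (M' : Bimod.{u, w} F) : M.hv.Iso M'.hv ↔ M.Iso M' :=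
  ⟨fun ⟨φ, h1, h2⟩ => ⟨φ, fun a m => ⟨h1 a m, h2 a m⟩⟩,
    fun ⟨φ, h⟩ => ⟨φ, fun a m => (h a m).1, fun a m => (h a m).2⟩⟩

end Bimod

section

variable {F : Type u} [Field F]

lemma iso_of_refl (M : Bimodule.{u, v} F) (M' : Bimod.{u, v} F) (φ : M.carrier ≃ₗ[F] M'.carrier)
    (h1 : ∀ a m, φ (M.left a m) = M'.left a (φ m))
    (h2 : ∀ a m, φ (M.right a m) = M'.right a (φ m)) : M.Iso M'.hv := ⟨φ, h1, h2⟩

lemma special_hv (i : Fin 5) : (special F i).Iso (specialB F i).hv := by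
  fin_cases i
  · exact iso_of_refl (zeroBim F) (zeroB F) (LinearEquiv.refl F F) (fun _ _ => rfl) fun _ _ => rfl
  · exact iso_of_refl (leftBim F) (leftB F) (LinearEquiv.refl F (Fin 2 → F)) (fun _ _ => rfl)
      fun _ _ => rfl
  · exact iso_of_refl (rightBim F) (rightB F) (LinearEquiv.refl F (Fin 2 → F)) (fun _ _ => rfl)
      fun _ _ => rfl
  · exact iso_of_refl (regBim F) (regB F) (LinearEquiv.refl F (Mat2 F)) (fun _ _ => rfl)
      fun _ _ => rfl
  · exact iso_of_refl (sixBim F) (sixB F) (LinearEquiv.refl F (Matrix (Fin 2) (Fin 3) F))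
      (fun _ _ => rfl) fun _ _ => rfl

lemma gen_hv (Y : QMod.{u, v} F) : (Y.big.gen (Set.range Y.jmap) : Submodule F (Y.V × Y.V)) =
    Y.pairs.gen (Set.range fun y => (Y.invFun y, Y.invFun (Y.q y))) := rfl

lemma bim_hv (Y : QMod.{u, v} F) : Y.bim.Iso Y.N.hv :=
  iso_of_refl Y.bim Y.N (LinearEquiv.refl F Y.N.carrier) (fun _ _ => rfl) fun _ _ => rfl

lemma special_ra (i : Fin 5) :
    (special F i).IsRightAlternative ↔ (specialB F i).IsRightAlternative := by
  fin_cases i <;> exact Iff.rfl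

lemma special_irr (i : Fin 5) : (special F i).IsIrreducible ↔ (specialB F i).IsIrreducible := by
  fin_cases i <;> exact Iff.rfl

lemma special_rank (i : Fin 5) :
    Module.finrank F (special F i).carrier = Module.finrank F (specialB F i).carrier := by
  fin_cases i <;> rfl

end

/-- The classification for `Bimod`. -/
theorem main_light (F : Type u) [Field F] (h2 : (2 : F) ≠ 0) :
    (∀ i : Fin 5, (specialB F i).IsRightAlternative ∧ (specialB F i).IsIrreducible ∧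
      Module.finrank F (specialB F i).carrier = ![1, 2, 2, 4, 6] i) ∧
    (∀ Y : QMod.{u, v} F, Y.IsIrreducible → Y.N.IsRightAlternative ∧ Y.N.IsIrreducible ∧
      (FiniteDimensional F Y.N.carrier ↔ FiniteDimensional F Y.carrier)) ∧
    (∀ M : Bimod.{u, v} F, M.IsRightAlternative → M.IsIrreducible →
      (∃ i : Fin 5, M.Iso (specialB F i)) ∨
        ∃ Y : QMod.{u, v} F, Y.IsIrreducible ∧ M.Iso Y.N) ∧
    (∀ i j : Fin 5, (specialB F i).Iso (specialB F j) → i = j) ∧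
    (∀ Y : QMod.{u, v} F, Y.IsIrreducible → ∀ i : Fin 5, ¬ Y.N.Iso (specialB F i)) ∧
    (∀ (Y : QMod.{u, v} F) (Y' : QMod.{u, w} F), Y.N.Iso Y'.N ↔ Y.Iso Y') := by
  obtain ⟨h3, h4, h5, h6, h7, h8⟩ :=
    main.{u, v, w} s_assoc s_spec1 s_spec2 s_bim s_uniq s_red s_theta s_six F h2
  refine ⟨fun i => ?_, fun Y hY => ?_, fun M hM hM' => ?_, fun i j h => ?_, fun Y hY i h => ?_,
    fun Y Y' => ?_⟩
  · exact ⟨(special_ra i).1 (h3 i).1, (special_irr i).1 (h3 i).2.1,
      (special_rank i).symm.trans (h3 i).2.2⟩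
  · exact ⟨(h4 Y hY).1, (h4 Y hY).2.1, (h4 Y hY).2.2⟩
  · rcases h5 M.hv hM hM' with ⟨i, hi⟩ | ⟨Y, hY, hi⟩
    · exact Or.inl ⟨i, (Bimod.hv_iso _ _).1 (hi.trans' (special_hv i))⟩
    · exact Or.inr ⟨Y, hY, (Bimod.hv_iso _ _).1 (hi.trans' (bim_hv Y))⟩
  · exact h6 i j (((special_hv i).trans' ((Bimod.hv_iso _ _).2 h)).trans' (special_hv j).symm)
  · exact h7 Y hY i (((bim_hv Y).trans' ((Bimod.hv_iso _ _).2 h)).trans' (special_hv i).symm)
  · rw [← h8 Y Y']
    exact ⟨fun h => ((bim_hv Y).trans' ((Bimod.hv_iso _ _).2 h)).trans' (bim_hv Y').symm,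
      fun h => (Bimod.hv_iso _ _).1 (((bim_hv Y).symm.trans' h).trans' (bim_hv Y'))⟩

end Pool.Agent.H6.RA
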