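import Pool.Agent.H6.RA.Defs

/-!
Project RA (MP_cf4f28_al Q1, characteristic not two): fixed statements `S_…` of the modules.
A writer proves `theorem s_x : S_x := …` in his own file `Pool/Agent/H6/RA/X.lean`.
-/

namespace Pool.Agent.H6.RA

universe u v w

/-- matrix units -/
def me (F : Type u) [Field F] : Mat2 F := !![0, 1; 0, 0]
def mf (F : Type u) [Field F] : Mat2 F := !![0, 0; 1, 0]
def mh (F : Type u) [Field F] : Mat2 F := !![1, 0; 0, 0]

namespace Bimodule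

variable {F : Type u} [Field F] (M : Bimodule.{u, v} F)

/-- `T_b = L_b + R_b` -/
def T : Mat2 F →ₗ[F] Module.End F M.carrier := M.left + M.right

/-- `P = R_1` -/
def P : Module.End F M.carrier := M.right 1

/-- `E = T_1 - 1` -/
def E : Module.End F M.carrier := M.T 1 - 1

/-- the operator `1 - (T_e T_f E + T_f T_e E)/4 - (T_h - 1)² E/2` -/
def pr : Module.End F M.carrier :=
  1 - (4 : F)⁻¹ • (M.T (me F) * M.T (mf F) * M.E + M.T (mf F) * M.T (me F) * M.E)
    - (2 : F)⁻¹ • ((M.T (mh F) - 1) * (M.T (mh F) - 1) * M.E)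

/-- the relations of an associative bimodule (not necessarily unital) -/
structure IsAssoc : Prop where
  ll : ∀ a b, M.left a * M.left b = M.left (a * b)
  rr : ∀ a b, M.right b * M.right a = M.right (a * b)
  lr : ∀ a b, M.left a * M.right b = M.right b * M.left a

/-- The relations of the main case. -/
structure Good : Prop where
  rr : ∀ a b, M.right a * M.right b = M.right (a * b)
  lt : ∀ a b, M.left a * M.T b = M.left (a * b) + M.right b * M.left a
  pne : M.P ≠ 0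
  ee : M.E * M.E = M.E
  pe : M.P * M.E = M.E
  pl : ∀ a, M.P * M.left a = M.left a * M.E
  te : ∀ b, M.E * M.T b = M.T b * M.E

/-- The kernel of `π : M → Y_M`. -/
def ker' : Submodule F M.carrier :=
  LinearMap.ker M.P ⊔ LinearMap.range (M.T (me F) * M.E) ⊔ LinearMap.range (M.T (mf F) * M.E) ⊔
    LinearMap.range ((M.T (mh F) - 1) * M.E)

end Bimodule

/-- Basic: a bimodule is right alternative iff `R_b R_b = R_{bb}` and
`L_a T_b = L_{ab} + R_b L_a`. (Take one of the arguments of the identity to be `(a,0)`, `(0,m)`.) -/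
def S_basic : Prop := ∀ (F : Type u) [Field F] (M : Bimodule.{u, v} F),
  M.IsRightAlternative ↔ (∀ b, M.right b * M.right b = M.right (b * b)) ∧
    ∀ a b, M.left a * M.T b = M.left (a * b) + M.right b * M.left a

/-- ASSOC. Irreducible associative bimodules over `M₂(F)` (unital or not) are zero, left, right,
regular. Proof: `L_1`, `R_1` are idempotents commuting with all `L_a`, `R_a`; their ranges and kernels
are sub-bimodules, so each is `0` or `1`.  If `L_1 = 0` then `L_a = L_1 L_a = 0`, same for `R`.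
Both zero: any line is a sub-bimodule, so dimension 1.  `L_1 = 1, R = 0`: pick `m` with
`L_{e11} m ≠ 0` or `L_{e22} m ≠ 0`, get `0 ≠ v = L_{e11} v'`; `(x,y) ↦ L_{e11}(x v) + L_{e21}(y v)`
is a nonzero hom from the irreducible `leftBim`, both sides irreducible so it is bijective.
Similarly the right case. Both `1`: `v = L_{e11} R_{e11} v ≠ 0` (some `L_{e1i} R_{ej1} m ≠ 0` as
`m = ∑ L_{eii} R_{ejj} m`), and `a ↦ ∑_{ij} a_ij L_{e_i1} R_{e_1j} v` is a nonzero hom from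
`regBim`. (General lemma: a nonzero hom between irreducible bimodules is bijective; or: injective
since the kernel is a sub-bimodule of the source, surjective since the range is one of the target.
The index is never 4.) -/
def S_assoc : Prop := ∀ (F : Type u) [Field F] (M : Bimodule.{u, v} F), (2 : F) ≠ 0 →
  M.IsAssoc → M.IsIrreducible → ∃ i : Fin 5, M.Iso (special F i)

/-- SPEC1. The five special bimodules are right alternative and irreducible (use `S_basic` for right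
alternativity: entrywise `ext; fin_cases; simp; ring`). Irreducibility of `sixBim`: let `N ≠ 0`;
`R_{ij}` moves rows, so `N = F² ⊗ X` for a subspace `X ≠ 0` of `F³` (rows); from the formulas of `t6`
a nonzero row `(a,b,c)`: `(a,b,c)` in row 0 resp. row 1 under `T_e`, `T_f`, `T_h`: e.g. row 0 =
(a,b,c): `T_e` gives rows `(0,a,0)`, `(0,0,-a)`; `T_f` gives rows `(b,c,0)`, `(2a,b,c)`;
row 1 = (a,b,c): `T_e` gives rows `(a,b,2c)`, `(0,a,b)`; `T_f`: `(-c,0,0)`, `(0,c,0)`.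
So from any nonzero row all of `F³` is reached. -/
def S_spec1 : Prop := ∀ (F : Type u) [Field F], (2 : F) ≠ 0 → ∀ i : Fin 5,
  (special F i).IsRightAlternative ∧ (special F i).IsIrreducible

/-- SPEC2. No two of the five special bimodules are isomorphic, they have dimensions 1,2,2,4,6, and
none of them is isomorphic to `Y.bim`, `Y ≠ 0`. For the last: in `Y.bim` one has `P (j y) = j y`,
`R_e R_f = R_h` and (`S_pr`) `pr (j y) = j y` for the generators `j y = ([y],[q y]) ≠ 0`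
(`[y] ≠ 0` because `τ [y] = y`): `zeroBim`, `leftBim` have `P = 0`; `rightBim`, `regBim` have
`R_e R_f = R_{fe}`, and `P = 1`, so `R_e R_f = R_h` fails (`R_{fe} = R_{1-h}`); in `sixBim` (where
`P = E = 1`) `pr = 0` by computation (`T_e T_f + T_f T_e + 2 (T_h - 1)² = 4`). -/
def S_spec2 : Prop := ∀ (F : Type u) [Field F], (2 : F) ≠ 0 →
  (∀ i j : Fin 5, (special F i).Iso (special F j) → i = j) ∧
  (∀ i : Fin 5, Module.finrank F (special F i).carrier = ![1, 2, 2, 4, 6] i) ∧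
  ∀ (Y : QMod.{u, v} F), Nontrivial Y.carrier → ∀ i : Fin 5, ¬ Y.bim.Iso (special F i)

/-- PR. In `big Y`: `pr (u, Q u) = j (τ u)`.  Proof: `E (u, w) = (w, w)` (because `T_1 w = 2 w` in
matrices: `T_1 (u,w) = (u + w, 2 w)`), `T_b (w, w) = (T_b w, T_b w)`, and for a matrix `m`, with
`c = m₀₀ + x τ m`, `a = m₀₁ + m₁₀ + s τ m`, `b = m₁₁ + z τ m`: `T_e T_f m = (2c, a; a, 0)`,
`T_f T_e m = (0, a; a, 2b)`, `(T_h - 1)² m = (c, 0; 0, b)`, so
`m - (T_eT_f + T_fT_e) m/4 - (T_h-1)² m/2 = [τ m]`; and `u - Q u = [(1-q) τ u]`, `τ (Q u) = q τ u`. -/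
def S_pr : Prop := ∀ (F : Type u) [Field F] (Y : QMod.{u, v} F), (2 : F) ≠ 0 →
  ∀ m : Y.V, Y.big.pr (m, Y.qm m) = Y.jmap (Y.tau m)

/-- BIM. For `Y` irreducible, `Y.bim` is right alternative and irreducible; moreover `Y.bim` lies in
`{(u,w) : q τ w = τ w}` and is finite-dimensional iff `Y` is.
Right alternativity (`S_basic`) on `(u,w)` with `q τ w = τ w` (this set is a sub-bimodule of `big`
containing the generators): entrywise, `module`. The identity `L_a T_b = L_{ab} + R_b L_a` on `(u,w)`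
reads: first component `T_a T_b w - a T_b w = T_{ab} w - (ab) w + b (T_a w - a w)` (true for every
matrix `w`), second: `T_a T_b w - Q(a (b u + T_b w - b w)) = T_{ab} w - Q((ab) u) + Q(b (T_a w - a w))`,
which follows from the first one since `Q w' = w'` for `w' = T_a T_b w - T_{ab} w` (`τ T_b w = tr b τ w`,
so `q τ w' = τ w'`).
Irreducible: let `K ≤ gen` be a nonzero sub-bimodule of `big`. `Y' = {y | j y ∈ K}` is a submodule:
for `y ∈ Y'`: `R_b (j y) = (b [y], Q (b [y]))`, apply `pr` (`S_pr`): `j (τ (b [y])) ∈ K`;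
`τ (f [y]) = x y`, `τ (e [y]) = - z y`, `τ (h [y]) = (y - s y)/2`; and `L_1 (j y) = j (q y)`.
If `Y' = ⊤`, `K` contains the generators. If `Y' = ⊥`: for `(u,w) ∈ K` and all `b`,
`pr (R_b (u,w)) = j (τ (b u)) ∈ K` so `τ (b u) = 0`, so `u = 0`, and `L_1 (0,w) = (w,w)` so also `w = 0`
(use `u = 0` for the element `L_1 (0,w)`). -/
def S_bim : Prop := ∀ (F : Type u) [Field F] (Y : QMod.{u, v} F), (2 : F) ≠ 0 →
  (Y.IsIrreducible → Y.bim.IsRightAlternative ∧ Y.bim.IsIrreducible) ∧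
  (FiniteDimensional F Y.bim.carrier ↔ FiniteDimensional F Y.carrier)

/-- UNIQ. `Y.bim` determines `Y`. (⇐) an isomorphism `Y ≅ Y'` induces one of the `big`'s
(`m ↦ m.map φ` on both components) which maps generators to generators.
(⇒) given `φ : Y.bim ≅ Y'.bim`; in both bimodules `pr (P p) = j (τ p.1)` for `p = (u,w)`
(`P (u,w) = (u, Q u)`, `S_pr`), and `pr`, `P`, `R_b`, `L_b` commute with `φ`.
`ψ y = τ (φ (j y)).1`; `φ (j y) = φ (pr P j y) = pr P φ (j y) = j (ψ y)`; similarly for the inverse, so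
`ψ` is bijective; `j (x y) = pr (R_f (j y))`, `j (- z y) = pr (R_e (j y))`,
`j ((y - s y)/2) = pr (R_h (j y))`, `j (q y) = L_1 (j y)`, so `ψ` commutes with `x, z, s, q`. -/
def S_uniq : Prop := ∀ (F : Type u) [Field F] (Y : QMod.{u, v} F) (Y' : QMod.{u, w} F),
  (2 : F) ≠ 0 → (Y.bim.Iso Y'.bim ↔ Y.Iso Y')

/-- RED. Reduction: an irreducible right alternative bimodule is associative or satisfies `Good`.
Proof (char ≠ 2; write `P = R_1`, `Q = L_1`, `T_b = L_b + R_b`):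
 1. `R_a R_b + R_b R_a = R_{ab+ba}`; `P² = P`, `R_b P = P R_b = R_b`.
 2. `a=1` or `b=1` in the relation (L): `L_a (Q + P) = L_a + P L_a`; `Q T_b = L_b + R_b Q`;
    so `N := Q² - Q = P Q - Q P`, `P N + N P = N`, `Q N = N Q`; `[P, Q²]` computed in two ways
    (`Q² = Q + N`) gives `N Q + Q N = N + P N - N P = 2 P N`, so `Q N = P N`.
    Put `Z = (1-P)(1-Q)`. `P Z = 0` and `Q Z = 0` (`Q P Q = P Q² - N Q = P Q`), hence `L_a Z = 0`
    (`L_a (Q+P) Z = 0 = L_a Z + P L_a Z`, so `P L_a Z = - L_a Z`, apply `P`: `2 P L_a Z = 0`) and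
    `R_a Z = R_a P Z = 0`. So `range Z` has zero actions and every subspace of it is a sub-bimodule:
    if `Z ≠ 0` then `M = range Z` (any nonzero subspace of range Z is everything), `L = R = 0`: IsAssoc.
 3. `Z = 0`: `E := P + Q - 1 = P Q`, `P E = E`, `E² = E` (`Q P Q = P Q`),
    `P L_a = L_a E` (from 2), `E T_b = T_b E`.  If `P = 0`: `R = 0` and (L) gives `L_a L_b = L_{ab}`.
 4. `ω(b,c) := [R_b,R_c] - R_{[b,c]}`, `ω'(b,c) := [T_b,T_c] - T_{[b,c]}`. Expanding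
    `L_{(ab)c} = L_{a(bc)}` with `L_{ab} = L_a T_b - R_b L_a`: `L_a ω'(b,c) = ω(b,c) L_a`. `Q E = E`.
    `a = 1` on `range E` (`E` commutes with `ω'`): `ω' E = ω E`; so `L_a ω E = ω L_a E`.
    If `ω(b,c) = 0` for all `b,c` then `R_b R_c = R_{bc}`: `Good`.
    Jordan homomorphisms of `M₂(F)`: with `ω = ω(e,f)`: `ω` commutes with ... and
    `ω(e,f)² = 4 ε`, `ε` an idempotent commuting with all `R_a`, `R_b R_a ε = R_{ab} ε`,
    `R_a R_b (P - ε) = R_{ab} (P - ε)`, `ω(b,c) = -2 R_{[b,c]} ε`.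
    Case `ω(b,c) E ≠ 0` for some `b, c`: `range (ε E)` is a sub-bimodule (`ε` commutes with `L_a` on
    `range E`), so `ε E = 1`, `E = 1`, `P = 1`, `R` is an antihomomorphism commuting with all `L_a`
    (as `R_{[b,c]} ` do and they generate), so IsAssoc.
    Case `ω(b,c) E = 0` for all `b, c`: `R_a (1-E) = P T_a (1-E)`, so `ω (1-E) = P ω' (1-E)`, so
    `ω = P ω'`; `Q ω' = ω Q`, `P Q ω' = E ω' = ω' E = 0`, so `Q ω' = (1 + E - P) ω' = (1-P) ω'` and
    `ω Q = ω (1 + E - P) = ω - ω P = 0`; so `ω = ω'`, and `ω L_a = ω P L_a = ω L_a E = L_a ω E = 0`, so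
    `L_a ω = L_a ω' = ω L_a = 0`. So `range ε` is a sub-bimodule with `L = 0`: it is everything
    (then `ε = 1`, IsAssoc with `L = 0`) or `ε = 0` (then `ω = 0`: `Good`). -/
def S_red : Prop := ∀ (F : Type u) [Field F] (M : Bimodule.{u, v} F), (2 : F) ≠ 0 →
  M.IsRightAlternative → M.IsIrreducible → M.IsAssoc ∨ M.Good

/-- THETA (helper6). -/
def S_theta : Prop := ∀ (F : Type u) [Field F] (M : Bimodule.{u, v} F), (2 : F) ≠ 0 →
  M.Good → M.IsIrreducible → M.ker' ≠ ⊤ → ∃ Y : QMod.{u, v} F, Y.IsIrreducible ∧ M.Iso Y.bim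

/-- SIX. If `Good`, irreducible and `ker' = ⊤` then `M` is the exceptional bimodule.
Proof. (1) Apply `P` to `ker' = ⊤`: `range P = range (T_e E) + range (T_f E) + range (X E) ≤ range E`
(`X = T_h - 1`; use `E T_b = T_b E`, `P E = E`), and `range E ≤ range P`; it is a sub-bimodule
(`L_b E = P L_b`, `R_b = P R_b`), nonzero since `P ≠ 0`, so `P = E = 1`: `T_1 = 2`.
(2) relation (T): `T_a T_b = T_{ab} + R_a T_b + R_b T_a - R_{ab+ba}` (from `lt`, `rr`). Consequences: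
`T_e² = 2 R_e T_e`, `T_f² = 2 R_f T_f`, `T_h X = 2 R_h X`, hence `X³ = X` (`R_h² = R_h`);
`X T_e = T_e (X+1)`, `X T_f = T_f (X-1)`, `T_e T_f - T_f T_e = 2 X`;
`T_e T_h = R_e X + R_h T_e`, so `R_h T_e T_h = T_e T_h`; `A := T_e X (X+1) = T_e T_h X`: `X A = 2 A`,
`R_h A = A`, `2 R_h X A = X (X+1) A` so `4 A = 6 A`, so `A = 0`: `T_e` kills `{X = 1}`; same: `T_f`
kills `{X = -1}`. `T_e² T_f = 2 T_e T_h`, `T_f² T_e = 2 T_f (2 - T_h)`.
(3) `M = M₀ + M₁ + M₂` (`X = -1, 0, 1` there), `R_h = 1` on `M₂`, `R_h = 0` on `M₀`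
(`T_h X = 2 R_h X`). As `M = range T_e + range T_f + range X`, `M₁ = T_e M₀ + T_f M₂`, and
`T_f v = (1/2) T_e (T_f² v)` for `v ∈ M₂`; so `M₁ = T_e M₀`; `v ∈ M₂`: `v = (1/4) T_e² T_f² v`.
For `a ∈ M₀`: `T_e a = R_e a + R_{e22} T_e a` (since `R_h T_e a = R_e a` by `T_e T_h a = 0`).
(4) There are `(v₀,v₁) ≠ (0,0)` in `M₀` with `R_{e22} T_e v₀ = v₁`: take `0 ≠ v ∈ M₀` (M₀ ≠ 0, else
`M₁ = 0`, `M₂ = 0`); decompose `R_e v = u₂ + T_e a + u₀` (`u₂ ∈ M₂`, `a, u₀ ∈ M₀`); apply `R_{e22}`: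
`0 = R_{e22} T_e a + u₀`: the pair `(a, -u₀)`; if it is zero then `R_e v = u₂ = (1/4) T_e² T_f² u₂ =:
(1/2) T_e² b = R_e T_e b` with `b = T_f² u₂/2 ∈ M₀`, apply `R_f`: `v = R_{e22} T_e b`, pair `(b, v)`.
(5) The hom `sixBim → M`: with `w₀ = v₀`, `w₁ = v₁`, `w₂ = R_{e22} T_e v₁` (all in `range R_{e22}`),
row 1 entry `k` ↦ `w_k`, row 0 entry `k` ↦ `R_e w_k`. I.e. `m ↦ ∑ m 1 k • w_k + ∑ m 0 k • R_e w_k`.
It commutes with `R_b` and `T_b`: `T_e w₀ = R_e w₀ + w₁`, `T_e w₁ = R_e w₁ + w₂`,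
`T_h w₀ = T_h w₁ = 0`, `T_f w₀ = T_f w₁ = 0`, `R_e w₁ = R_e T_e v₀ = (1/2) T_e² v₀ ∈ M₂`,
`R_e w₂ = (1/2) T_e² v₁ ∈ M₂`, so all `T_b` of the spanning vectors `w₀, w₁, T_e w₀, T_e w₁,
T_e² w₀, T_e² w₁` are known from `sl₂`: `T_f T_e v = 2 v`, `T_f T_e² v = 2 T_e v` for `v ∈ M₀`.
It is nonzero; `sixBim` and `M` irreducible, so bijective. -/
def S_six : Prop := ∀ (F : Type u) [Field F] (M : Bimodule.{u, v} F), (2 : F) ≠ 0 →
  M.Good → M.IsIrreducible → M.ker' = ⊤ → (sixBim F).IsIrreducible → M.Iso (sixBim F)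

/-- The main theorem. -/
def S_main : Prop := ∀ (F : Type u) [Field F], (2 : F) ≠ 0 →
  (∀ i : Fin 5, (special F i).IsRightAlternative ∧ (special F i).IsIrreducible ∧
    Module.finrank F (special F i).carrier = ![1, 2, 2, 4, 6] i) ∧
  (∀ Y : QMod.{u, v} F, Y.IsIrreducible → Y.bim.IsRightAlternative ∧ Y.bim.IsIrreducible ∧
    (FiniteDimensional F Y.bim.carrier ↔ FiniteDimensional F Y.carrier)) ∧
  (∀ M : Bimodule.{u, v} F, M.IsRightAlternative → M.IsIrreducible →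
    (∃ i : Fin 5, M.Iso (special F i)) ∨ ∃ Y : QMod.{u, v} F, Y.IsIrreducible ∧ M.Iso Y.bim) ∧
  (∀ i j : Fin 5, (special F i).Iso (special F j) → i = j) ∧
  (∀ Y : QMod.{u, v} F, Y.IsIrreducible → ∀ i : Fin 5, ¬ Y.bim.Iso (special F i)) ∧
  (∀ (Y : QMod.{u, v} F) (Y' : QMod.{u, w} F), Y.bim.Iso Y'.bim ↔ Y.Iso Y')

theorem main (h1 : S_assoc.{u, v}) (h2 : S_spec1.{u}) (h3 : S_spec2.{u, v})
    (h4 : S_bim.{u, v}) (h5 : S_uniq.{u, v, w}) (h6 : S_red.{u, v}) (h7 : S_theta.{u, v})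
    (h8 : S_six.{u, v}) : S_main.{u, v, w} := by
  intro F _ hF
  refine ⟨fun i => ⟨(h2 F hF i).1, (h2 F hF i).2, (h3 F hF).2.1 i⟩,
    fun Y hY => ⟨((h4 F Y hF).1 hY).1, ((h4 F Y hF).1 hY).2, (h4 F Y hF).2⟩, ?_, (h3 F hF).1,
    fun Y hY i => (h3 F hF).2.2 Y hY.1 i, fun Y Y' => h5 F Y Y' hF⟩
  intro M hM hirr
  rcases h6 F M hF hM hirr with hA | hG
  · exact Or.inl (h1 F M hF hA hirr)
  · by_cases hk : M.ker' = ⊤
    · exact Or.inl ⟨4, h8 F M hF hG hirr hk (h2 F hF 4).2⟩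
    · exact Or.inr (h7 F M hF hG hirr hk)

end Pool.Agent.H6.RA
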