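import Pool.Agent.H6.RA.Stm

/-!
The homomorphism from a bimodule of the main kind into `big Y`.
-/

namespace Pool.Agent.H6.RA

universe u v w

namespace Bimodule

variable {F : Type u} [Field F] {M : Bimodule.{u, v} F}

/-- matrix unit `e₂₂` -/
def mg (F : Type u) [Field F] : Mat2 F := !![0, 0; 0, 1]

section mats

variable (F)

lemma me_me : me F * me F = 0 := by
  ext i j; fin_cases i <;> fin_cases j <;> simp [me, Matrix.mul_apply, Fin.sum_univ_two]
lemma mf_mf : mf F * mf F = 0 := by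
  ext i j; fin_cases i <;> fin_cases j <;> simp [mf, Matrix.mul_apply, Fin.sum_univ_two]
lemma mh_mh : mh F * mh F = mh F := by
  ext i j; fin_cases i <;> fin_cases j <;> simp [mh, Matrix.mul_apply, Fin.sum_univ_two]
lemma me_mf : me F * mf F = mh F := by
  ext i j; fin_cases i <;> fin_cases j <;> simp [me, mf, mh, Matrix.mul_apply, Fin.sum_univ_two]
lemma mf_me : mf F * me F = mg F := by
  ext i j; fin_cases i <;> fin_cases j <;> simp [me, mf, mg, Matrix.mul_apply, Fin.sum_univ_two]
lemma me_mh : me F * mh F = 0 := by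
  ext i j; fin_cases i <;> fin_cases j <;> simp [me, mh, Matrix.mul_apply, Fin.sum_univ_two]
lemma mh_me : mh F * me F = me F := by
  ext i j; fin_cases i <;> fin_cases j <;> simp [me, mh, Matrix.mul_apply, Fin.sum_univ_two]
lemma mf_mh : mf F * mh F = mf F := by
  ext i j; fin_cases i <;> fin_cases j <;> simp [mf, mh, Matrix.mul_apply, Fin.sum_univ_two]
lemma mh_mf : mh F * mf F = 0 := by
  ext i j; fin_cases i <;> fin_cases j <;> simp [mf, mh, Matrix.mul_apply, Fin.sum_univ_two]
lemma mh_add_mg : mh F + mg F = 1 := by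
  ext i j; fin_cases i <;> fin_cases j <;> simp [mg, mh]
lemma mg_mg : mg F * mg F = mg F := by
  ext i j; fin_cases i <;> fin_cases j <;> simp [mg, Matrix.mul_apply, Fin.sum_univ_two]
lemma mf_mg : mf F * mg F = 0 := by
  ext i j; fin_cases i <;> fin_cases j <;> simp [mf, mg, Matrix.mul_apply, Fin.sum_univ_two]
lemma me_mg : me F * mg F = me F := by
  ext i j; fin_cases i <;> fin_cases j <;> simp [me, mg, Matrix.mul_apply, Fin.sum_univ_two]

variable {F}

lemma expand (b : Mat2 F) :
    b = b 0 0 • mh F + b 0 1 • me F + b 1 0 • mf F + b 1 1 • mg F := by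
  ext i j; fin_cases i <;> fin_cases j <;> simp [me, mf, mh, mg]

end mats

/-- the relation (T) -/
lemma Good.tt (h : M.Good) (a b : Mat2 F) (v : M.carrier) :
    M.T a (M.T b v) = M.T (a * b) v + M.right a (M.T b v) + M.right b (M.T a v)
      - M.right (a * b) v - M.right (b * a) v := by
  have h1 := congrArg (fun g : Module.End F M.carrier => g v) (h.lt a b)
  have h2 := congrArg (fun g : Module.End F M.carrier => g v) (h.rr b a)
  simp only [Module.End.mul_apply, LinearMap.add_apply] at h1 h2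
  have h3 : M.T a (M.T b v) = M.left a (M.T b v) + M.right a (M.T b v) := rfl
  have h4 : M.T (a * b) v = M.left (a * b) v + M.right (a * b) v := rfl
  have h5 : M.T a v = M.left a v + M.right a v := rfl
  rw [h3, h1, h4, h5, map_add, h2]
  abel

lemma Good.rrv (h : M.Good) (a b : Mat2 F) (v : M.carrier) :
    M.right a (M.right b v) = M.right (a * b) v :=
  congrArg (fun g : Module.End F M.carrier => g v) (h.rr a b)

lemma Good.pR (h : M.Good) (a : Mat2 F) (v : M.carrier) :
    M.P (M.right a v) = M.right a v := by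
  have := h.rrv 1 a v
  rwa [one_mul] at this

lemma Good.Rp (h : M.Good) (a : Mat2 F) (v : M.carrier) :
    M.right a (M.P v) = M.right a v := by
  have := h.rrv a 1 v
  rwa [mul_one] at this

lemma Good.pp (h : M.Good) (v : M.carrier) : M.P (M.P v) = M.P v := h.pR 1 v

lemma Good.eev (h : M.Good) (v : M.carrier) : M.E (M.E v) = M.E v :=
  congrArg (fun g : Module.End F M.carrier => g v) h.ee

lemma Good.pev (h : M.Good) (v : M.carrier) : M.P (M.E v) = M.E v :=
  congrArg (fun g : Module.End F M.carrier => g v) h.pe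

lemma Good.plv (h : M.Good) (a : Mat2 F) (v : M.carrier) :
    M.P (M.left a v) = M.left a (M.E v) :=
  congrArg (fun g : Module.End F M.carrier => g v) (h.pl a)

lemma Good.tev (h : M.Good) (a : Mat2 F) (v : M.carrier) :
    M.E (M.T a v) = M.T a (M.E v) :=
  congrArg (fun g : Module.End F M.carrier => g v) (h.te a)

lemma Good.hg (_h : M.Good) (v : M.carrier) :
    M.right (mh F) v + M.right (mg F) v = M.P v := by
  have : M.right (mh F + mg F) v = M.P v := by rw [mh_add_mg]; rfl
  rw [← this, map_add]; rfl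

/-- `X = T_h - 1` -/
def X (M : Bimodule.{u, v} F) : Module.End F M.carrier := M.T (mh F) - 1

lemma X_apply (v : M.carrier) : M.X v = M.T (mh F) v - v := rfl

section elem

variable (h : M.Good) (h2 : (2 : F) ≠ 0)

include h

lemma Good.ex {v : M.carrier} (hv : M.E v = v) : M.E (M.X v) = M.X v := by
  rw [X_apply, map_sub, h.tev, hv]

lemma Good.et {v : M.carrier} (hv : M.E v = v) (a : Mat2 F) : M.E (M.T a v) = M.T a v := by
  rw [h.tev, hv]

lemma Good.pv {v : M.carrier} (hv : M.E v = v) : M.P v = v := by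
  rw [← hv, h.pev]

lemma Good.tee (v : M.carrier) :
    M.T (me F) (M.T (me F) v) = (2 : F) • M.right (me F) (M.T (me F) v) := by
  have := h.tt (me F) (me F) v
  rw [me_me, map_zero, map_zero] at this
  rw [this]
  simp only [LinearMap.zero_apply]
  module

lemma Good.tff (v : M.carrier) :
    M.T (mf F) (M.T (mf F) v) = (2 : F) • M.right (mf F) (M.T (mf F) v) := by
  have := h.tt (mf F) (mf F) v
  rw [mf_mf, map_zero, map_zero] at this
  rw [this]
  simp only [LinearMap.zero_apply]
  module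

/-- `T_h X = 2 R_h X` -/
lemma Good.thx (v : M.carrier) :
    M.T (mh F) (M.X v) = (2 : F) • M.right (mh F) (M.X v) := by
  have := h.tt (mh F) (mh F) v
  rw [mh_mh] at this
  rw [X_apply, map_sub, map_sub, this]
  module

/-- `T_e T_h = R_e X + R_h T_e` -/
lemma Good.teh (v : M.carrier) :
    M.T (me F) (M.T (mh F) v) = M.right (me F) (M.X v) + M.right (mh F) (M.T (me F) v) := by
  have := h.tt (me F) (mh F) v
  rw [me_mh, mh_me, map_zero, map_zero] at this
  rw [this, X_apply, map_sub]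
  simp only [LinearMap.zero_apply]
  module

/-- `X T_e = R_e X + R_h T_e` -/
lemma Good.xe (v : M.carrier) :
    M.X (M.T (me F) v) = M.right (me F) (M.X v) + M.right (mh F) (M.T (me F) v) := by
  have := h.tt (mh F) (me F) v
  rw [me_mh, mh_me, map_zero] at this
  rw [X_apply, this, X_apply, map_sub]
  simp only [LinearMap.zero_apply]
  module

/-- `T_h T_f = R_h T_f + R_f X` -/
lemma Good.thf (v : M.carrier) :
    M.T (mh F) (M.T (mf F) v) = M.right (mh F) (M.T (mf F) v) + M.right (mf F) (M.X v) := by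
  have := h.tt (mh F) (mf F) v
  rw [mh_mf, mf_mh, map_zero, map_zero] at this
  rw [this, X_apply, map_sub]
  simp only [LinearMap.zero_apply]
  module

/-- `T_e T_f = T_h + R_e T_f + R_f T_e - P` -/
lemma Good.tef (v : M.carrier) :
    M.T (me F) (M.T (mf F) v) = M.T (mh F) v + M.right (me F) (M.T (mf F) v) +
      M.right (mf F) (M.T (me F) v) - M.P v := by
  have := h.tt (me F) (mf F) v
  rw [me_mf, mf_me] at this
  rw [this, ← h.hg v]
  abel

end elem

section quot

variable (M)

/-- `Y_M` -/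
abbrev Yc : Type v := M.carrier ⧸ M.ker'

/-- the projection `π : M → Y_M` -/
abbrev pi : M.carrier →ₗ[F] M.Yc := M.ker'.mkQ

variable {M}

lemma pi_eq_zero {m : M.carrier} (hm : m ∈ M.ker') : M.pi m = 0 := by
  rw [Submodule.mkQ_apply, Submodule.Quotient.mk_eq_zero]; exact hm

variable (h : M.Good) (h2 : (2 : F) ≠ 0)

include h

lemma Good.piP (m : M.carrier) : M.pi (M.P m) = M.pi m := by
  rw [← sub_eq_zero, ← map_sub]
  apply pi_eq_zero
  apply Submodule.mem_sup_left; apply Submodule.mem_sup_left; apply Submodule.mem_sup_left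
  rw [LinearMap.mem_ker, map_sub, h.pp, sub_self]

lemma Good.piTe {v : M.carrier} (hv : M.E v = v) : M.pi (M.T (me F) v) = 0 := by
  apply pi_eq_zero
  apply Submodule.mem_sup_left; apply Submodule.mem_sup_left; apply Submodule.mem_sup_right
  exact ⟨v, by rw [Module.End.mul_apply, hv]⟩

lemma Good.piTf {v : M.carrier} (hv : M.E v = v) : M.pi (M.T (mf F) v) = 0 := by
  apply pi_eq_zero
  apply Submodule.mem_sup_left; apply Submodule.mem_sup_right
  exact ⟨v, by rw [Module.End.mul_apply, hv]⟩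

lemma Good.piX {v : M.carrier} (hv : M.E v = v) : M.pi (M.X v) = 0 := by
  apply pi_eq_zero
  apply Submodule.mem_sup_right
  exact ⟨v, by rw [Module.End.mul_apply, hv]; rfl⟩

lemma Good.piTh {v : M.carrier} (hv : M.E v = v) : M.pi (M.T (mh F) v) = M.pi v := by
  have := h.piX hv
  rwa [X_apply, map_sub, sub_eq_zero] at this

include h2

lemma Good.pReTe {v : M.carrier} (hv : M.E v = v) : M.pi (M.right (me F) (M.T (me F) v)) = 0 := by
  have h1 := h.piTe (h.et hv (me F))
  rw [h.tee, map_smul] at h1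
  exact (smul_eq_zero.1 h1).resolve_left h2

lemma Good.pRfTf {v : M.carrier} (hv : M.E v = v) : M.pi (M.right (mf F) (M.T (mf F) v)) = 0 := by
  have h1 := h.piTf (h.et hv (mf F))
  rw [h.tff, map_smul] at h1
  exact (smul_eq_zero.1 h1).resolve_left h2

lemma Good.pRhX {v : M.carrier} (hv : M.E v = v) : M.pi (M.right (mh F) (M.X v)) = 0 := by
  have h1 := h.piTh (h.ex hv)
  rw [h.thx, map_smul, h.piX hv] at h1
  exact (smul_eq_zero.1 h1).resolve_left h2

lemma Good.pRgX {v : M.carrier} (hv : M.E v = v) : M.pi (M.right (mg F) (M.X v)) = 0 := by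
  have h1 := congrArg M.pi (h.hg (M.X v))
  rw [map_add, h.pRhX h2 hv, h.piP, h.piX hv, zero_add] at h1
  exact h1

omit h2

/-- `π R_e X = - π R_h T_e` -/
lemma Good.p8 {v : M.carrier} (hv : M.E v = v) :
    M.pi (M.right (me F) (M.X v)) + M.pi (M.right (mh F) (M.T (me F) v)) = 0 := by
  have h1 := congrArg M.pi (h.teh v)
  rw [h.piTe (h.et hv _), map_add] at h1
  exact h1.symm

lemma Good.p9 {v : M.carrier} (hv : M.E v = v) :
    M.pi (M.right (mh F) (M.T (mf F) v)) + M.pi (M.right (mf F) (M.X v)) = 0 := by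
  have h1 := congrArg M.pi (h.thf v)
  rw [h.piTh (h.et hv _), h.piTf hv, map_add] at h1
  exact h1.symm

lemma Good.p10 {v : M.carrier} (hv : M.E v = v) :
    M.pi (M.right (me F) (M.T (mf F) v)) + M.pi (M.right (mf F) (M.T (me F) v)) = 0 := by
  have h1 := congrArg M.pi (h.tef v)
  rw [h.piTe (h.et hv _), map_sub, map_add, map_add, h.piTh hv, h.piP] at h1
  have : M.pi (M.right (me F) (M.T (mf F) v)) + M.pi (M.right (mf F) (M.T (me F) v)) =
    M.pi v + M.pi (M.right (me F) (M.T (mf F) v)) + M.pi (M.right (mf F) (M.T (me F) v)) - M.pi v := by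
    abel
  rw [this, ← h1]

/-- a linear map on `M` that factors through `P` and kills `T_e v`, `T_f v`, `X v` for `v ∈ range E`
kills `ker'` -/
lemma Good.kills (g : M.carrier →ₗ[F] M.Yc) (hP : ∀ m, g (M.P m) = g m)
    (he : ∀ v, M.E v = v → g (M.T (me F) v) = 0) (hf : ∀ v, M.E v = v → g (M.T (mf F) v) = 0)
    (hx : ∀ v, M.E v = v → g (M.X v) = 0) : M.ker' ≤ LinearMap.ker g := by
  refine sup_le (sup_le (sup_le ?_ ?_) ?_) ?_
  · intro m hm
    rw [LinearMap.mem_ker] at hm ⊢
    rw [← hP, hm, map_zero]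
  · rintro _ ⟨v, rfl⟩
    exact he _ (h.eev v)
  · rintro _ ⟨v, rfl⟩
    exact hf _ (h.eev v)
  · rintro _ ⟨v, rfl⟩
    exact hx _ (h.eev v)

end quot

section ops

variable (M)

/-- `x̃ = π R_f (1 - X E) P` -/
def xt : M.carrier →ₗ[F] M.Yc := M.pi ∘ₗ (M.right (mf F) * (1 - M.X * M.E) * M.P)

/-- `z̃ = - π R_e (1 + X E) P` -/
def zt : M.carrier →ₗ[F] M.Yc := - (M.pi ∘ₗ (M.right (me F) * (1 + M.X * M.E) * M.P))

/-- `s̃ = π (R_g - R_h - R_f T_e E) P` -/
def st : M.carrier →ₗ[F] M.Yc :=
  M.pi ∘ₗ ((M.right (mg F) - M.right (mh F) - M.right (mf F) * M.T (me F) * M.E) * M.P)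

/-- `q̃ = π E P` -/
def qt : M.carrier →ₗ[F] M.Yc := M.pi ∘ₗ (M.E * M.P)

variable {M}

lemma xt_apply (m : M.carrier) :
    M.xt m = M.pi (M.right (mf F) (M.P m - M.X (M.E (M.P m)))) := rfl

lemma zt_apply (m : M.carrier) :
    M.zt m = - M.pi (M.right (me F) (M.P m + M.X (M.E (M.P m)))) := rfl

lemma st_apply (m : M.carrier) :
    M.st m = M.pi (M.right (mg F) (M.P m) - M.right (mh F) (M.P m)
      - M.right (mf F) (M.T (me F) (M.E (M.P m)))) := rfl

lemma qt_apply (m : M.carrier) : M.qt m = M.pi (M.E (M.P m)) := rfl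

variable (h : M.Good) (h2 : (2 : F) ≠ 0)

include h h2

lemma Good.xt_ker : M.ker' ≤ LinearMap.ker M.xt := by
  apply h.kills
  · intro m; rw [xt_apply, xt_apply, h.pp]
  · intro v hv
    have e1 := h.et hv (me F)
    have e3 : M.right (mf F) (M.X (M.T (me F) v)) =
        M.right (mg F) (M.X v) + M.right (mf F) (M.T (me F) v) := by
      rw [h.xe, map_add, h.rrv, h.rrv, mf_me, mf_mh]
    rw [xt_apply, h.pv e1, e1, map_sub (M.right (mf F)), e3, sub_add_cancel_right, map_neg,
      h.pRgX h2 hv, neg_zero]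
  · intro v hv
    have e1 := h.et hv (mf F)
    have e3 : M.right (mf F) (M.X (M.T (mf F) v)) = 0 := by
      rw [X_apply, h.thf, map_sub, map_add, h.rrv, h.rrv, mf_mh, mf_mf, map_zero,
        LinearMap.zero_apply, add_zero, sub_self]
    rw [xt_apply, h.pv e1, e1, map_sub (M.right (mf F)), e3, sub_zero, h.pRfTf h2 hv]
  · intro v hv
    have e1 := h.ex hv
    have e3 : M.right (mf F) (M.X (M.X v)) = M.right (mf F) (M.X v) := by
      rw [X_apply (M.X v), h.thx, map_sub, map_smul, h.rrv, mf_mh]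
      module
    rw [xt_apply, h.pv e1, e1, map_sub (M.right (mf F)), e3, sub_self, map_zero]

lemma Good.zt_ker : M.ker' ≤ LinearMap.ker M.zt := by
  apply h.kills
  · intro m; rw [zt_apply, zt_apply, h.pp]
  · intro v hv
    have e1 := h.et hv (me F)
    have e3 : M.right (me F) (M.X (M.T (me F) v)) = 0 := by
      rw [h.xe, map_add, h.rrv, h.rrv, me_mh, me_me, map_zero, LinearMap.zero_apply,
        LinearMap.zero_apply, add_zero]
    rw [zt_apply, h.pv e1, e1, map_add (M.right (me F)), e3, add_zero, h.pReTe h2 hv, neg_zero]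
  · intro v hv
    have e1 := h.et hv (mf F)
    have e3 : M.right (me F) (M.X (M.T (mf F) v)) =
        M.right (mh F) (M.X v) - M.right (me F) (M.T (mf F) v) := by
      rw [X_apply, h.thf, map_sub, map_add, h.rrv, h.rrv, me_mf, me_mh, map_zero,
        LinearMap.zero_apply, zero_add]
    rw [zt_apply, h.pv e1, e1, map_add (M.right (me F)), e3, add_sub_cancel, h.pRhX h2 hv, neg_zero]
  · intro v hv
    have e1 := h.ex hv
    have e3 : M.right (me F) (M.X (M.X v)) = - M.right (me F) (M.X v) := by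
      rw [X_apply (M.X v), h.thx, map_sub, map_smul, h.rrv, me_mh, map_zero, LinearMap.zero_apply,
        smul_zero, zero_sub]
    rw [zt_apply, h.pv e1, e1, map_add (M.right (me F)), e3, add_neg_cancel, map_zero, neg_zero]

lemma Good.st_ker : M.ker' ≤ LinearMap.ker M.st := by
  apply h.kills
  · intro m; rw [st_apply, st_apply, h.pp]
  · intro v hv
    have e1 := h.et hv (me F)
    have e3 := h.hg (M.T (me F) v)
    rw [h.pv e1] at e3
    rw [st_apply, h.pv e1, e1, h.tee, map_smul, h.rrv, mf_me]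
    have : M.right (mg F) (M.T (me F) v) - M.right (mh F) (M.T (me F) v)
        - (2 : F) • M.right (mg F) (M.T (me F) v) = - M.T (me F) v := by
      rw [← e3]; simp only [map_add]
      rw [h.rrv, h.rrv, h.rrv, h.rrv, mg_mg, mh_mh]
      have a1 : mg F * mh F = 0 := by
        ext i j; fin_cases i <;> fin_cases j <;> simp [mg, mh, Matrix.mul_apply, Fin.sum_univ_two]
      have a2 : mh F * mg F = 0 := by
        ext i j; fin_cases i <;> fin_cases j <;> simp [mg, mh, Matrix.mul_apply, Fin.sum_univ_two]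
      rw [a1, a2, map_zero, LinearMap.zero_apply]
      module
    rw [this, map_neg, h.piTe hv, neg_zero]
  · intro v hv
    have e1 := h.et hv (mf F)
    rw [st_apply, h.pv e1, e1, h.tef, map_sub (M.right (mf F)), map_add, map_add, h.rrv, h.rrv,
      mf_me, mf_mf, map_zero, LinearMap.zero_apply, add_zero, h.Rp]
    have e4 := h.p9 hv
    have : M.right (mg F) (M.T (mf F) v) - M.right (mh F) (M.T (mf F) v)
        - (M.right (mf F) (M.T (mh F) v) + M.right (mg F) (M.T (mf F) v) - M.right (mf F) v) =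
        - (M.right (mh F) (M.T (mf F) v) + M.right (mf F) (M.X v)) := by
      rw [X_apply, map_sub]; abel
    rw [this, map_neg, map_add, e4, neg_zero]
  · intro v hv
    have e1 := h.ex hv
    rw [st_apply, h.pv e1, e1]
    have e5 : M.T (me F) (M.X v) = M.right (me F) (M.X v) + M.right (mh F) (M.T (me F) v)
        - M.T (me F) v := by rw [X_apply, map_sub, h.teh, X_apply]
    rw [e5, map_sub (M.right (mf F)), map_add, h.rrv, h.rrv, mf_me, mf_mh, add_sub_cancel_right,
      map_sub, map_sub, h.pRgX h2 hv, h.pRhX h2 hv]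
    abel

omit h2

lemma Good.qt_ker : M.ker' ≤ LinearMap.ker M.qt := by
  apply h.kills
  · intro m; rw [qt_apply, qt_apply, h.pp]
  · intro v hv
    rw [qt_apply, h.pv (h.et hv _), h.et hv, h.piTe hv]
  · intro v hv
    rw [qt_apply, h.pv (h.et hv _), h.et hv, h.piTf hv]
  · intro v hv
    rw [qt_apply, h.pv (h.ex hv), h.ex hv, h.piX hv]

/-- The module `Y_M`. -/
@[reducible] def Good.ymod (h2 : (2 : F) ≠ 0) : QMod.{u, v} F where
  carrier := M.Yc
  x := M.ker'.liftQ M.xt (h.xt_ker h2)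
  s := M.ker'.liftQ M.st (h.st_ker h2)
  z := M.ker'.liftQ M.zt (h.zt_ker h2)
  q := M.ker'.liftQ M.qt h.qt_ker
  idem := by
    intro y
    obtain ⟨m, rfl⟩ := M.ker'.mkQ_surjective y
    change M.ker'.liftQ M.qt h.qt_ker (M.qt m) = M.qt m
    rw [qt_apply]
    change M.qt (M.E (M.P m)) = _
    rw [qt_apply, h.pev, h.eev]

end ops

section theta

variable (h : M.Good) (h2 : (2 : F) ≠ 0)

lemma Good.y_x (m : M.carrier) : (h.ymod h2).x (M.pi m) = M.xt m := rfl
lemma Good.y_s (m : M.carrier) : (h.ymod h2).s (M.pi m) = M.st m := rfl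
lemma Good.y_z (m : M.carrier) : (h.ymod h2).z (M.pi m) = M.zt m := rfl
lemma Good.y_q (m : M.carrier) : (h.ymod h2).q (M.pi m) = M.qt m := rfl

/-- `Θ̂` -/
def Good.th : M.carrier →ₗ[F] (h.ymod h2).V where
  toFun v := !![- M.pi (M.right (mf F) v), M.pi (M.right (mh F) v);
    - M.pi (M.right (mg F) v), M.pi (M.right (me F) v)]
  map_add' v w := by
    ext i j; fin_cases i <;> fin_cases j <;> simp [-Submodule.mkQ_apply] <;> abel
  map_smul' c v := by
    ext i j; fin_cases i <;> fin_cases j <;> simp [-Submodule.mkQ_apply]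

lemma Good.th00 (v : M.carrier) : h.th h2 v 0 0 = - M.pi (M.right (mf F) v) := rfl
lemma Good.th01 (v : M.carrier) : h.th h2 v 0 1 = M.pi (M.right (mh F) v) := rfl
lemma Good.th10 (v : M.carrier) : h.th h2 v 1 0 = - M.pi (M.right (mg F) v) := rfl
lemma Good.th11 (v : M.carrier) : h.th h2 v 1 1 = M.pi (M.right (me F) v) := rfl

lemma Good.th_P (v : M.carrier) : h.th h2 (M.P v) = h.th h2 v := by
  ext i j
  fin_cases i <;> fin_cases j
  · change h.th h2 (M.P v) 0 0 = h.th h2 v 0 0
    rw [h.th00, h.th00, h.Rp]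
  · change h.th h2 (M.P v) 0 1 = h.th h2 v 0 1
    rw [h.th01, h.th01, h.Rp]
  · change h.th h2 (M.P v) 1 0 = h.th h2 v 1 0
    rw [h.th10, h.th10, h.Rp]
  · change h.th h2 (M.P v) 1 1 = h.th h2 v 1 1
    rw [h.th11, h.th11, h.Rp]

lemma Good.tau_th (v : M.carrier) : (h.ymod h2).tau (h.th h2 v) = M.pi v := by
  change h.th h2 v 0 1 - h.th h2 v 1 0 = _
  rw [h.th01, h.th10, sub_neg_eq_add, ← map_add, h.hg, h.piP]

lemma Rexp (b : Mat2 F) (v : M.carrier) :
    M.right b v = b 0 0 • M.right (mh F) v + b 0 1 • M.right (me F) v + b 1 0 • M.right (mf F) v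
      + b 1 1 • M.right (mg F) v := by
  conv_lhs => rw [expand b]
  simp only [map_add, map_smul, LinearMap.add_apply, LinearMap.smul_apply]

lemma T1 (v : M.carrier) : M.T 1 v = v + M.E v := by
  change _ = v + (M.T 1 v - v)
  abel

lemma Texp {v : M.carrier} (hv : M.E v = v) (b : Mat2 F) :
    M.T b v = b 0 0 • (M.X v + v) + b 0 1 • M.T (me F) v + b 1 0 • M.T (mf F) v
      + b 1 1 • (v - M.X v) := by
  have h1 : M.T (mh F) v = M.X v + v := by rw [X_apply]; abel
  have h3 : M.T (mg F) v = v - M.X v := by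
    have : M.T (mh F) v + M.T (mg F) v = M.T 1 v := by
      rw [← mh_add_mg F, map_add]; rfl
    rw [T1, hv, h1] at this
    have h4 : M.T (mg F) v = (M.X v + v + M.T (mg F) v) - (M.X v + v) := by abel
    rw [h4, this]; abel
  conv_lhs => rw [expand b]
  simp only [map_add, map_smul, LinearMap.add_apply, LinearMap.smul_apply]
  rw [h1, h3]

lemma Good.th_T {v : M.carrier} (hv : M.E v = v) (b : Mat2 F) :
    h.th h2 (M.T b v) = (h.ymod h2).tm b (h.th h2 v) := by
  have ht : h.th h2 v 0 1 - h.th h2 v 1 0 = M.pi v := h.tau_th h2 v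
  have hPv := h.pv hv
  have ex : (h.ymod h2).x (M.pi v) = M.pi (M.right (mf F) v) - M.pi (M.right (mf F) (M.X v)) := by
    rw [h.y_x, xt_apply, hPv, hv, map_sub, map_sub]
  have ez : (h.ymod h2).z (M.pi v) =
      - (M.pi (M.right (me F) v) + M.pi (M.right (me F) (M.X v))) := by
    rw [h.y_z, zt_apply, hPv, hv, map_add, map_add]
  have es : (h.ymod h2).s (M.pi v) = M.pi (M.right (mg F) v) - M.pi (M.right (mh F) v)
      - M.pi (M.right (mf F) (M.T (me F) v)) := by
    rw [h.y_s, st_apply, hPv, hv, map_sub, map_sub]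
  have g1 : ∀ w, M.E w = w → M.pi (M.right (mg F) w) = M.pi w - M.pi (M.right (mh F) w) := by
    intro w hw
    rw [eq_sub_iff_add_eq, add_comm, ← map_add, h.hg, h.pv hw]
  have a1 := h.pRfTf h2 hv
  have a2 := h.pReTe h2 hv
  have a3 := h.pRhX h2 hv
  have a4 := h.pRgX h2 hv
  have a5 : M.pi (M.right (mh F) (M.T (me F) v)) = - M.pi (M.right (me F) (M.X v)) := by
    rw [eq_neg_iff_add_eq_zero, add_comm, h.p8 hv]
  have a6 : M.pi (M.right (mh F) (M.T (mf F) v)) = - M.pi (M.right (mf F) (M.X v)) := by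
    rw [eq_neg_iff_add_eq_zero, h.p9 hv]
  have a7 : M.pi (M.right (me F) (M.T (mf F) v)) = - M.pi (M.right (mf F) (M.T (me F) v)) := by
    rw [eq_neg_iff_add_eq_zero, h.p10 hv]
  have a8 : M.pi (M.right (mg F) (M.T (me F) v)) = M.pi (M.right (me F) (M.X v)) := by
    rw [g1 _ (h.et hv _), h.piTe hv, a5]; abel
  have a9 : M.pi (M.right (mg F) (M.T (mf F) v)) = M.pi (M.right (mf F) (M.X v)) := by
    rw [g1 _ (h.et hv _), h.piTf hv, a6]; abel
  rw [Texp hv b]
  ext i j
  fin_cases i <;> fin_cases j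
  · change - M.pi (M.right (mf F) _) = b 0 0 • h.th h2 v 0 0 + b 0 1 • h.th h2 v 1 0 +
      (b 0 0 • h.th h2 v 0 0 + b 0 1 • h.th h2 v 0 1) +
      ((b 0 0 - b 1 1) • (h.ymod h2).x (h.th h2 v 0 1 - h.th h2 v 1 0) +
        b 0 1 • (h.ymod h2).s (h.th h2 v 0 1 - h.th h2 v 1 0))
    rw [ht, ex, es, h.th00, h.th01, h.th10]
    simp only [map_add, map_smul, map_sub]
    rw [a1]
    module
  · change M.pi (M.right (mh F) _) = b 0 0 • h.th h2 v 0 1 + b 0 1 • h.th h2 v 1 1 +
      (b 1 0 • h.th h2 v 0 0 + b 1 1 • h.th h2 v 0 1) +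
      (b 1 0 • (h.ymod h2).x (h.th h2 v 0 1 - h.th h2 v 1 0) +
        b 0 1 • (h.ymod h2).z (h.th h2 v 0 1 - h.th h2 v 1 0))
    rw [ht, ex, ez, h.th00, h.th01, h.th11]
    simp only [map_add, map_smul, map_sub]
    rw [a3, a5, a6]
    module
  · change - M.pi (M.right (mg F) _) = b 1 0 • h.th h2 v 0 0 + b 1 1 • h.th h2 v 1 0 +
      (b 0 0 • h.th h2 v 1 0 + b 0 1 • h.th h2 v 1 1) +
      (b 1 0 • (h.ymod h2).x (h.th h2 v 0 1 - h.th h2 v 1 0) +
        b 0 1 • (h.ymod h2).z (h.th h2 v 0 1 - h.th h2 v 1 0))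
    rw [ht, ex, ez, h.th00, h.th10, h.th11]
    simp only [map_add, map_smul, map_sub]
    rw [a4, a8, a9]
    module
  · change M.pi (M.right (me F) _) = b 1 0 • h.th h2 v 0 1 + b 1 1 • h.th h2 v 1 1 +
      (b 1 0 • h.th h2 v 1 0 + b 1 1 • h.th h2 v 1 1) +
      (b 1 0 • (h.ymod h2).s (h.th h2 v 0 1 - h.th h2 v 1 0) +
        (b 1 1 - b 0 0) • (h.ymod h2).z (h.th h2 v 0 1 - h.th h2 v 1 0))
    rw [ht, es, ez, h.th01, h.th10, h.th11]
    simp only [map_add, map_smul, map_sub]
    rw [a2, a7]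
    module

lemma Good.th_R (b : Mat2 F) (v : M.carrier) :
    h.th h2 (M.right b v) = (h.ymod h2).bm b (h.th h2 v) := by
  have key : ∀ c : Mat2 F, M.pi (M.right c (M.right b v)) =
      (c * b) 0 0 • M.pi (M.right (mh F) v) + (c * b) 0 1 • M.pi (M.right (me F) v) +
      (c * b) 1 0 • M.pi (M.right (mf F) v) + (c * b) 1 1 • M.pi (M.right (mg F) v) := by
    intro c
    rw [h.rrv, Rexp (c * b) v]
    simp only [map_add, map_smul]
  ext i j
  fin_cases i <;> fin_cases j
  · change - M.pi (M.right (mf F) (M.right b v)) = b 0 0 • h.th h2 v 0 0 + b 0 1 • h.th h2 v 1 0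
    rw [key, h.th00, h.th10]
    simp [mf, Matrix.mul_apply, Fin.sum_univ_two, -Submodule.mkQ_apply]
    module
  · change M.pi (M.right (mh F) (M.right b v)) = b 0 0 • h.th h2 v 0 1 + b 0 1 • h.th h2 v 1 1
    rw [key, h.th01, h.th11]
    simp [mh, Matrix.mul_apply, Fin.sum_univ_two, -Submodule.mkQ_apply]
  · change - M.pi (M.right (mg F) (M.right b v)) = b 1 0 • h.th h2 v 0 0 + b 1 1 • h.th h2 v 1 0
    rw [key, h.th00, h.th10]
    simp [mg, Matrix.mul_apply, Fin.sum_univ_two, -Submodule.mkQ_apply]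
    module
  · change M.pi (M.right (me F) (M.right b v)) = b 1 0 • h.th h2 v 0 1 + b 1 1 • h.th h2 v 1 1
    rw [key, h.th01, h.th11]
    simp [me, Matrix.mul_apply, Fin.sum_univ_two, -Submodule.mkQ_apply]

/-- `Θ̂ (E v) = Q (Θ̂ v)` for `v ∈ range P`. -/
lemma Good.th_E {v : M.carrier} (hv : M.P v = v) :
    h.th h2 (M.E v) = (h.ymod h2).qm (h.th h2 v) := by
  have h0 : (h.ymod h2).qm (h.th h2 v) =
      h.th h2 v - (h.ymod h2).inv (M.pi v - M.qt v) := by
    change h.th h2 v - (h.ymod h2).inv ((h.ymod h2).tau (h.th h2 v) -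
      (h.ymod h2).q ((h.ymod h2).tau (h.th h2 v))) = _
    rw [h.tau_th, h.y_q]
  have hq : M.pi v - M.qt v = M.pi (v - M.E v) := by
    rw [qt_apply, hv, map_sub]
  have h3 : M.E (v - M.E v) = 0 := by rw [map_sub, h.eev, sub_self]
  have h4 : M.P (v - M.E v) = v - M.E v := by rw [map_sub, hv, h.pev]
  have h5 : h.th h2 (v - M.E v) = (h.ymod h2).inv (M.pi (v - M.E v)) := by
    generalize v - M.E v = w at h3 h4
    have ex : (h.ymod h2).x (M.pi w) = M.pi (M.right (mf F) w) := by
      rw [h.y_x, xt_apply, h4, h3, map_zero, sub_zero]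
    have ez : (h.ymod h2).z (M.pi w) = - M.pi (M.right (me F) w) := by
      rw [h.y_z, zt_apply, h4, h3, map_zero, add_zero]
    have es : (h.ymod h2).s (M.pi w) = M.pi (M.right (mg F) w) - M.pi (M.right (mh F) w) := by
      rw [h.y_s, st_apply, h4, h3, map_zero, map_zero, sub_zero, map_sub]
    have ew : M.pi w = M.pi (M.right (mh F) w) + M.pi (M.right (mg F) w) := by
      rw [← map_add, h.hg, h4]
    ext i j
    fin_cases i <;> fin_cases j
    · change - M.pi (M.right (mf F) w) = - (h.ymod h2).x (M.pi w)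
      rw [ex]
    · change M.pi (M.right (mh F) w) = (2 : F)⁻¹ • (M.pi w - (h.ymod h2).s (M.pi w))
      rw [es, ew]
      have : M.pi (M.right (mh F) w) + M.pi (M.right (mg F) w) -
        (M.pi (M.right (mg F) w) - M.pi (M.right (mh F) w)) = (2 : F) • M.pi (M.right (mh F) w) := by
        module
      rw [this, smul_smul, inv_mul_cancel₀ h2, one_smul]
    · change - M.pi (M.right (mg F) w) = - ((2 : F)⁻¹ • (M.pi w + (h.ymod h2).s (M.pi w)))
      rw [es, ew]
      have : M.pi (M.right (mh F) w) + M.pi (M.right (mg F) w) +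
        (M.pi (M.right (mg F) w) - M.pi (M.right (mh F) w)) = (2 : F) • M.pi (M.right (mg F) w) := by
        module
      rw [this, smul_smul, inv_mul_cancel₀ h2, one_smul]
    · change M.pi (M.right (me F) w) = - (h.ymod h2).z (M.pi w)
      rw [ez, neg_neg]
  rw [h0, hq, ← h5, map_sub]
  abel

/-- The homomorphism `Θ : M → big Y`. -/
def Good.theta : M.carrier →ₗ[F] (h.ymod h2).big.carrier :=
  LinearMap.prod (h.th h2) (h.th h2 ∘ₗ M.E)

lemma Good.theta_apply (m : M.carrier) : h.theta h2 m = (h.th h2 m, h.th h2 (M.E m)) := rfl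

lemma Good.theta_right (b : Mat2 F) (m : M.carrier) :
    h.theta h2 (M.right b m) = (h.ymod h2).big.right b (h.theta h2 m) := by
  rw [h.theta_apply, h.theta_apply]
  change (h.th h2 (M.right b m), h.th h2 (M.E (M.right b m))) =
    ((h.ymod h2).bm b (h.th h2 m), (h.ymod h2).qm ((h.ymod h2).bm b (h.th h2 m)))
  rw [h.th_E h2 (h.pR b m), h.th_R]

lemma Good.theta_left (b : Mat2 F) (m : M.carrier) :
    h.theta h2 (M.left b m) = (h.ymod h2).big.left b (h.theta h2 m) := by
  rw [h.theta_apply, h.theta_apply]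
  change (h.th h2 (M.left b m), h.th h2 (M.E (M.left b m))) =
    ((h.ymod h2).tm b (h.th h2 (M.E m)) - (h.ymod h2).bm b (h.th h2 (M.E m)),
      (h.ymod h2).tm b (h.th h2 (M.E m)) - (h.ymod h2).qm ((h.ymod h2).bm b (h.th h2 m)))
  have e1 : h.th h2 (M.left b m) =
      (h.ymod h2).tm b (h.th h2 (M.E m)) - (h.ymod h2).bm b (h.th h2 (M.E m)) := by
    rw [← h.th_P, h.plv, ← h.th_T h2 (h.eev m), ← h.th_R, ← map_sub]
    congr 1
    change _ = (M.left b (M.E m) + M.right b (M.E m)) - M.right b (M.E m)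
    abel
  have e2 : h.th h2 (M.E (M.left b m)) =
      (h.ymod h2).tm b (h.th h2 (M.E m)) - (h.ymod h2).qm ((h.ymod h2).bm b (h.th h2 m)) := by
    rw [← h.th_R, ← h.th_E h2 (h.pR b m), ← h.th_T h2 (h.eev m), ← h.tev, ← map_sub, ← map_sub]
    congr 2
    change _ = (M.left b m + M.right b m) - M.right b m
    abel
  rw [e1, e2]

end theta

end Bimodule

end Pool.Agent.H6.RA
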